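import Mathlib
import Pool.Agent.TH69.OdF

set_option autoImplicit false

/-!
# The theorem of Hall and Higman with the exceptional case: the automorphism has fixed points
-/

namespace Pool.Agent.N6.HHE

open Pool.Agent.TH69.HH Pool.Agent.TH69.Od

/-- no fixed points in the exceptional cases -/
def NF (p q m : ℕ) {U : Type} [Group U] (σ : MulAut U) : Prop :=
  ∀ μ, 1 ≤ μ → μ ≤ m → ∀ r, 1 ≤ r → q ^ r = p ^ μ - 1 → ∀ u : U, (σ ^ p ^ (m - μ)) u = u → u = 1

theorem NF.pow {p q m i : ℕ} {U : Type} [Group U] {σ : MulAut U} (h : NF p q m σ)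
    (hi : i ≤ m - 1) (hm : 1 ≤ m) : NF p q (m - i) (σ ^ p ^ i) := by
  intro μ h1 h2 r hr h3 u hu
  refine h μ h1 (by omega) r hr h3 u ?_
  rw [← pow_mul, ← pow_add, show i + (m - i - μ) = m - μ from by omega] at hu
  exact hu

/-- fixed points in invariant cosets -/
theorem fix_coset {p q m j : ℕ} (hp : p.Prime) (hq : q.Prime) (hpq : p ≠ q) {U : Type} [Group U]
    [Finite U] (hcard : Nat.card U = q ^ j) (σ : MulAut U) (ord : σ ^ p ^ m = 1)
    (N : Subgroup U) (hN : ∀ w ∈ N, σ w ∈ N) {u : U} (hu : u⁻¹ * σ u ∈ N) :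
    ∃ w ∈ N, σ (u * w) = u * w := by
  classical
  have : Fact p.Prime := ⟨hp⟩
  have := Fintype.ofFinite U
  have hN' : N.map σ.toMonoidHom = N := by
    have hle : N.map σ.toMonoidHom ≤ N := by
      rintro _ ⟨w, hw, rfl⟩
      exact hN w hw
    exact Subgroup.eq_of_le_of_card_ge hle
      (Subgroup.card_map_of_injective (K := N) (f := σ.toMonoidHom) σ.injective).ge
  have hN2 : ∀ w, σ w ∈ N ↔ w ∈ N := by
    intro w
    refine ⟨fun h => ?_, hN w⟩
    rw [← hN'] at h
    obtain ⟨y, hy, e⟩ := h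
    have : y = w := σ.injective e
    rwa [← this]
  have hP : ∀ x : U, u⁻¹ * (σ.toEquiv : Equiv.Perm U) x ∈ N ↔ u⁻¹ * x ∈ N := by
    intro x
    change u⁻¹ * σ x ∈ N ↔ _
    rw [← hN2 (u⁻¹ * x), map_mul, map_inv]
    constructor
    · intro h
      have h2 := mul_mem (inv_mem hu) h
      have e : (u⁻¹ * σ u)⁻¹ * (u⁻¹ * σ x) = (σ u)⁻¹ * σ x := by group
      rwa [e] at h2
    · intro h
      have h2 := mul_mem hu h
      have e : (u⁻¹ * σ u) * ((σ u)⁻¹ * σ x) = u⁻¹ * σ x := by group
      rwa [e] at h2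
  let s : Equiv.Perm {x : U // u⁻¹ * x ∈ N} := Equiv.Perm.subtypePerm (σ.toEquiv) hP
  have hsk : ∀ (i : ℕ) (x : {x : U // u⁻¹ * x ∈ N}), (((s ^ i) x : {x : U // u⁻¹ * x ∈ N}) : U) =
      (σ ^ i) x := by
    intro i
    induction i with
    | zero => intro x; rfl
    | succ i ih =>
      intro x
      rw [pow_succ', pow_succ', Equiv.Perm.mul_apply, MulAut.mul_apply, ← ih]
      rfl
  have hs : s ^ p ^ m = 1 := by
    ext x
    rw [hsk, ord]
    rfl
  have hc : ¬ p ∣ Fintype.card {x : U // u⁻¹ * x ∈ N} := by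
    have e : {x : U // u⁻¹ * x ∈ N} ≃ N :=
      { toFun := fun x => ⟨u⁻¹ * x, x.2⟩
        invFun := fun w => ⟨u * w, by rw [inv_mul_cancel_left]; exact w.2⟩
        left_inv := fun x => Subtype.ext (mul_inv_cancel_left _ _)
        right_inv := fun w => Subtype.ext (inv_mul_cancel_left _ _) }
    rw [Fintype.card_congr e, ← Nat.card_eq_fintype_card]
    intro h
    have h1 : Nat.card N ∣ q ^ j := by
      rw [← hcard]
      exact Subgroup.card_subgroup_dvd_card N
    have h2 := hp.dvd_of_dvd_pow (h.trans h1)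
    exact hpq ((Nat.prime_dvd_prime_iff_eq hp hq).1 h2)
  obtain ⟨⟨x, hx⟩, hx2⟩ := Equiv.Perm.exists_fixed_point_of_prime hc hs
  refine ⟨u⁻¹ * x, hx, ?_⟩
  rw [mul_inv_cancel_left]
  exact congrArg Subtype.val hx2

/-- the conclusion of the theorem -/
def HHPx (k : Type) [Field k] (p q m : ℕ) : Prop :=
  ∀ (U : Type) [Group U] [Finite U] (M : Type) [AddCommGroup M] [Module k M]
    [FiniteDimensional k M] (ρ : U →* Module.End k M) (γ : Module.End k M) (σ : MulAut U),
    (∃ j, Nat.card U = q ^ j) → NF p q m σ → (∀ u, γ * ρ u = ρ (σ u) * γ) →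
    (∑ i ∈ Finset.range (p ^ m), γ ^ i = 0) → σ ^ p ^ m = 1 →
    ∀ u, γ ^ p ^ (m - 1) * ρ u = ρ u * γ ^ p ^ (m - 1)

section

variable {k : Type} [Field k] [IsAlgClosed k] {M U : Type} [AddCommGroup M] [Module k M]
  [Group U] [FiniteDimensional k M]
variable {p q m : ℕ} [CharP k p] {ρ : U →* Module.End k M} {γ : Module.End k M} {σ : MulAut U}

/-- the irreducible case -/
theorem dt_false [Fintype U] [Nontrivial M] (D : Dt k p m ρ γ σ) (hp : p.Prime) (hq : q.Prime)
    (hpq : p ≠ q) (hm : 1 ≤ m) {j : ℕ} (hcard : Fintype.card U = q ^ j)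
    (hnf : NF p q m σ)
    (IH : ∀ m', m' < m → 1 ≤ m' → HHPx k p q m') : False := by
  classical
  by_cases hUc : Uc ρ = ⊤
  · refine D.not_comm hp fun u w => ?_
    have h : u ∈ Uc ρ := by rw [hUc]; exact Subgroup.mem_top u
    exact h w
  have hfix : ∀ u ∈ Uc ρ, (σ ^ p ^ (m - 1)) u = u :=
    D.min (Uc ρ) (fun _ h => D.Uc_sigma hp.pos h) hUc
  have hsig : ∀ i : ℕ, ∀ u ∈ Uc ρ, (σ ^ i) u ∈ Uc ρ := by
    intro i
    induction i with
    | zero => intro u hu; exact hu
    | succ i ih =>
      intro u hu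
      rw [pow_succ', MulAut.mul_apply]
      exact D.Uc_sigma hp.pos (ih u hu)
  let τ : Uc ρ →* Module.End k M := ρ.comp (Uc ρ).subtype
  obtain ⟨v, hv0, χ, hχ⟩ := exists_common (ρ := τ) fun u w => u.2 (w : U)
  -- the eigenspace
  let W : Submodule k M :=
    { carrier := {x | ∀ u : Uc ρ, ρ (u : U) x = χ u • x}
      add_mem' := by
        intro a b ha hb u
        rw [map_add, ha u, hb u, smul_add]
      zero_mem' := by
        intro u
        rw [map_zero, smul_zero]
      smul_mem' := by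
        intro c a ha u
        rw [map_smul, ha u, smul_comm] }
  have hvW : v ∈ W := hχ
  have hWρ : ∀ u, ∀ x ∈ W, ρ u x ∈ W := by
    intro u x hx w
    change (ρ (w : U) * ρ u) x = _
    rw [w.2 u]
    change ρ u (ρ (w : U) x) = _
    rw [hx w, map_smul]
  -- invariance exponents
  let P : ℕ → Prop := fun n => ∀ u : Uc ρ, χ ⟨(σ ^ n) (u : U), hsig n u u.2⟩ = χ u
  have hPW : ∀ n, P n → ∀ x ∈ W, (γ ^ n) x ∈ W := by
    intro n hn x hx u
    obtain ⟨w, hw⟩ := (σ ^ n).surjective (u : U)
    have hwU : w ∈ Uc ρ := by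
      have h1 : w = (σ ^ (p ^ m * n - n)) (u : U) := by
        rw [← hw, ← MulAut.mul_apply, ← pow_add, Nat.sub_add_cancel, pow_mul, D.ord, one_pow,
          MulAut.one_apply]
        exact Nat.le_mul_of_pos_left _ (Nat.pow_pos hp.pos)
      rw [h1]
      exact hsig _ _ u.2
    have h1 := congrArg (fun Z : Module.End k M => Z x) (rel_pow D.rel n w)
    change (γ ^ n) (ρ w x) = ρ ((σ ^ n) w) ((γ ^ n) x) at h1
    have h2 := hx ⟨w, hwU⟩
    change ρ w x = _ at h2
    rw [hw, h2, map_smul] at h1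
    rw [← h1]
    have h3 := hn ⟨w, hwU⟩
    have h4 : (⟨(σ ^ n) w, hsig n w hwU⟩ : Uc ρ) = u := Subtype.ext hw
    change χ ⟨(σ ^ n) w, hsig n w hwU⟩ = _ at h3
    rw [h4] at h3
    rw [h3]
  by_cases hP0 : P 1
  · -- `Uc` acts by scalars
    have hW : W = ⊤ := by
      refine (D.irr W hWρ ?_).resolve_left ?_
      · intro x hx
        have := hPW 1 hP0 x hx
        rwa [pow_one] at this
      · intro h
        rw [h, Submodule.mem_bot] at hvW
        exact hv0 hvW
    have hscl : ∀ u ∈ Uc ρ, ∃ c : k, ρ u = c • 1 := by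
      intro u hu
      refine ⟨χ ⟨u, hu⟩, ?_⟩
      ext x
      have hx : x ∈ W := by rw [hW]; exact Submodule.mem_top
      exact hx ⟨u, hu⟩
    have T : NT k p m ρ γ σ q j := NT.mk D hm hp hq hpq hcard hUc hscl
    obtain ⟨r, hr, h1⟩ := T.count
    -- a commutator which acts nontrivially
    have hfx : ∀ u : U, σ u = u → u = 1 := by
      intro u hu
      refine hnf m hm le_rfl r hr h1 u ?_
      rw [Nat.sub_self, pow_zero, pow_one]
      exact hu
    refine D.not_comm hp fun a b => ?_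
    have hc := T.comm_mem a b
    have h2 := T.rho_sigma hc
    have h3 : (a * b * a⁻¹ * b⁻¹)⁻¹ * σ (a * b * a⁻¹ * b⁻¹) ∈ ρ.ker := by
      change ρ ((a * b * a⁻¹ * b⁻¹)⁻¹ * σ (a * b * a⁻¹ * b⁻¹)) = 1
      rw [map_mul, h2, ← map_mul, inv_mul_cancel, map_one]
    have hker : ∀ w ∈ ρ.ker, σ w ∈ ρ.ker := by
      intro w hw
      have hw1 : ρ w = 1 := hw
      change ρ (σ w) = 1
      apply D.cancel hp.pos
      rw [← D.rel, hw1, mul_one, one_mul]
    obtain ⟨w, hw, hw2⟩ := fix_coset hp hq hpq (by rw [Nat.card_eq_fintype_card, hcard]) σ D.ord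
      ρ.ker hker h3
    have h4 := hfx _ hw2
    have h5 : ρ (a * b * a⁻¹ * b⁻¹) = 1 := by
      have h6 : ρ (a * b * a⁻¹ * b⁻¹ * w) = 1 := by rw [h4, map_one]
      have h7 : ρ w = 1 := hw
      rwa [map_mul, h7, mul_one] at h6
    have h6 : ρ (a * b) = ρ (b * a) := by
      have h7 : a * b = (a * b * a⁻¹ * b⁻¹) * (b * a) := by group
      rw [h7, map_mul, h5, one_mul]
    rw [← map_mul, h6, map_mul]
  · have hPe : ∃ i, P (p ^ i) := ⟨m - 1, fun u => by
      congr 1
      exact Subtype.ext (hfix u u.2)⟩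
    let i0 := Nat.find hPe
    have hi0 : P (p ^ i0) := Nat.find_spec hPe
    have hi0m : i0 ≤ m - 1 := Nat.find_min' hPe (fun u => by
      congr 1
      exact Subtype.ext (hfix u u.2))
    have hi0' : ∀ i, i < i0 → ¬ P (p ^ i) := fun i hi => Nat.find_min hPe hi
    have hi1 : 1 ≤ i0 := by
      rcases Nat.eq_zero_or_pos i0 with h | h
      · rw [h, pow_zero] at hi0
        exact absurd hi0 hP0
      · exact h
    -- the conjugate characters
    have hsinv : ∀ (i : ℕ) (u : Uc ρ), ((σ ^ i)⁻¹ : MulAut U) (u : U) ∈ Uc ρ := by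
      intro i u
      have h1 : ((σ ^ i)⁻¹ : MulAut U) = σ ^ (p ^ m * i - i) := by
        rw [inv_eq_iff_mul_eq_one, ← pow_add, Nat.add_sub_cancel', pow_mul, D.ord, one_pow]
        exact Nat.le_mul_of_pos_left _ (Nat.pow_pos hp.pos)
      rw [h1]
      exact hsig _ _ u.2
    let X : Fin (p ^ i0) → (Uc ρ →* k) := fun i =>
      { toFun := fun u => χ ⟨((σ ^ (i : ℕ))⁻¹ : MulAut U) (u : U), hsinv i u⟩
        map_one' := by
          have : (⟨((σ ^ (i : ℕ))⁻¹ : MulAut U) ((1 : Uc ρ) : U), hsinv i 1⟩ : Uc ρ) = 1 :=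
            Subtype.ext (map_one _)
          rw [this, map_one]
        map_mul' := by
          intro a b
          rw [← map_mul]
          congr 1
          exact Subtype.ext (map_mul _ _ _) }
    have hXinj : Function.Injective X := by
      have key : ∀ i j : Fin (p ^ i0), (i : ℕ) < j → X i ≠ X j := by
        intro i j hlt hij
        have h1 : P ((j : ℕ) - i) := by
          intro u
          have h2 := DFunLike.congr_fun hij ⟨(σ ^ (j : ℕ)) (u : U), hsig j u u.2⟩
          have h3 : X j ⟨(σ ^ (j : ℕ)) (u : U), hsig j u u.2⟩ = χ u := by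
            change χ _ = χ u
            congr 1
            apply Subtype.ext
            change ((σ ^ (j : ℕ))⁻¹ * σ ^ (j : ℕ)) (u : U) = u
            rw [inv_mul_cancel, MulAut.one_apply]
          rw [← h3, ← h2]
          change χ _ = χ _
          congr 1
          apply Subtype.ext
          change (σ ^ ((j : ℕ) - i)) (u : U) = ((σ ^ (i : ℕ))⁻¹ * σ ^ (j : ℕ)) (u : U)
          congr 1
          rw [eq_inv_mul_iff_mul_eq, ← pow_add]
          congr 1
          omega
        obtain ⟨w, t, hw, ht⟩ := pow_of_lt2 hp D.ord (d := (j : ℕ) - i) (by omega)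
        have h5 : ∀ n : ℕ, P (((j : ℕ) - i) * n) := by
          intro n
          induction n with
          | zero =>
            intro u
            congr 1
          | succ n ih =>
            intro u
            rw [← ih u, ← h1 ⟨(σ ^ (((j : ℕ) - i) * n)) (u : U), hsig _ u u.2⟩]
            congr 1
            apply Subtype.ext
            change (σ ^ (((j : ℕ) - i) * (n + 1))) (u : U) =
              (σ ^ ((j : ℕ) - i) * σ ^ (((j : ℕ) - i) * n)) (u : U)
            rw [← pow_add]
            congr 2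
            ring
        have h6 : P (p ^ w) := by
          intro u
          rw [← h5 t u]
          congr 1
          apply Subtype.ext
          change (σ ^ p ^ w) (u : U) = (σ ^ (((j : ℕ) - i) * t)) (u : U)
          rw [pow_mul, ht]
        have h7 : w < i0 := by
          have h8 : p ^ w < p ^ i0 := lt_of_le_of_lt hw (by omega)
          exact (Nat.pow_lt_pow_iff_right hp.one_lt).1 h8
        exact hi0' w h7 h6
      intro i j hij
      rcases lt_trichotomy (i : ℕ) j with h | h | h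
      · exact absurd hij (key i j h)
      · exact Fin.ext h
      · exact absurd hij.symm (key j i h)
    -- the norm on the eigenspace
    have hmi : p ^ i0 * p ^ (m - i0) = p ^ m := by
      rw [← pow_add]
      congr 1
      omega
    have hγW : ∀ x ∈ W, (γ ^ p ^ i0) x ∈ W := hPW _ hi0
    have hγWl : ∀ l : ℕ, ∀ x ∈ W, ((γ ^ p ^ i0) ^ l) x ∈ W := by
      intro l
      induction l with
      | zero => intro x hx; exact hx
      | succ l ih =>
        intro x hx
        rw [pow_succ']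
        exact hγW _ (ih x hx)
    have hnorm : ∀ x ∈ W, (∑ l ∈ Finset.range (p ^ (m - i0)), (γ ^ p ^ i0) ^ l) x = 0 := by
      intro x hx
      obtain ⟨y, hy⟩ : ∃ y, y = (∑ l ∈ Finset.range (p ^ (m - i0)), (γ ^ p ^ i0) ^ l) x :=
        ⟨_, rfl⟩
      have hyW : y ∈ W := by
        rw [hy, LinearMap.sum_apply]
        exact Submodule.sum_mem _ fun l _ => hγWl l x hx
      have h1 : ∑ i : Fin (p ^ i0), (γ ^ (i : ℕ)) y = 0 := by
        rw [Fin.sum_univ_eq_sum_range (fun i => (γ ^ i) y)]
        have h2 := congrArg (fun Z : Module.End k M => Z x) (sum_blocks γ (p ^ i0) (p ^ (m - i0)))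
        rw [hmi] at h2
        simp only [D.nrm] at h2
        change (0 : M) = (∑ i ∈ Finset.range (p ^ i0), γ ^ i)
          ((∑ l ∈ Finset.range (p ^ (m - i0)), (γ ^ p ^ i0) ^ l) x) at h2
        rw [← hy, LinearMap.sum_apply] at h2
        exact h2.symm
      have h3 := char_sum_zero τ X hXinj (fun i => (γ ^ (i : ℕ)) y) ?_ h1
        ⟨0, Nat.pow_pos hp.pos⟩
      · rw [← hy]
        exact h3
      · intro i u
        have h4 := rel_pow D.rel i (((σ ^ (i : ℕ))⁻¹ : MulAut U) (u : U))
        have h5 : (σ ^ (i : ℕ)) (((σ ^ (i : ℕ))⁻¹ : MulAut U) (u : U)) = u := by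
          rw [← MulAut.mul_apply, mul_inv_cancel, MulAut.one_apply]
        rw [h5] at h4
        have h6 := congrArg (fun Z : Module.End k M => Z y) h4
        change (γ ^ (i : ℕ)) (ρ _ y) = ρ (u : U) ((γ ^ (i : ℕ)) y) at h6
        change ρ (u : U) ((γ ^ (i : ℕ)) y) = _
        rw [← h6, hyW ⟨_, hsinv i u⟩, map_smul]
        rfl
    -- induction
    have h1 := IH (m - i0) (by omega) (by omega) U W (resW ρ W hWρ)
      ((γ ^ p ^ i0).restrict hγW) (σ ^ p ^ i0) ⟨j, by rw [Nat.card_eq_fintype_card, hcard]⟩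
      (hnf.pow hi0m hm) ?_ ?_ ?_
    · apply hv0
      apply D.WW_bot
      intro u
      have h2 := congrArg (fun Z : Module.End k W => ((Z ⟨v, hvW⟩ : W) : M)) (h1 u)
      change ((((γ ^ p ^ i0).restrict hγW) ^ p ^ (m - i0 - 1)) ⟨ρ u v, hWρ u v hvW⟩ : M) =
        ρ u ((((γ ^ p ^ i0).restrict hγW) ^ p ^ (m - i0 - 1)) ⟨v, hvW⟩ : M) at h2
      rw [restrict_pow, restrict_pow, ← pow_mul, ← pow_add,
        show i0 + (m - i0 - 1) = m - 1 from by omega] at h2
      exact h2
    · intro u
      ext x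
      have h2 := congrArg (fun Z : Module.End k M => Z (x : M)) (rel_pow D.rel (p ^ i0) u)
      exact h2
    · ext x
      rw [LinearMap.sum_apply, Submodule.coe_sum]
      simp only [restrict_pow]
      rw [← LinearMap.sum_apply]
      exact hnorm x x.2
    · rw [← pow_mul, hmi, D.ord]


end

section

variable (k : Type) [Field k] [IsAlgClosed k] {p q m : ℕ} [CharP k p]

/-- the case of a minimal group -/
theorem min_case (hp : p.Prime) (hq : q.Prime) (hpq : p ≠ q) (hm : 1 ≤ m)
    (IH : ∀ m', m' < m → 1 ≤ m' → HHPx k p q m')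
    (U : Type) [Group U] [Finite U] {j : ℕ} (hcard : Nat.card U = q ^ j) (σ : MulAut U)
    (hnf : NF p q m σ)
    (ord : σ ^ p ^ m = 1)
    (min : ∀ U' : Subgroup U, (∀ u ∈ U', σ u ∈ U') → U' ≠ ⊤ →
      ∀ u ∈ U', (σ ^ p ^ (m - 1)) u = u) :
    ∀ d : ℕ, ∀ (M : Type) [AddCommGroup M] [Module k M] [FiniteDimensional k M]
      (ρ : U →* Module.End k M) (γ : Module.End k M), Module.finrank k M ≤ d →
      (∀ u, γ * ρ u = ρ (σ u) * γ) → (∑ i ∈ Finset.range (p ^ m), γ ^ i = 0) →
      ∀ u, γ ^ p ^ (m - 1) * ρ u = ρ u * γ ^ p ^ (m - 1) := by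
  have := Fintype.ofFinite U
  intro d
  induction d with
  | zero =>
    intro M _ _ _ ρ γ hd _ _ u
    have h1 : Module.finrank k M = 0 := by omega
    have : Subsingleton M := Module.finrank_zero_iff.1 h1
    exact Subsingleton.elim _ _
  | succ d ih =>
    intro M _ _ _ ρ γ hd rel nrm
    by_cases hnt : ∃ u, γ ^ p ^ (m - 1) * ρ u ≠ ρ u * γ ^ p ^ (m - 1)
    swap
    · push Not at hnt
      exact hnt
    exfalso
    have hM : Nontrivial M := by
      by_contra h
      rw [not_nontrivial_iff_subsingleton] at h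
      obtain ⟨u, hu⟩ := hnt
      exact hu (Subsingleton.elim _ _)
    by_cases hirr : ∀ W : Submodule k M, (∀ u, ∀ m ∈ W, ρ u m ∈ W) → (∀ m ∈ W, γ m ∈ W) →
        W = ⊥ ∨ W = ⊤
    · refine dt_false (⟨rel, nrm, ord, hirr, hnt, min⟩ : Dt k p m ρ γ σ) hp hq hpq hm
        (j := j) (by rw [← Nat.card_eq_fintype_card, hcard]) hnf IH
    · push Not at hirr
      obtain ⟨W, hW1, hW2, hW3, hW4⟩ := hirr
      have hWlt : Module.finrank k W < Module.finrank k M :=
        Submodule.finrank_lt (lt_top_iff_ne_top.2 hW4).ne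
      have hWpos : 0 < Module.finrank k W := by
        have : Nontrivial W := (Submodule.nontrivial_iff_ne_bot).2 hW3
        exact Module.finrank_pos
      have hQ := Submodule.finrank_quotient_add_finrank W
      -- the subspace
      have h1 := ih W (resW ρ W hW1) (γ.restrict hW2) (by omega) (by
        intro u
        ext x
        exact congrArg (fun Z : Module.End k M => Z (x : M)) (rel u)) (by
        ext x
        rw [LinearMap.sum_apply, Submodule.coe_sum]
        simp only [restrict_pow]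
        rw [← LinearMap.sum_apply, nrm]
        rfl)
      have h2 := ih (M ⧸ W) (quoW ρ W hW1) (W.mapQ W γ hW2) (by omega) (by
        intro u
        ext x
        exact congrArg (fun Z : Module.End k M => (Submodule.Quotient.mk (Z x) : M ⧸ W))
          (rel u)) (by
        ext x
        rw [LinearMap.comp_apply, LinearMap.sum_apply]
        simp only [Submodule.mkQ_apply, mapQ_pow]
        have h3 := congrArg (fun Z : Module.End k M => (Submodule.Quotient.mk (Z x) : M ⧸ W)) nrm
        simp only [LinearMap.sum_apply] at h3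
        rw [← Submodule.mkQ_apply, map_sum] at h3
        exact h3)
      obtain ⟨δ, hδ⟩ : ∃ δ, δ = γ ^ p ^ (m - 1) := ⟨_, rfl⟩
      obtain ⟨ζ, hζ⟩ : ∃ ζ, ζ = σ ^ p ^ (m - 1) := ⟨_, rfl⟩
      have hrel : ∀ u, δ * ρ u = ρ (ζ u) * δ := by
        intro u
        rw [hδ, hζ, rel_pow rel]
      have hδinv : ∃ δ', δ * δ' = 1 ∧ ∀ x ∈ W, δ' x ∈ W := by
        have hg : γ ^ p ^ m = 1 := by
          have h := geom_sum_mul γ (p ^ m)
          rw [nrm, zero_mul] at h
          exact (sub_eq_zero.1 h.symm)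
        have hgW : ∀ i : ℕ, ∀ x ∈ W, (γ ^ i) x ∈ W := by
          intro i
          induction i with
          | zero => intro x hx; exact hx
          | succ i ih =>
            intro x hx
            rw [pow_succ']
            exact hW2 _ (ih x hx)
        refine ⟨γ ^ (p ^ m - p ^ (m - 1)), ?_, hgW _⟩
        rw [hδ, ← pow_add, Nat.add_sub_cancel', hg]
        exact Nat.pow_le_pow_right hp.pos (by omega)
      obtain ⟨δ', hδ1, hδ2⟩ := hδinv
      obtain ⟨u, hu⟩ := hnt
      apply hu
      rw [← hδ]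
      -- the commutator
      have hcW : ∀ x ∈ W, ρ (u⁻¹ * ζ u) x = x := by
        intro x hx
        have e1 := congrArg (fun Z : Module.End k W => ((Z ⟨δ' x, hδ2 x hx⟩ : W) : M)) (h1 u)
        change ((((γ.restrict hW2) ^ p ^ (m - 1)) ⟨ρ u (δ' x), hW1 u _ (hδ2 x hx)⟩ : W) : M) =
          ρ u ((((γ.restrict hW2) ^ p ^ (m - 1)) ⟨δ' x, hδ2 x hx⟩ : W) : M) at e1
        rw [restrict_pow, restrict_pow, ← hδ] at e1
        change δ (ρ u (δ' x)) = ρ u (δ (δ' x)) at e1
        have e2 := congrArg (fun Z : Module.End k M => Z (δ' x)) (hrel u)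
        change δ (ρ u (δ' x)) = ρ (ζ u) (δ (δ' x)) at e2
        have e3 : δ (δ' x) = x := congrArg (fun Z : Module.End k M => Z x) hδ1
        rw [e2, e3] at e1
        rw [map_mul]
        change ρ u⁻¹ (ρ (ζ u) x) = x
        rw [e1, rho_inv_eq]
      have hcQ : ∀ x : M, ρ (u⁻¹ * ζ u) x - x ∈ W := by
        intro x
        have e1 := congrArg (fun Z : Module.End k (M ⧸ W) => Z (Submodule.Quotient.mk (δ' x)))
          (h2 u)
        change ((W.mapQ W γ hW2) ^ p ^ (m - 1)) (Submodule.Quotient.mk (ρ u (δ' x))) =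
          quoW ρ W hW1 u (((W.mapQ W γ hW2) ^ p ^ (m - 1)) (Submodule.Quotient.mk (δ' x))) at e1
        rw [mapQ_pow, mapQ_pow, ← hδ] at e1
        change (Submodule.Quotient.mk (δ (ρ u (δ' x))) : M ⧸ W) =
          Submodule.Quotient.mk (ρ u (δ (δ' x))) at e1
        have e2 := congrArg (fun Z : Module.End k M => Z (δ' x)) (hrel u)
        change δ (ρ u (δ' x)) = ρ (ζ u) (δ (δ' x)) at e2
        have e3 : δ (δ' x) = x := congrArg (fun Z : Module.End k M => Z x) hδ1
        rw [e2, e3, Submodule.Quotient.eq] at e1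
        have e4 := hW1 u⁻¹ _ e1
        rw [map_sub, rho_inv_eq] at e4
        rw [map_mul]
        exact e4
      have hν : (ρ (u⁻¹ * ζ u) - 1) * (ρ (u⁻¹ * ζ u) - 1) = 0 := by
        ext x
        change ρ (u⁻¹ * ζ u) (ρ (u⁻¹ * ζ u) x - x) - (ρ (u⁻¹ * ζ u) x - x) = 0
        rw [hcW _ (hcQ x), sub_self]
      have h3 := one_add_pow_of_sq hν (q ^ j)
      rw [add_sub_cancel, ← map_pow] at h3
      have h4 : (u⁻¹ * ζ u) ^ q ^ j = 1 := by
        rw [← hcard]
        exact pow_card_eq_one'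
      rw [h4, map_one, left_eq_add] at h3
      have h5 : ((q ^ j : ℕ) : k) ≠ 0 := by
        rw [Ne, CharP.cast_eq_zero_iff k p]
        intro h
        have h6 := Nat.Coprime.eq_one_of_dvd
          (Nat.Coprime.pow_right j ((Nat.coprime_primes hp hq).2 hpq)) h
        exact hp.ne_one h6
      have h6 := (smul_eq_zero.1 h3).resolve_left h5
      have h7 : ρ (u⁻¹ * ζ u) = 1 := sub_eq_zero.1 h6
      have h8 : ρ (ζ u) = ρ u := by
        calc ρ (ζ u) = ρ (u * (u⁻¹ * ζ u)) := by congr 1; group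
          _ = ρ u := by rw [map_mul, h7, mul_one]
      rw [hrel, h8]

/-- the case of a faithful action -/
theorem faithful_case (hp : p.Prime) (hq : q.Prime) (hpq : p ≠ q) (hm : 1 ≤ m)
    (IH : ∀ m', m' < m → 1 ≤ m' → HHPx k p q m') :
    ∀ d : ℕ, ∀ (U : Type) [Group U] [Finite U] (M : Type) [AddCommGroup M] [Module k M]
      [FiniteDimensional k M] (ρ : U →* Module.End k M) (γ : Module.End k M) (σ : MulAut U),
      Nat.card U ≤ d → (∃ j, Nat.card U = q ^ j) → NF p q m σ → (∀ u, γ * ρ u = ρ (σ u) * γ) →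
      (∑ i ∈ Finset.range (p ^ m), γ ^ i = 0) → σ ^ p ^ m = 1 → Function.Injective ρ →
      ∀ u, γ ^ p ^ (m - 1) * ρ u = ρ u * γ ^ p ^ (m - 1) := by
  intro d
  induction d with
  | zero =>
    intro U _ _ M _ _ _ ρ γ σ hd
    have : 0 < Nat.card U := Nat.card_pos
    omega
  | succ d ih =>
    intro U _ _ M _ _ _ ρ γ σ hd hj hnf rel nrm ord hinj
    obtain ⟨j, hj⟩ := hj
    refine min_case k hp hq hpq hm IH U hj σ hnf ord ?_ _ M ρ γ le_rfl rel nrm
    intro U' hU' hne u hu
    obtain ⟨σ', hσ'⟩ := exists_res σ U' hU'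
    have hcard : Nat.card U' < Nat.card U := by
      have h5 : (U' : Set U) ⊂ (⊤ : Subgroup U) :=
        ⟨fun x _ => Subgroup.mem_top x, fun h => hne (eq_top_iff.2 h)⟩
      have h6 := Set.Finite.card_lt_card (Set.toFinite _) h5
      have h7 : Nat.card (⊤ : Subgroup U) = Nat.card U := Subgroup.card_top
      rw [← h7]
      exact h6
    have h1 := ih U' M (ρ.comp U'.subtype) γ σ' (by omega) (by
        have h8 : Nat.card U' ∣ q ^ j := by
          rw [← hj]
          exact Subgroup.card_subgroup_dvd_card U'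
        obtain ⟨i, -, hi⟩ := (Nat.dvd_prime_pow hq).1 h8
        exact ⟨i, hi⟩) (by
        intro μ e1 e2 r e3 e4 w hw
        have e5 := hnf μ e1 e2 r e3 e4 (w : U) (by rw [← hσ', hw])
        exact Subtype.ext e5) (by
        intro w
        have h9 := hσ' 1 w
        rw [pow_one, pow_one] at h9
        change γ * ρ (w : U) = ρ ((σ' w : U') : U) * γ
        rw [h9, rel]) nrm (by
        ext w
        rw [hσ', ord]
        rfl) (by
        intro a b hab
        exact Subtype.ext (hinj hab)) ⟨u, hu⟩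
    change γ ^ p ^ (m - 1) * ρ u = ρ u * γ ^ p ^ (m - 1) at h1
    apply hinj
    have hg : γ ^ p ^ m = 1 := by
      have h := geom_sum_mul γ (p ^ m)
      rw [nrm, zero_mul] at h
      exact (sub_eq_zero.1 h.symm)
    have h2 : ρ ((σ ^ p ^ (m - 1)) u) * γ ^ p ^ (m - 1) = ρ u * γ ^ p ^ (m - 1) := by
      rw [← rel_pow rel, h1]
    have h3 := congrArg (fun Z => Z * γ ^ (p ^ m - p ^ (m - 1))) h2
    have h4 : γ ^ p ^ (m - 1) * γ ^ (p ^ m - p ^ (m - 1)) = 1 := by
      rw [← pow_add, Nat.add_sub_cancel', hg]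
      exact Nat.pow_le_pow_right hp.pos (by omega)
    simpa only [mul_assoc, h4, mul_one] using h3

/-- the theorem of Hall and Higman (theorem B) for modules -/
theorem hhpx (hp : p.Prime) (hq : q.Prime) (hpq : p ≠ q) : ∀ m, 1 ≤ m → HHPx k p q m := by
  intro m
  induction m using Nat.strong_induction_on with
  | h m ih =>
    intro hm U _ _ M _ _ _ ρ γ σ hj hnf rel nrm ord u
    have IH : ∀ m', m' < m → 1 ≤ m' → HHPx k p q m' := fun m' h1 h2 => ih m' h1 h2
    have hker : ρ.ker.map σ.toMonoidHom = ρ.ker := by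
      have hle : ρ.ker.map σ.toMonoidHom ≤ ρ.ker := by
        rintro _ ⟨w, hw, rfl⟩
        have hw' : ρ w = 1 := hw
        change ρ (σ w) = 1
        have hg : γ ^ p ^ m = 1 := by
          have h := geom_sum_mul γ (p ^ m)
          rw [nrm, zero_mul] at h
          exact (sub_eq_zero.1 h.symm)
        have h1 := rel w
        rw [hw', mul_one] at h1
        have h2 := congrArg (fun Z => Z * γ ^ (p ^ m - 1)) h1
        have h3 : γ * γ ^ (p ^ m - 1) = 1 := by
          rw [← pow_succ', Nat.sub_add_cancel (Nat.one_le_pow _ _ hp.pos), hg]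
        simp only [mul_assoc, h3, mul_one] at h2
        exact h2.symm
      exact Subgroup.eq_of_le_of_card_ge hle
        (Subgroup.card_map_of_injective (K := ρ.ker) (f := σ.toMonoidHom) σ.injective).ge
    let σ' : MulAut (U ⧸ ρ.ker) := QuotientGroup.congr ρ.ker ρ.ker σ hker
    have hσ' : ∀ (i : ℕ) (w : U), (σ' ^ i) (w : U ⧸ ρ.ker) = ((σ ^ i) w : U) := by
      intro i
      induction i with
      | zero => intro w; rfl
      | succ i ih =>
        intro w
        rw [pow_succ', pow_succ', MulAut.mul_apply, MulAut.mul_apply, ih]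
        rfl
    let ρ' : U ⧸ ρ.ker →* Module.End k M := QuotientGroup.lift ρ.ker ρ fun x hx => hx
    have hρ' : ∀ w : U, ρ' (w : U ⧸ ρ.ker) = ρ w := fun w => rfl
    have hinj : Function.Injective ρ' := by
      intro a b hab
      obtain ⟨a, rfl⟩ := QuotientGroup.mk_surjective a
      obtain ⟨b, rfl⟩ := QuotientGroup.mk_surjective b
      rw [hρ', hρ'] at hab
      rw [QuotientGroup.eq]
      change ρ (a⁻¹ * b) = 1
      rw [map_mul, ← hab, rho_inv']
    have h1 := faithful_case k hp hq hpq hm IH (Nat.card (U ⧸ ρ.ker))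
      (U ⧸ ρ.ker) M ρ' γ σ' le_rfl (by
        obtain ⟨j, hj⟩ := hj
        have h8 : Nat.card (U ⧸ ρ.ker) ∣ q ^ j := by
          rw [← hj]
          exact Subgroup.card_quotient_dvd_card _
        obtain ⟨i, -, hi⟩ := (Nat.dvd_prime_pow hq).1 h8
        exact ⟨i, hi⟩) (by
        intro μ e1 e2 r e3 e4 w hw
        obtain ⟨w, rfl⟩ := QuotientGroup.mk_surjective w
        rw [hσ'] at hw
        obtain ⟨j, hj⟩ := hj
        have e5 : w⁻¹ * (σ ^ p ^ (m - μ)) w ∈ ρ.ker := QuotientGroup.eq.1 hw.symm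
        have e6 : ∀ i : ℕ, ∀ y ∈ ρ.ker, (σ ^ i) y ∈ ρ.ker := by
          intro i
          induction i with
          | zero => intro y hy; exact hy
          | succ i ih =>
            intro y hy
            rw [pow_succ', MulAut.mul_apply, ← hker]
            exact ⟨_, ih y hy, rfl⟩
        obtain ⟨y, hy, e7⟩ := fix_coset (m := m) hp hq hpq hj (σ ^ p ^ (m - μ)) (by
          rw [← pow_mul, mul_comm, pow_mul, ord, one_pow]) ρ.ker (e6 _) e5
        have e8 := hnf μ e1 e2 r e3 e4 _ e7
        rw [QuotientGroup.eq_one_iff]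
        have e9 : w = (w * y) * y⁻¹ := by group
        rw [e9, e8, one_mul]
        exact inv_mem hy) (by
        intro w
        obtain ⟨w, rfl⟩ := QuotientGroup.mk_surjective w
        exact rel w) nrm (by
        ext w
        obtain ⟨w, rfl⟩ := QuotientGroup.mk_surjective w
        rw [hσ', ord]
        rfl) hinj (u : U ⧸ ρ.ker)
    exact h1


end

end Pool.Agent.N6.HHE
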