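import Mathlib
import Pool.Agent.TH69.OkD
import Pool.Agent.N6.HHE

set_option autoImplicit false

/-!
# The configuration of the theorem of Hall and Higman gives elements of the exceptional orders
-/

namespace Pool.Agent.N6.NoCx

open Pool.Agent.H32BU Pool.Agent.W629 Pool.Agent.TH69.Mtn Pool.Agent.TH69.Od Pool.Agent.TH69.Og
open Pool.Agent.TH69.Oh Pool.Agent.TH69.Ok Pool.Agent.TH69.HH

/-- the configuration without fixed points -/
theorem no_confx {p q α β : ℕ} (hp : p.Prime) (hq : q.Prime) (hpq : p ≠ q) (hα : 1 ≤ α)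
    {F : Type} [Group F] [Finite F] (hF : ∀ x : F, x ^ (p ^ α * q ^ β) = 1) {x : F}
    (hx : x ^ p ^ α = 1) (V L : Subgroup F) (hV : V.Normal) (hL : L.Normal) (_hVL : V ≤ L)
    (hab : ∀ v ∈ V, ∀ w ∈ V, v * w = w * v) (hpow : ∀ v ∈ V, v ^ p = 1)
    (hLQ : ∀ x ∈ L, x ^ q ^ β ∈ V) (hC : ∀ x ∈ L, (∀ v ∈ V, x * v = v * x) → x ∈ V)
    (hnf : ∀ μ, 1 ≤ μ → μ ≤ α → ∀ r, 1 ≤ r → q ^ r = p ^ μ - 1 → ∀ y ∈ L,
      x ^ p ^ (α - μ) * y * (x ^ p ^ (α - μ))⁻¹ * y⁻¹ ∈ V → y ∈ V)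
    {s : F} (hs : s ∈ L) : x ^ p ^ (α - 1) * s * (x ^ p ^ (α - 1))⁻¹ * s⁻¹ ∈ V := by
  classical
  have : Fact p.Prime := ⟨hp⟩
  have : Fact q.Prime := ⟨hq⟩
  let k := AlgebraicClosure (ZMod p)
  have hcop : Nat.Coprime p q := (Nat.coprime_primes hp hq).2 hpq
  let M := Additive V →+ k
  have hfd : FiniteDimensional k M := by
    let f : M →ₗ[k] (Additive V → k) :=
      { toFun := fun φ => φ
        map_add' := fun _ _ => rfl
        map_smul' := fun _ _ => rfl }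
    have : Finite (Additive V) := (inferInstance : Finite V)
    exact Module.Finite.of_injective f DFunLike.coe_injective
  let ρ0 : F →* Module.End k M := dact V k
  have hker : ∀ v ∈ V, ρ0 v = 1 := by
    intro v hv
    refine LinearMap.ext fun φ => AddMonoidHom.ext fun w => ?_
    obtain ⟨w, rfl⟩ := Additive.ofMul.surjective w
    change φ _ = φ _
    congr 1
    apply Additive.toMul.injective
    apply Subtype.ext
    change v⁻¹ * (w : F) * (v⁻¹)⁻¹ = w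
    rw [inv_inv, mul_assoc, ← hab v hv w w.2]
    group
  let ρ1 : F ⧸ V →* Module.End k M := QuotientGroup.lift V ρ0 hker
  have hρ1 : ∀ g : F, ρ1 (g : F ⧸ V) = ρ0 g := fun g => rfl
  let U : Subgroup (F ⧸ V) := L.map (QuotientGroup.mk' V)
  have hUn : U.Normal := Subgroup.Normal.map hL _ (QuotientGroup.mk'_surjective V)
  have hUq : ∀ u ∈ U, u ^ q ^ β = 1 := by
    rintro _ ⟨l, hl, rfl⟩
    have := hLQ l hl
    rw [← QuotientGroup.eq_one_iff, QuotientGroup.mk_pow] at this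
    exact this
  let σ : MulAut U := MulAut.conjNormal (x : F ⧸ V)
  have hσk : ∀ (i : ℕ) (u : U), (((σ ^ i) u : U) : F ⧸ V) =
      (x : F ⧸ V) ^ i * u * ((x : F ⧸ V) ^ i)⁻¹ := by
    intro i u
    have : σ ^ i = MulAut.conjNormal ((x : F ⧸ V) ^ i) := (map_pow _ _ _).symm
    rw [this, MulAut.conjNormal_apply]
  have ord : σ ^ p ^ α = 1 := by
    ext u
    rw [hσk, ← QuotientGroup.mk_pow, hx]
    simp
  obtain ⟨j, hj⟩ : ∃ j, Nat.card U = q ^ j := by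
    have hpg : IsPGroup q U := fun x => ⟨β, Subtype.ext (by
      rw [Subgroup.coe_pow]
      exact hUq x x.2)⟩
    exact (IsPGroup.iff_card).1 hpg
  -- the norm
  have nrm : ∑ i ∈ Finset.range (p ^ α), (ρ0 x) ^ i = 0 := by
    refine LinearMap.ext fun φ => AddMonoidHom.ext fun v => ?_
    obtain ⟨v, rfl⟩ := Additive.ofMul.surjective v
    rw [LinearMap.sum_apply, AddMonoidHom.finsetSum_apply]
    simp only [← map_pow]
    -- partial sums
    have key : ∀ i : ℕ, ∃ w : V, (w : F) = ((v : F) * x⁻¹) ^ i * x ^ i ∧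
        ∑ j ∈ Finset.range i, (ρ0 (x ^ j) φ) (Additive.ofMul v) = φ (Additive.ofMul w) := by
      intro i
      induction i with
      | zero =>
        refine ⟨1, by simp, ?_⟩
        rw [Finset.sum_range_zero, ofMul_one, map_zero]
      | succ i ih =>
        obtain ⟨w, hw, hs⟩ := ih
        refine ⟨w * MulAut.conjNormal (x ^ i)⁻¹ v, ?_, ?_⟩
        · rw [Subgroup.coe_mul, hw, MulAut.conjNormal_apply, pow_succ, pow_succ' x i]
          group
        · rw [Finset.sum_range_succ, hs, ofMul_mul, map_add]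
          rfl
    obtain ⟨w, hw, hs⟩ := key (p ^ α)
    rw [hs]
    have h1 : ((v : F) * x⁻¹) ^ p ^ α = 1 := by
      have h2 : ((v : F) * x⁻¹) ^ p ^ α ∈ V := by
        have h3 : ((v : F) * x⁻¹) ^ p ^ α * x ^ p ^ α ∈ V := by rw [← hw]; exact w.2
        rwa [hx, mul_one] at h3
      have h4 : (((v : F) * x⁻¹) ^ p ^ α) ^ p = 1 := hpow _ h2
      have h5 : (((v : F) * x⁻¹) ^ p ^ α) ^ q ^ β = 1 := by rw [← pow_mul, hF]
      exact W629.eq_one_of_coprime (Nat.Coprime.pow_right _ hcop) h4 h5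
    rw [h1, hx, mul_one] at hw
    have hw1 : w = 1 := Subtype.ext hw
    rw [hw1, ofMul_one, map_zero]
    rfl
  have hNF : HHE.NF p q α σ := by
    intro μ h1 h2 r h3 h4 u hu
    obtain ⟨l, hl, hlu⟩ : ∃ l ∈ L, (l : F ⧸ V) = (u : F ⧸ V) := u.2
    have h5 : (x : F ⧸ V) ^ p ^ (α - μ) * l * ((x : F ⧸ V) ^ p ^ (α - μ))⁻¹ = l := by
      have h6 := congrArg Subtype.val hu
      rw [hσk, ← hlu] at h6
      exact h6
    have h6 : x ^ p ^ (α - μ) * l * (x ^ p ^ (α - μ))⁻¹ * l⁻¹ ∈ V := by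
      rw [← QuotientGroup.eq_one_iff]
      change (x : F ⧸ V) ^ p ^ (α - μ) * l * ((x : F ⧸ V) ^ p ^ (α - μ))⁻¹ * (l : F ⧸ V)⁻¹ = 1
      rw [h5, mul_inv_cancel]
    have h7 := hnf μ h1 h2 r h3 h4 l hl h6
    apply Subtype.ext
    rw [← hlu, (QuotientGroup.eq_one_iff l).2 h7]
    rfl
  have main := HHE.hhpx k hp hq hpq α hα U M (ρ1.comp U.subtype) (ρ0 x) σ ⟨j, hj⟩ hNF (by
    intro u
    change ρ1 (x : F ⧸ V) * ρ1 (u : F ⧸ V) = ρ1 ((σ u : U) : F ⧸ V) * ρ1 (x : F ⧸ V)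
    have h1 := hσk 1 u
    rw [pow_one, pow_one] at h1
    rw [h1, ← map_mul, ← map_mul]
    congr 1
    group) nrm ord ⟨(s : F ⧸ V), ⟨s, hs, rfl⟩⟩
  change ρ0 x ^ p ^ (α - 1) * ρ0 s = ρ0 s * ρ0 x ^ p ^ (α - 1) at main
  obtain ⟨z, hz⟩ : ∃ z, z = x ^ p ^ (α - 1) := ⟨_, rfl⟩
  rw [← map_pow, ← hz, ← map_mul, ← map_mul] at main
  rw [← hz]
  -- the commutator acts trivially
  have h1 : ρ0 ((s * z)⁻¹ * (z * s)) = 1 := by
    rw [map_mul, main, ← map_mul, inv_mul_cancel, map_one]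
  have hcL : (s * z)⁻¹ * (z * s) ∈ L := by
    have e : (s * z)⁻¹ * (z * s) = (z⁻¹ * s⁻¹ * z) * s := by group
    rw [e]
    refine mul_mem ?_ hs
    have := hL.conj_mem s⁻¹ (inv_mem hs) z⁻¹
    rwa [inv_inv] at this
  have h2 : (s * z)⁻¹ * (z * s) ∈ V := by
    refine hC _ hcL fun v hv => ?_
    generalize (s * z)⁻¹ * (z * s) = c at h1 hcL
    have h3 : ∀ φ : Additive V →+ k, φ (Additive.ofMul
        ((MulAut.conjNormal c⁻¹ (⟨v, hv⟩ : V)) * (⟨v, hv⟩ : V)⁻¹)) = 0 := by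
      intro φ
      have h4 := congrArg (fun Z : Module.End k M => (Z φ) (Additive.ofMul (⟨v, hv⟩ : V))) h1
      change φ (Additive.ofMul (MulAut.conjNormal c⁻¹ (⟨v, hv⟩ : V))) =
        φ (Additive.ofMul (⟨v, hv⟩ : V)) at h4
      rw [ofMul_mul, map_add, h4, ofMul_inv, map_neg, add_neg_cancel]
    have h5 := separate V k hp hab hpow _ h3
    rw [mul_inv_eq_one] at h5
    have h6 := congrArg Subtype.val h5
    rw [MulAut.conjNormal_apply] at h6
    change c⁻¹ * v * (c⁻¹)⁻¹ = v at h6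
    rw [inv_inv] at h6
    rw [mul_assoc, inv_mul_eq_iff_eq_mul] at h6
    exact h6.symm
  have h3 := hV.conj_mem _ h2 (s * z)
  have e : s * z * ((s * z)⁻¹ * (z * s)) * (s * z)⁻¹ = z * s * z⁻¹ * s⁻¹ := by group
  rwa [e] at h3


/-- an element of order divisible by `2 ^ μ * q` -/
theorem ord_contra {G : Type} [Group G] {F : Type} [Group F] [Finite F] {q α μ : ℕ} (hq : q.Prime)
    (hq2 : q ≠ 2) (hI : Im G F) (V : Subgroup F) [V.Normal] {x : F} (hx : x ^ 2 ^ α = 1)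
    (hzV : x ^ 2 ^ (α - 1) ∉ V) (h1 : 1 ≤ μ) (h2 : μ ≤ α) {y : F} (hy : ∃ j : ℕ, y ^ q ^ j ∈ V)
    (hxy : x ^ 2 ^ (α - μ) * y * (x ^ 2 ^ (α - μ))⁻¹ * y⁻¹ ∈ V) (hyV : y ∉ V)
    (hord : ∀ g : G, ¬ 2 ^ μ * q ∣ orderOf g) : False := by
  obtain ⟨K, hK, hKs, π, hπ⟩ := hI
  obtain ⟨w, hw⟩ : ∃ w, w = x ^ 2 ^ (α - μ) := ⟨_, rfl⟩
  rw [← hw] at hxy
  have hc : Commute (w : F ⧸ V) (y : F ⧸ V) := by
    have h3 : (w : F ⧸ V) * y * (w : F ⧸ V)⁻¹ * (y : F ⧸ V)⁻¹ = 1 := by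
      rw [← QuotientGroup.eq_one_iff] at hxy
      exact hxy
    rw [mul_inv_eq_one, mul_inv_eq_iff_eq_mul] at h3
    exact h3
  have ho : orderOf (w : F ⧸ V) = 2 ^ μ := by
    obtain ⟨ν, rfl⟩ : ∃ ν, μ = ν + 1 := ⟨μ - 1, by omega⟩
    have : Fact (Nat.Prime 2) := ⟨Nat.prime_two⟩
    refine orderOf_eq_prime_pow ?_ ?_
    · intro h
      apply hzV
      rw [← QuotientGroup.eq_one_iff, ← h, hw, ← QuotientGroup.mk_pow, ← pow_mul, ← pow_add]
      rw [show α - (ν + 1) + ν = α - 1 from by omega]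
    · rw [hw, ← QuotientGroup.mk_pow, ← pow_mul, ← pow_add,
        show α - (ν + 1) + (ν + 1) = α from by omega, hx]
      rfl
  have hoy : ∃ i, orderOf (y : F ⧸ V) = q ^ (i + 1) := by
    obtain ⟨j, hj⟩ := hy
    have h3 : orderOf (y : F ⧸ V) ∣ q ^ j := by
      apply orderOf_dvd_of_pow_eq_one
      rw [← QuotientGroup.mk_pow, QuotientGroup.eq_one_iff]
      exact hj
    obtain ⟨i, -, hi⟩ := (Nat.dvd_prime_pow hq).1 h3
    rcases i with _ | i
    · exfalso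
      apply hyV
      rw [pow_zero, orderOf_eq_one_iff, QuotientGroup.eq_one_iff] at hi
      exact hi
    · exact ⟨i, hi⟩
  obtain ⟨i, hi⟩ := hoy
  have hco : (orderOf (w : F ⧸ V)).Coprime (orderOf (y : F ⧸ V)) := by
    rw [ho, hi]
    exact Nat.Coprime.pow _ _ ((Nat.coprime_primes Nat.prime_two hq).2 hq2.symm)
  have h4 := hc.orderOf_mul_eq_mul_orderOf_of_coprime hco
  obtain ⟨g, hg⟩ := hπ (w * y)
  have h5 : orderOf ((w : F ⧸ V) * (y : F ⧸ V)) ∣ orderOf (w * y) :=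
    orderOf_map_dvd (QuotientGroup.mk' V) (w * y)
  have h6 : orderOf (w * y) ∣ orderOf g := by
    rw [← hg]
    exact orderOf_map_dvd π g
  have h7 : orderOf g = orderOf (g : G) := (Subgroup.orderOf_coe g).symm
  apply hord (g : G)
  rw [← h7]
  refine dvd_trans ?_ (h5.trans h6)
  rw [h4, ho, hi, pow_succ]
  exact Nat.mul_dvd_mul dvd_rfl (dvd_mul_left _ _)

/-- the case without elements of the exceptional orders -/
theorem noC_of_ord {G : Type} [Group G] {α m q : ℕ} (hq : q.Prime) (hq2 : q ≠ 2) (hα : 1 ≤ α)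
    (hpm : ¬ 2 ∣ m) (hord : ∀ μ, 1 ≤ μ → μ ≤ α → ∀ r, 1 ≤ r → q ^ r = 2 ^ μ - 1 →
      ∀ g : G, ¬ 2 ^ μ * q ∣ orderOf g) : NoC G α m q := by
  intro F _ _ hI hF x hx V L hV hVL hab hpow hLq hxL hC s hs
  by_cases hzV : x ^ 2 ^ (α - 1) ∈ V
  · have h1 := hV.conj_mem _ (inv_mem hzV) s
    have h2 := mul_mem hzV h1
    have e : x ^ 2 ^ (α - 1) * (s * (x ^ 2 ^ (α - 1))⁻¹ * s⁻¹) =
        x ^ 2 ^ (α - 1) * s * (x ^ 2 ^ (α - 1))⁻¹ * s⁻¹ := by group
    rwa [e] at h2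
  have hm : m ≠ 0 := by
    rintro rfl
    exact hpm (dvd_zero _)
  have h2q : Nat.Coprime 2 q := (Nat.coprime_primes Nat.prime_two hq).2 hq2.symm
  obtain ⟨β, m', hm', hmm⟩ := Nat.exists_eq_pow_mul_and_not_dvd hm q hq.ne_one
  have hqm' : Nat.Coprime q m' := (Nat.Prime.coprime_iff_not_dvd hq).2 hm'
  have hLQ' : ∀ y ∈ L, y ^ q ^ β ∈ V := by
    intro y hy
    obtain ⟨j, hj⟩ := hLq y hy
    refine pow_mem_of (a := 2 ^ α) hq (Nat.Coprime.pow_right _ h2q.symm) hqm' ?_ hj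
    rw [← hmm]
    exact hF y
  have hxn : x ∈ Subgroup.normalizer (L : Set F) := mem_norm (Nat.pow_pos (by norm_num)) hx hxL
  obtain ⟨F', hF'⟩ : ∃ F', F' = XZs L x hxn := ⟨_, rfl⟩
  have hxF' : x ∈ F' := by
    rw [hF']
    refine ⟨-1, ?_⟩
    rw [zpow_neg_one, mul_inv_cancel]
    exact one_mem _
  have hLF' : L ≤ F' := by
    intro y hy
    rw [hF']
    refine ⟨0, ?_⟩
    rwa [zpow_zero, mul_one]
  have hF'n : F' ≤ Subgroup.normalizer (L : Set F) := by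
    intro y hy
    rw [hF'] at hy
    obtain ⟨j, hj⟩ := hy
    have h1 := mul_mem (Subgroup.le_normalizer hj) (inv_mem (zpow_mem hxn j))
    rwa [mul_inv_cancel_right] at h1
  have hpm'' : Nat.Coprime 2 m' := by
    have hcpm : Nat.Coprime 2 m := (Nat.Prime.coprime_iff_not_dvd Nat.prime_two).2 hpm
    rw [hmm] at hcpm
    exact Nat.Coprime.coprime_mul_left_right hcpm
  have hexp : ∀ y : F', y ^ (2 ^ α * q ^ β) = 1 := by
    rintro ⟨y, hy⟩
    apply Subtype.ext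
    change y ^ (2 ^ α * q ^ β) = 1
    have hy' := hy
    rw [hF'] at hy'
    obtain ⟨j, hj⟩ := hy'
    have h1 := xz_pow hxn hx hj
    have h2 := hpow _ (hLQ' _ h1)
    have h3 : y ^ (2 ^ (α + 1) * q ^ β) = 1 := by
      rw [← h2, ← pow_mul, ← pow_mul]
      congr 1
      ring
    have h4 := orderOf_dvd_of_pow_eq_one h3
    have h5 := orderOf_dvd_of_pow_eq_one (hF y)
    rw [hmm, ← mul_assoc] at h5
    apply orderOf_dvd_iff_pow_eq_one.1
    refine Nat.Coprime.dvd_of_dvd_mul_right ?_ h5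
    refine Nat.Coprime.coprime_dvd_left h4 (Nat.Coprime.mul_left ?_ ?_)
    · exact Nat.Coprime.pow_left _ hpm''
    · exact Nat.Coprime.pow_left _ hqm'
  exact no_confx (p := 2) (q := q) (β := β) Nat.prime_two hq hq2.symm hα (F := F')
    hexp (x := ⟨x, hxF'⟩) (Subtype.ext hx) (V.subgroupOf F') (L.subgroupOf F')
    ⟨fun v hv g => hV.conj_mem v hv g⟩
    ⟨fun v hv g => ((Subgroup.mem_normalizer_iff.1 (hF'n g.2)) v).1 hv⟩
    (fun v hv => hVL hv) (fun v hv w hw => Subtype.ext (hab v hv w hw))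
    (fun v hv => Subtype.ext (hpow v hv)) (fun y hy => hLQ' y hy)
    (fun y hy hyv => hC y hy fun v hv =>
      congrArg Subtype.val (hyv ⟨v, hLF' (hVL hv)⟩ hv))
    (fun μ h1 h2 r h3 h4 y hy h5 => by
      by_contra hyV
      refine ord_contra hq hq2 hI V hx hzV h1 h2 (hLq y hy) h5 hyV (hord μ h1 h2 r h3 h4))
    (s := ⟨s, hLF' hs⟩) hs


end Pool.Agent.N6.NoCx
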