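import Mathlib
import Pool.Agent.TH69.OkD
import Pool.Agent.TH69.OgG

set_option autoImplicit false

/-!
# One generator of prime power order, part A: definitions and the theorem on centralisers
-/

namespace Pool.Agent.N6.Pf

open Pool.Agent.H32BU Pool.Agent.W629 Pool.Agent.TH69.Mtn Pool.Agent.TH69.Od Pool.Agent.TH69.Og
open Pool.Agent.TH69.Oh Pool.Agent.TH69.Ok Pool.Agent.TH69.Pq

universe u v

/-- elements of prime power order -/
def PP {G : Type u} [Group G] (y : G) : Prop := ∃ r k : ℕ, r.Prime ∧ y ^ r ^ k = 1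

theorem PP.of {G : Type u} [Group G] {y : G} {r k : ℕ} (hr : r.Prime) (h : y ^ r ^ k = 1) : PP y :=
  ⟨r, k, hr, h⟩

theorem PP.of1 {G : Type u} [Group G] {y : G} {r : ℕ} (hr : r.Prime) (h : y ^ r = 1) : PP y :=
  ⟨r, 1, hr, by rw [pow_one]; exact h⟩

theorem PP.qp {G : Type u} [Group G] {y : G} {r n : ℕ} (hr : r.Prime) (h : y ^ qp r n = 1) : PP y :=
  ⟨r, n.factorization r, hr, h⟩

theorem PP.conj {G : Type u} [Group G] {y : G} (h : PP y) (g : G) : PP (g * y * g⁻¹) := by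
  obtain ⟨r, k, hr, h⟩ := h
  exact ⟨r, k, hr, conj_pow_one h⟩

theorem PP.pow {G : Type u} [Group G] {y : G} (h : PP y) (i : ℕ) : PP (y ^ i) := by
  obtain ⟨r, k, hr, h⟩ := h
  exact ⟨r, k, hr, by rw [← pow_mul, mul_comm, pow_mul, h, one_pow]⟩

theorem PP.map {G : Type u} {H : Type v} [Group G] [Group H] {y : G} (h : PP y) (f : G →* H) :
    PP (f y) := by
  obtain ⟨r, k, hr, h⟩ := h
  exact ⟨r, k, hr, by rw [← map_pow, h, map_one]⟩

/-- the hypotheses on the group -/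
structure Sf (n : ℕ) (G : Type) [Group G] : Prop where
  hn : n ≠ 0
  exp : ∀ x : G, x ^ n = 1
  fin : ∀ x y : G, PP y → Finite (c2 x y)
  sol : ∀ x y : G, PP y → Group.IsSolvable (c2 x y)

theorem c2_comm {G : Type} [Group G] (x y : G) : c2 x y = c2 y x := by
  unfold c2
  rw [Set.pair_comm]

variable {G : Type} [Group G]

theorem Sf.fin' {n : ℕ} (S : Sf n G) (x y : G) (h : PP x) : Finite (c2 x y) := by
  rw [c2_comm]
  exact S.fin y x h

theorem Sf.sol' {n : ℕ} (S : Sf n G) (x y : G) (h : PP x) : Group.IsSolvable (c2 x y) := by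
  rw [c2_comm]
  exact S.sol y x h

/-- an element all of whose powers of prime power order lie in a subgroup -/
theorem pp_mem (H : Subgroup G) : ∀ n : ℕ, n ≠ 0 → ∀ x : G, x ^ n = 1 →
    (∀ k : ℕ, PP (x ^ k) → x ^ k ∈ H) → x ∈ H := by
  intro n
  induction n using Nat.recOnPosPrimePosCoprime with
  | prime_pow p k hp hk =>
    intro _ x hx h
    have h1 := h 1 (by rw [pow_one]; exact ⟨p, k, hp, hx⟩)
    rwa [pow_one] at h1
  | zero => exact fun h => absurd rfl h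
  | one =>
    intro _ x hx _
    rw [pow_one] at hx
    rw [hx]
    exact one_mem _
  | coprime a b ha hb hab iha ihb =>
    intro _ x hx h
    obtain ⟨i, j, ⟨i', hi'⟩, ⟨j', hj'⟩, hi, hj, hij⟩ := crt hab
    have h1 := hij x hx
    rw [← h1]
    refine mul_mem ?_ ?_
    · refine ihb (by omega) (x ^ i) ?_ fun k hk => ?_
      · rw [hi', ← pow_mul, show a * i' * b = (a * b) * i' from by ring, pow_mul, hx, one_pow]
      · rw [← pow_mul] at hk ⊢
        exact h _ hk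
    · refine iha (by omega) (x ^ j) ?_ fun k hk => ?_
      · rw [hj', ← pow_mul, show b * j' * a = (a * b) * j' from by ring, pow_mul, hx, one_pow]
      · rw [← pow_mul] at hk ⊢
        exact h _ hk

/-- detection of the elements of the radical by `q`-elements -/
theorem det_fin {F : Type} [Group F] [Finite F] {M q β : ℕ} (hM : Nat.Coprime M q)
    (hF : ∀ x : F, x ^ (M * q ^ β) = 1) (hsol : Group.IsSolvable F) {e : F} (he : e ^ M = 1)
    (h : ∀ z : F, z ^ q ^ β = 1 → (e⁻¹ * (z⁻¹ * e * z)) ^ M = 1) : e ∈ Rad M F := by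
  have hMQ : Nat.Coprime M (q ^ β) := Nat.Coprime.pow_right _ hM
  refine Tw.mem_rad_of hMQ hF hsol he fun u hu => ?_
  obtain ⟨w, rfl⟩ := QuotientGroup.mk_surjective u
  obtain ⟨a, -, ⟨a', ha'⟩, -, ha, -, -⟩ := crt hMQ
  have h1 : (w ^ a) ^ q ^ β = 1 := by
    rw [← pow_mul, ha', show M * a' * q ^ β = (M * q ^ β) * a' from by ring, pow_mul, hF, one_pow]
  have h2 : ((w ^ a : F) : F ⧸ Rad M F) = (w : F ⧸ Rad M F) := by
    rw [QuotientGroup.mk_pow]
    exact ha _ (rad_pow hu)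
  rw [← h2] at hu ⊢
  refine (Tw.comm_of_pow (r := q ^ β) (t := M) hMQ.symm hu ?_).symm
  have := Tw.mk_pow_one (N := Rad M F) (h _ h1)
  simpa only [QuotientGroup.mk_mul, QuotientGroup.mk_inv] using this

/-- `O_{q'}` of the centraliser of a `q`-element, elements of prime power order -/
theorem t3p {n M q β : ℕ} (S : Sf n G) (hq : q.Prime) (hM : Nat.Coprime M q)
    (hn : M * q ^ β = n) {g e : G} (hep : PP e)
    (hg : g ^ q ^ β = 1) (he : e ∈ Tw.RK M (Subgroup.centralizer {g})) : e ∈ Rad M G := by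
  have hMQ : Nat.Coprime M (q ^ β) := Nat.Coprime.pow_right _ hM
  have heM := Tw.RK_pow he
  have hge : Commute g e := (Tw.mem_cent.1 (Tw.RK_le he)).symm
  have hexp : ∀ x : G, x ^ (M * q ^ β) = 1 := by rw [hn]; exact S.exp
  -- with `q`-elements
  have key : ∀ z : G, z ^ q ^ β = 1 → (e⁻¹ * (z⁻¹ * e * z)) ^ M = 1 := by
    intro z hz
    have hK := S.fin (g * e) z ⟨q, β, hq, hz⟩
    have hs := S.sol (g * e) z ⟨q, β, hq, hz⟩
    obtain ⟨K, hKd⟩ : ∃ K, K = c2 (g * e) z := ⟨_, rfl⟩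
    have h1 : g * e ∈ K := by rw [hKd]; exact Subgroup.subset_closure (by simp)
    have hzK : z ∈ K := by rw [hKd]; exact Subgroup.subset_closure (by simp)
    rw [← hKd] at hK hs
    obtain ⟨hgK, heK⟩ := mem_of_mul hge.eq hg heM hMQ.symm K h1
    have h2 : (⟨e, heK⟩ : K) ∈ Rad M K := by
      refine t3q_fin hq hM (exp_sub hexp K) hs (g := ⟨g, hgK⟩)
        (Subtype.ext hg) (Subtype.ext (by simpa using heM)) (Subtype.ext hge.eq) ?_
      rintro ⟨x, hx⟩ hxg
      have hxg' : Commute x g := congrArg Subtype.val hxg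
      exact Subtype.ext (by simpa using Tw.cent_comm he hxg')
    have h3 : (⟨e, heK⟩ : K)⁻¹ * ((⟨z, hzK⟩ : K)⁻¹ * ⟨e, heK⟩ * ⟨z, hzK⟩) ∈ Rad M K :=
      mul_mem (inv_mem h2) (Tw.conj_mem_rad' h2 _)
    exact congrArg Subtype.val (rad_pow h3)
  refine ⟨heM, fun t ht => ?_⟩
  have hE := S.fin' e t hep
  have hEs := S.sol' e t hep
  have heE : e ∈ c2 e t := Subgroup.subset_closure (by simp)
  have htE : t ∈ c2 e t := Subgroup.subset_closure (by simp)
  have h1 := det_fin (F := c2 e t) hM (exp_sub hexp _) hEs (e := ⟨e, heE⟩) (Subtype.ext heM)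
    (fun z hz => Subtype.ext (by simpa using key z (congrArg Subtype.val hz)))
  have h2 := rad_mul h1 (z := ⟨t, htE⟩) (Subtype.ext ht)
  exact congrArg Subtype.val h2

/-- `O_{q'}` of the centraliser of a `q`-element -/
theorem t3q {n M q β : ℕ} (S : Sf n G) (hq : q.Prime) (hM : Nat.Coprime M q)
    (hn : M * q ^ β = n) {g e : G}
    (hg : g ^ q ^ β = 1) (he : e ∈ Tw.RK M (Subgroup.centralizer {g})) : e ∈ Rad M G :=
  pp_mem (Rad M G) n S.hn e (S.exp e) fun k hk => t3p S hq hM hn hk hg (pow_mem he k)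

/-- a `q'`-element commuting with `s` which lies in `O_{q'}` of all finite subgroups containing
`s` and `y` -/
theorem t4q {n M q β : ℕ} (S : Sf n G) (hq : q.Prime) (hM : Nat.Coprime M q)
    (hn : M * q ^ β = n) {s y τ : G} (hy : PP y)
    (hs : s ^ q ^ β = 1) (hτ : Commute τ s)
    (hall : ∀ K : Subgroup G, Finite K → Group.IsSolvable K → s ∈ K → y ∈ K → τ ∈ Tw.RK M K) :
    τ ∈ Rad M G := by
  have hMQ : Nat.Coprime M (q ^ β) := Nat.Coprime.pow_right _ hM
  apply t3q S hq hM hn hs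
  refine Tw.mem_RK.2 ⟨Tw.mem_cent.2 hτ, ?_, ?_⟩
  · have := Tw.RK_pow (hall (c2 s y) (S.fin _ _ hy) (S.sol _ _ hy)
      (Subgroup.subset_closure (by simp)) (Subgroup.subset_closure (by simp)))
    exact Subtype.ext (by simpa using this)
  · rintro ⟨z, hz⟩ hzM
    have hzM' : z ^ M = 1 := by simpa using congrArg Subtype.val hzM
    have hzs : Commute s z := (Tw.mem_cent.1 hz).symm
    have h1 : s * z ∈ c2 (s * z) y := Subgroup.subset_closure (by simp)
    have hyK : y ∈ c2 (s * z) y := Subgroup.subset_closure (by simp)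
    obtain ⟨hsK, hzK⟩ := mem_of_mul hzs.eq hs hzM' hMQ.symm _ h1
    have := Tw.RK_mul (hall _ (S.fin _ _ hy) (S.sol _ _ hy) hsK hyK) hzK hzM'
    exact Subtype.ext (by simpa using this)

/-- the centraliser lemma -/
theorem cq {n M q β : ℕ} (S : Sf n G) (hq : q.Prime) (hM : Nat.Coprime M q)
    (hn : M * q ^ β = n) (rM : Rad M G = ⊥) {s y τ : G} (hy : PP y) (hs : SG (q ^ β) M s)
    (hτN : τ ∈ Ncl s y) (hτs : Commute τ s) (hτ : τ ^ M = 1) : τ = 1 := by
  have hMQ : Nat.Coprime M (q ^ β) := Nat.Coprime.pow_right _ hM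
  have h1 : τ ∈ Rad M G := by
    refine t4q S hq hM hn (y := y) hy hs.1 hτs fun K hK hKs hsK hyK => ?_
    have hle : c2 s y ≤ K := c2_le hsK hyK
    obtain ⟨A, B, h2, h3, h4, h5, h6⟩ := hs.2 K hK hKs hsK
    have hτB : τ ∈ B := Ncl_le (fun g hg x hx => h3 g (hle hg) x hx) h6 hτN
    have hτA : τ ∈ A := mem_of_pow hMQ hτ (h5 τ hτB)
    have hτK : τ ∈ K := hle (Ncl_le_c2 s y hτN)
    have hn1 : (A.subgroupOf K).Normal := ⟨fun x hx g => h2 g g.2 x hx⟩
    have h7 := le_rad (G := K) hMQ (by rw [hn]; exact exp_sub S.exp K) (A.subgroupOf K)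
      (fun x hx => Subtype.ext (h4 x hx))
    exact Tw.mem_RK.2 ⟨hτK, h7 hτA⟩
  rwa [rM, Subgroup.mem_bot] at h1

/-- lifting `r`-elements -/
theorem lift_pp {K F : Type} [Group K] [Group F] (π : K →* F) (hπ : Function.Surjective π) {n : ℕ}
    (hn : n ≠ 0) (hK : ∀ x : K, x ^ n = 1) {r k : ℕ} (hr : r.Prime) {h : F} (hh : h ^ r ^ k = 1) :
    ∃ y : K, y ^ qp r n = 1 ∧ π y = h := by
  obtain ⟨m, hm, hmn⟩ := qp_fac hn hr
  obtain ⟨y0, hy0⟩ := hπ h
  obtain ⟨a, -, ⟨a', ha'⟩, -, ha, -, -⟩ := crt (show Nat.Coprime m (qp r n) from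
    (Nat.Coprime.pow_left _ hm).symm)
  refine ⟨y0 ^ a, ?_, ?_⟩
  · rw [ha', ← pow_mul, show m * a' * qp r n = (qp r n * m) * a' from by ring, pow_mul, hmn, hK,
      one_pow]
  · rw [map_pow, hy0]
    apply ha
    apply orderOf_dvd_iff_pow_eq_one.1
    have h1 := orderOf_dvd_of_pow_eq_one hh
    have h2 : orderOf h ∣ qp r n * m := by
      apply orderOf_dvd_of_pow_eq_one
      rw [← hy0, ← map_pow, hmn, hK, map_one]
    exact Nat.Coprime.dvd_of_dvd_mul_right
      (Nat.Coprime.coprime_dvd_left h1 (Nat.Coprime.pow_left _ hm)) h2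

/-- the centraliser lemma in images of finite subgroups -/
theorem cqf {n M q β : ℕ} (S : Sf n G) (hq : q.Prime) (hM : Nat.Coprime M q)
    (hn : M * q ^ β = n) (rM : Rad M G = ⊥) (hS : ∀ s : G, s ^ q ^ β = 1 → SG (q ^ β) M s)
    {F : Type} [Group F] (hI : Im G F) {s h τ : F} (hh : PP h) (hs : s ^ q ^ β = 1)
    (hτN : τ ∈ Ncl s h) (hτs : Commute τ s) (hτ : τ ^ M = 1) : τ = 1 := by
  classical
  have hMQ : Nat.Coprime M (q ^ β) := Nat.Coprime.pow_right _ hM
  obtain ⟨K, hK, hKs, π, hπ⟩ := hI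
  obtain ⟨a, b, ⟨a', ha'⟩, ⟨b', hb'⟩, ha, hb, hab⟩ := crt hMQ
  have hexp : ∀ x : K, x ^ (M * q ^ β) = 1 := by rw [hn]; exact exp_sub S.exp K
  have hpa : ∀ x : K, (x ^ a) ^ q ^ β = 1 := by
    intro x
    rw [← pow_mul, ha', show M * a' * q ^ β = (M * q ^ β) * a' from by ring, pow_mul, hexp,
      one_pow]
  obtain ⟨r, k, hr, hhr⟩ := hh
  obtain ⟨y, hyr, hy⟩ := lift_pp π hπ S.hn (exp_sub S.exp K) hr hhr
  have hyPP : PP (y : G) := PP.qp hr (congrArg Subtype.val hyr)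
  have hex : ∃ d, ∃ s1 : K, s1 ^ q ^ β = 1 ∧ π s1 = s ∧ Nat.card (Ncl s1 y) = d := by
    obtain ⟨s0, hs0⟩ := hπ s
    refine ⟨_, s0 ^ a, hpa s0, ?_, rfl⟩
    rw [map_pow, hs0, ha s hs]
  obtain ⟨s1, hs1, hs1s, hd⟩ := Nat.find_spec hex
  have hmin := fun d (hd : d < Nat.find hex) => Nat.find_min hex hd
  have hmap : (Ncl s1 y).map π = Ncl s h := by rw [map_Ncl, hs1s, hy]
  have hst : s * τ ∈ (Ncl s1 y).map π := by
    rw [hmap]
    exact mul_mem (self_mem_Ncl s h) hτN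
  obtain ⟨g, hg, hgst⟩ := hst
  -- the lifts
  obtain ⟨s', hs'⟩ : ∃ s', s' = g ^ a := ⟨_, rfl⟩
  obtain ⟨t', ht'⟩ : ∃ t', t' = g ^ b := ⟨_, rfl⟩
  have hs'3 : s' ^ q ^ β = 1 := by
    rw [hs']
    exact hpa g
  have ht'M : t' ^ M = 1 := by
    rw [ht', hb', ← pow_mul, show q ^ β * b' * M = (M * q ^ β) * b' from by ring, pow_mul, hexp,
      one_pow]
  have hπs' : π s' = s := by
    rw [hs', map_pow, hgst, hτs.symm.mul_pow, ha s hs, ha', pow_mul, hτ, one_pow, mul_one]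
  have hπt' : π t' = τ := by
    rw [ht', map_pow, hgst, hτs.symm.mul_pow, hb τ hτ, hb', pow_mul, hs, one_pow, one_mul]
  have hts' : Commute t' s' := by
    rw [hs', ht']
    exact (Commute.refl g).pow_pow b a
  have hs'N : s' ∈ Ncl s1 y := by
    rw [hs']
    exact pow_mem hg a
  have ht'N : t' ∈ Ncl s1 y := by
    rw [ht']
    exact pow_mem hg b
  have hle : Ncl s' y ≤ Ncl s1 y := Ncl_mono hs'N
  have heq : Ncl s' y = Ncl s1 y := by
    refine Subgroup.eq_of_le_of_card_ge hle ?_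
    by_contra hlt
    push Not at hlt
    rw [hd] at hlt
    exact hmin _ hlt ⟨s', hs'3, hπs', rfl⟩
  rw [← heq] at ht'N
  have h1 : ((t' : K) : G) ∈ Ncl ((s' : K) : G) (y : G) := by
    have h2 := map_Ncl K.subtype s' y
    change K.subtype t' ∈ Ncl (K.subtype s') (K.subtype y)
    rw [← h2]
    exact ⟨t', ht'N, rfl⟩
  have h2 := cq S hq hM hn rM hyPP (hS s' (congrArg Subtype.val hs'3)) h1
    (congrArg Subtype.val hts'.eq) (congrArg Subtype.val ht'M)
  have h3 : t' = 1 := Subtype.ext h2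
  rw [← hπt', h3, map_one]

end Pool.Agent.N6.Pf
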