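import Mathlib
import Pool.Agent.N6.PfA

set_option autoImplicit false

/-!
# One generator of prime power order, part B: minimal subgroups
-/

namespace Pool.Agent.N6.Pf

open Pool.Agent.H32BU Pool.Agent.W629 Pool.Agent.TH69.Mtn Pool.Agent.TH69.Od Pool.Agent.TH69.Og
open Pool.Agent.TH69.Oh Pool.Agent.TH69.Ok

variable {G : Type} [Group G]

/-- powers of elements of maximal order -/
theorem ss_of_maxF {n p α m : ℕ} (S : Sf n G) (hp : p.Prime) (hpm : ¬ p ∣ m)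
    (hn : p ^ α * m = n) (hα : 1 ≤ α)
    (hex : ∀ q : ℕ, q.Prime → q ∣ m → ∀ μ, 1 ≤ μ → μ ≤ α → ∀ r, 1 ≤ r → q ^ r ≠ p ^ μ - 1)
    {x : G} (hx : x ^ p ^ α = 1) : SG (p ^ α) m (x ^ p ^ (α - 1)) := by
  have hm : m ≠ 0 := by
    rintro rfl
    exact S.hn (by rw [← hn, mul_zero])
  have hpm' : Nat.Coprime p m := (Nat.Prime.coprime_iff_not_dvd hp).2 hpm
  have hexp : ∀ x : G, x ^ (p ^ α * m) = 1 := by rw [hn]; exact S.exp
  have hz : (x ^ p ^ (α - 1)) ^ p ^ α = 1 := by rw [← pow_mul, mul_comm, pow_mul, hx, one_pow]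
  refine ⟨hz, fun E hE hEs hzE => ?_⟩
  obtain ⟨z, hzx⟩ : ∃ z, z = x ^ p ^ (α - 1) := ⟨_, rfl⟩
  rw [← hzx] at hz hzE ⊢
  have key : ∀ f : G, TT (p ^ α) m (c2 z f) z := by
    intro f
    have hfin := S.fin' x f (PP.of hp hx)
    have hxm : x ∈ c2 x f := Subgroup.subset_closure (by simp)
    have hfm : f ∈ c2 x f := Subgroup.subset_closure (by simp)
    have h1 := hhBG hp hpm hm hα hex (exp_sub hexp (c2 x f)) (S.sol' x f (PP.of hp hx)) (x := ⟨x, hxm⟩)
      (Subtype.ext hx)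
    have h2 := h1.map (c2 x f).subtype
    rw [← MonoidHom.range_eq_map, Subgroup.range_subtype] at h2
    have h3 : (c2 x f).subtype ((⟨x, hxm⟩ : c2 x f) ^ p ^ (α - 1)) = z := by
      rw [hzx]
      rfl
    rw [h3] at h2
    refine h2.mono ?_
    unfold c2
    rw [Subgroup.closure_le]
    rintro y (rfl | hy)
    · rw [hzx]
      exact pow_mem hxm _
    · rw [Set.mem_singleton_iff.1 hy]
      exact hfm
  have h4 := bsG hp hpm' (exp_sub hexp E) hEs (z := ⟨z, hzE⟩) (Subtype.ext hz) (by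
    intro f
    refine TT.comap E.subtype E.subtype_injective ?_
    have h5 : (c2 (⟨z, hzE⟩ : E) f).map E.subtype = c2 z (f : G) := by
      unfold c2
      rw [MonoidHom.map_closure, Set.image_pair]
      rfl
    rw [h5]
    exact key f)
  have h5 := h4.map E.subtype
  rw [← MonoidHom.range_eq_map, Subgroup.range_subtype] at h5
  exact h5

theorem nice_existsF {n P Q : ℕ} (S : Sf n G) (hab : Nat.Coprime P Q) (hn : P * Q = n)
    (rp : Rad P G = ⊥) {e : G} (hep : PP e) (he : e ^ P = 1) (he1 : e ≠ 1) : ∃ g, Nice P e g := by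
  classical
  have hexp : ∀ x : G, x ^ (P * Q) = 1 := by rw [hn]; exact S.exp
  -- subgroups with `e` outside the radical
  have step : ∀ K : Subgroup G, Finite K → Group.IsSolvable K → e ∈ K →
      (∃ t ∈ K, t ^ P = 1 ∧ (e * t) ^ P ≠ 1) →
      ∃ k ∈ K, ¬ ∀ x ∈ c2 e (k * e * k⁻¹), x ^ P = 1 := by
    rintro K hK hKs heK ⟨t, htK, ht, het⟩
    by_contra hcon
    push Not at hcon
    have h1 := bsfG hab (exp_sub hexp K) hKs (e := ⟨e, heK⟩) (Subtype.ext he) (by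
      intro k x hx
      apply Subtype.ext
      rw [Subgroup.coe_pow, Subgroup.coe_one]
      refine hcon k k.2 x ?_
      have h2 : (c2 (⟨e, heK⟩ : K) (k * ⟨e, heK⟩ * k⁻¹)).map K.subtype =
          c2 e ((k : G) * e * (k : G)⁻¹) := by
        unfold c2
        rw [MonoidHom.map_closure, Set.image_pair]
        rfl
      rw [← h2]
      exact ⟨x, hx, rfl⟩)
    have h2 := rad_mul h1 (z := ⟨t, htK⟩) (Subtype.ext ht)
    exact het (congrArg Subtype.val h2)
  obtain ⟨t, ht, het⟩ : ∃ t : G, t ^ P = 1 ∧ (e * t) ^ P ≠ 1 := by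
    by_contra hcon
    push Not at hcon
    have h1 : e ∈ Rad P G := ⟨he, hcon⟩
    rw [rp] at h1
    exact he1 h1
  have hex : ∃ d, ∃ g : G, (¬ ∀ x ∈ c2 e (g * e * g⁻¹), x ^ P = 1) ∧
      Nat.card (c2 e (g * e * g⁻¹)) = d := by
    obtain ⟨k, -, hk⟩ := step (c2 e t) (S.fin' e t hep) (S.sol' e t hep) (Subgroup.subset_closure (by simp))
      ⟨t, Subgroup.subset_closure (by simp), ht, het⟩
    exact ⟨_, k, hk, rfl⟩
  obtain ⟨g, hg, hgd⟩ := Nat.find_spec hex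
  have hmin := fun d (hd : d < Nat.find hex) => Nat.find_min hex hd
  have hfin := S.fin' e (g * e * g⁻¹) hep
  have hsol := S.sol' e (g * e * g⁻¹) hep
  have heK : e ∈ c2 e (g * e * g⁻¹) := Subgroup.subset_closure (by simp)
  have hgK : g * e * g⁻¹ ∈ c2 e (g * e * g⁻¹) := Subgroup.subset_closure (by simp)
  have h1 : ∃ t ∈ c2 e (g * e * g⁻¹), t ^ P = 1 ∧ (e * t) ^ P ≠ 1 := by
    by_contra hcon
    push Not at hcon
    -- `e` is in the radical of `K`
    let e' : c2 e (g * e * g⁻¹) := ⟨e, heK⟩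
    let y' : c2 e (g * e * g⁻¹) := ⟨g * e * g⁻¹, hgK⟩
    have h2 : e' ∈ Rad P (c2 e (g * e * g⁻¹)) :=
      ⟨Subtype.ext he, fun z hz => Subtype.ext (hcon z z.2 (congrArg Subtype.val hz))⟩
    apply hg
    intro x hx
    have h3 : (⊤ : Subgroup (c2 e (g * e * g⁻¹))) ≤
        (Subgroup.zpowers ((y' : c2 e (g * e * g⁻¹)) : c2 e (g * e * g⁻¹) ⧸
          Rad P (c2 e (g * e * g⁻¹)))).comap (QuotientGroup.mk' _) := by
      have h4 : (⊤ : Subgroup (c2 e (g * e * g⁻¹))) = Subgroup.closure {e', y'} := by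
        apply Subgroup.map_injective (c2 e (g * e * g⁻¹)).subtype_injective
        rw [← MonoidHom.range_eq_map, Subgroup.range_subtype, MonoidHom.map_closure,
          Set.image_pair]
        rfl
      rw [h4, Subgroup.closure_le]
      rintro a (rfl | ha)
      · rw [SetLike.mem_coe, Subgroup.mem_comap, QuotientGroup.mk'_apply,
          (QuotientGroup.eq_one_iff e').2 h2]
        exact one_mem _
      · rw [Set.mem_singleton_iff.1 ha]
        exact Subgroup.mem_zpowers _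
    have h5 := h3 (Subgroup.mem_top (⟨x, hx⟩ : c2 e (g * e * g⁻¹)))
    obtain ⟨i, hi⟩ := Subgroup.mem_zpowers_iff.1 h5
    have hy : y' ^ P = 1 := Subtype.ext (conj_pow_one he)
    have h6 : (((⟨x, hx⟩ : c2 e (g * e * g⁻¹)) : c2 e (g * e * g⁻¹) ⧸
        Rad P (c2 e (g * e * g⁻¹)))) ^ P = 1 := by
      change (QuotientGroup.mk' _ _) ^ P = 1
      rw [← hi, ← zpow_natCast, ← zpow_mul, mul_comm, zpow_mul, zpow_natCast,
        ← QuotientGroup.mk_pow, hy]
      exact one_zpow i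
    have h7 := pow_of_mk hab (exp_sub hexp _) _ (fun x hx => rad_pow hx) h6
    exact congrArg Subtype.val h7
  obtain ⟨k, hkK, hk⟩ := step _ hfin hsol heK h1
  have hle : c2 e (k * e * k⁻¹) ≤ c2 e (g * e * g⁻¹) :=
    c2_le heK (mul_mem (mul_mem hkK heK) (inv_mem hkK))
  have heq : c2 e (k * e * k⁻¹) = c2 e (g * e * g⁻¹) := by
    refine Subgroup.eq_of_le_of_card_ge hle ?_
    by_contra hlt
    push Not at hlt
    rw [hgd] at hlt
    exact hmin _ hlt ⟨k, hk, rfl⟩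
  exact ⟨k, by rw [heq]; exact hkK, hk⟩

/-- the hypotheses for the prime `q` -/
structure Qr (n q β M : ℕ) (G : Type) [Group G] : Prop where
  S : Sf n G
  hq : q.Prime
  hM : Nat.Coprime M q
  hn : M * q ^ β = n
  rad : Rad M G = ⊥

theorem Qr.cop {n q β M : ℕ} (S : Qr n q β M G) : Nat.Coprime (q ^ β) M :=
  (Nat.Coprime.pow_right _ S.hM).symm

theorem Qr.pos {n q β M : ℕ} (S : Qr n q β M G) : 0 < q ^ β := Nat.pow_pos S.hq.pos

theorem Qr.nice {n q β M : ℕ} (S : Qr n q β M G) {e : G} (hep : PP e) (he : e ^ M = 1)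
    (he1 : e ≠ 1) : ∃ g, Nice M e g :=
  nice_existsF S.S S.cop.symm S.hn S.rad hep he he1

theorem arr_pp {n s : ℕ} (hsp : s.Prime) {w : G} {U : Subgroup G} (A : Arr n s w U)
    {u : G} (hu : u ∈ U) : PP u := PP.qp hsp (A.pow u hu)

/-- no nontrivial element of a minimal subgroup commutes with `w` -/
theorem c1F {n q β M s : ℕ} (S : Qr n q β M G) (hsp : s.Prime) (hs : qp s n ∣ M) {w : G}
    (hw : SG (q ^ β) M w)
    {U : Subgroup G} (A : Arr n s w U) {e : G} (he : e ∈ U) (he1 : e ≠ 1) (hew : e * w = w * e) :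
    False := by
  obtain ⟨u, hu, huw⟩ := A.nc
  have h1 : e ∈ Rad M G := by
    refine t4q S.S S.hq S.hM S.hn (y := u) (arr_pp hsp A hu) hw.1 hew fun K hK hKs hwK huK => ?_
    have hUK := A.gen _ hwK hu huK huw
    obtain ⟨B, h1, h2, h3⟩ := in_AG S.cop hs hw A hK hKs hwK hUK
    have hn1 : (B.subgroupOf K).Normal := ⟨fun x hx g => h1 g g.2 x hx⟩
    have h7 := le_rad (G := K) S.cop.symm (by rw [S.hn]; exact exp_sub S.S.exp K)
      (B.subgroupOf K) (fun x hx => Subtype.ext (h2 x hx))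
    exact Tw.mem_RK.2 ⟨hUK he, h7 (h3 he)⟩
  rw [S.rad, Subgroup.mem_bot] at h1
  exact he1 h1

/-- structure of the minimal subgroups -/
theorem arr_structF {n q β M s : ℕ} (S : Qr n q β M G) (hsp : s.Prime)
    (hs : qp s n ∣ M) {w : G} (hw : SG (q ^ β) M w) {U : Subgroup G}
    (A : Arr n s w U) : (∀ u ∈ U, ∀ v ∈ U, u * v = v * u) ∧ (∀ u ∈ U, u ^ s = 1) ∧
      (∀ u ∈ U, u ≠ 1 → w * u ≠ u * w) ∧
      (∀ V : Subgroup G, V ≤ U → (∀ u ∈ V, w * u * w⁻¹ ∈ V) → V ≠ ⊥ → V = U) := by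
  have hUfin := A.fin
  have hUP : ∀ u ∈ U, u ^ qp s n = 1 := A.pow
  have hUne : (⊤ : Subgroup U) ≠ ⊥ := by
    intro h
    obtain ⟨u, hu, huw⟩ := A.nc
    have h1 : (⟨u, hu⟩ : U) ∈ (⊤ : Subgroup U) := Subgroup.mem_top _
    rw [h, Subgroup.mem_bot] at h1
    have h2 : u = 1 := congrArg Subtype.val h1
    rw [h2, mul_one, one_mul] at huw
    exact huw rfl
  -- the subgroup `Ω_1(Z(U))`
  let V : Subgroup G :=
    { carrier := {v | v ∈ U ∧ (∀ r ∈ U, v * r = r * v) ∧ v ^ s = 1}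
      one_mem' := ⟨one_mem _, fun r _ => by rw [mul_one, one_mul], one_pow _⟩
      mul_mem' := by
        rintro a b ⟨ha, ha2, ha3⟩ ⟨hb, hb2, hb3⟩
        refine ⟨mul_mem ha hb, fun r hr => ?_, ?_⟩
        · rw [mul_assoc, hb2 r hr, ← mul_assoc, ha2 r hr, mul_assoc]
        · have : Commute a b := ha2 b hb
          rw [this.mul_pow, ha3, hb3, one_mul]
      inv_mem' := by
        rintro a ⟨ha, ha2, ha3⟩
        refine ⟨inv_mem ha, fun r hr => ?_, by rw [inv_pow, ha3, inv_one]⟩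
        have h1 := ha2 r hr
        rw [inv_mul_eq_iff_eq_mul, ← mul_assoc, h1]
        group }
  have hwinv := inv_conj S.pos hw.1 A.inv
  have hVinv : ∀ v ∈ V, w * v * w⁻¹ ∈ V := by
    rintro v ⟨h1, h2, h3⟩
    refine ⟨A.inv v h1, fun r hr => ?_, conj_pow_one h3⟩
    have h5 := h2 _ (hwinv r hr)
    calc w * v * w⁻¹ * r = w * (v * (w⁻¹ * r * w)) * w⁻¹ := by group
      _ = w * ((w⁻¹ * r * w) * v) * w⁻¹ := by rw [h5]
      _ = r * (w * v * w⁻¹) := by group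
  obtain ⟨V', -, hV'1, -, hV'2, hV'3⟩ := exists_omega (α := n.factorization s) hsp
    (⊤ : Subgroup U) inferInstance hUne fun x _ => Subtype.ext (hUP x x.2)
  have hVne : ∃ e ∈ V, e ≠ 1 := by
    obtain ⟨e, he1⟩ := (Subgroup.ne_bot_iff_exists_ne_one).1 hV'1
    refine ⟨((e : U) : G), ⟨(e : U).2, fun r hr => ?_, ?_⟩, fun h => he1 ?_⟩
    · exact congrArg Subtype.val (hV'2 e e.2 ⟨r, hr⟩ (Subgroup.mem_top _))
    · exact congrArg Subtype.val (hV'3 e e.2)
    · exact Subtype.ext (Subtype.ext h)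
  have hVU : V = U := by
    apply A.min V (fun v hv => hv.1) hVinv
    by_contra hcon
    push Not at hcon
    obtain ⟨e, he, he1⟩ := hVne
    exact c1F S hsp hs hw A he.1 he1 (hcon e he).symm
  have hab : ∀ u ∈ U, ∀ v ∈ U, u * v = v * u := by
    intro u hu v hv
    have : u ∈ V := by rw [hVU]; exact hu
    exact this.2.1 v hv
  have hpow : ∀ u ∈ U, u ^ s = 1 := by
    intro u hu
    have : u ∈ V := by rw [hVU]; exact hu
    exact this.2.2
  have hfpf : ∀ u ∈ U, u ≠ 1 → w * u ≠ u * w := by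
    intro u hu hu1 h
    exact c1F S hsp hs hw A hu hu1 h.symm
  refine ⟨hab, hpow, hfpf, fun W hW hWinv hW1 => ?_⟩
  apply A.min W hW hWinv
  obtain ⟨e, he⟩ := (Subgroup.ne_bot_iff_exists_ne_one).1 hW1
  exact ⟨e, e.2, hfpf e (hW e.2) fun h => he (Subtype.ext h)⟩

/-- no eigenvectors -/
theorem no_eigF {n q β M s : ℕ} (S : Qr n q β M G) (hsp : s.Prime)
    (hs : qp s n ∣ M) {w : G} (hw : SG (q ^ β) M w) {U : Subgroup G}
    (A : Arr n s w U) {v : G} (hv : v ∈ U) (hv1 : v ≠ 1) {l : ℕ} (hl : w * v * w⁻¹ = v ^ l) :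
    False := by
  obtain ⟨h1, h2, h3, h4⟩ := arr_structF S hsp hs hw A
  have hvp := h2 v hv
  have hvP : v ^ M = 1 := arr_powM hs A hv
  obtain ⟨g, hg⟩ := S.nice (arr_pp hsp A hv) hvP hv1
  obtain ⟨m, hm⟩ : ∃ m : ℕ, (w * v * w⁻¹) ^ m = v := by
    rw [hl]
    apply pow_gen hsp hvp
    intro h
    rw [h, mul_inv_eq_one] at hl
    apply hv1
    exact (left_eq_mul.1 hl.symm)
  obtain ⟨m1, m2, m3, m4, m5⟩ := gens S.cop.symm (x := v) (k := 1) (g := g) (c := w) hvP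
    (one_pow _) (by rw [mul_one, one_mul]) ⟨m, hm⟩ hg.1
  have hv1p : PP (v * 1) := by
    rw [mul_one]
    exact arr_pp hsp A hv
  obtain ⟨B, h5, h6, h7⟩ := (hw.2 _ (S.S.fin' _ _ hv1p) (S.S.sol' _ _ hv1p) m4).comm_mem S.cop
  have h8 : w * v * w⁻¹ * v⁻¹ ∈ B := by
    apply h7 v m1
    exact arr_powM hs A (U.mul_mem (A.inv v hv) (U.inv_mem hv))
  have h9 : w * v * w⁻¹ * v⁻¹ = v ^ (l + (s - 1)) := by
    rw [hl, pow_add]
    congr 1
    rw [inv_eq_iff_mul_eq_one, ← pow_succ', Nat.sub_add_cancel hsp.one_lt.le, hvp]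
  have h10 : v ^ (l + (s - 1)) ≠ 1 := by
    rw [← h9]
    intro h
    rw [mul_inv_eq_one, mul_inv_eq_iff_eq_mul] at h
    exact h3 v hv hv1 h
  obtain ⟨m', hm'⟩ := pow_gen hsp hvp h10
  have h11 : v ∈ B := by
    rw [← hm', ← h9]
    exact pow_mem h8 m'
  exact nice_false hg h6 (h5 g m3) h11

/-- no minimal `s`-subgroups if `q ∣ s - 1` -/
theorem no_arrF {n q β M s : ℕ} (S : Qr n q β M G) (hsp : s.Prime)
    (hs : qp s n ∣ M) (hqs : q ∣ s - 1) {w : G} (hw : SG (q ^ β) M w) (hwq : w ^ q = 1)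
    {U : Subgroup G} (A : Arr n s w U) : False := by
  have := A.fin
  obtain ⟨h1, h2, h3, h4⟩ := arr_structF S hsp hs hw A
  have hU : ∃ u ∈ U, u ≠ 1 := by
    obtain ⟨u, hu, huw⟩ := A.nc
    refine ⟨u, hu, ?_⟩
    rintro rfl
    rw [mul_one, one_mul] at huw
    exact huw rfl
  obtain ⟨v, hv, hv1, l, hl⟩ := eig hsp hqs U h1 h2 hwq A.inv hU
  exact no_eigF S hsp hs hw A hv hv1 hl

end Pool.Agent.N6.Pf
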