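import Mathlib
import Pool.Agent.N6.PfC

set_option autoImplicit false

/-!
# One generator of prime power order, part D: the prime three
-/

namespace Pool.Agent.N6.Pf

open Pool.Agent.H32BU Pool.Agent.W629 Pool.Agent.TH69.Mtn Pool.Agent.TH69.Od Pool.Agent.TH69.Og
open Pool.Agent.TH69.Oh Pool.Agent.TH69.Ok

/-- commutators centralise the elements commuting with `s`, up to `3`-elements -/
theorem ptF {G : Type} [Group G] {n M : ℕ} (S : Sf n G) (hM : Nat.Coprime M 3) (hn : M * 3 = n) (rM : Rad M G = ⊥)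
    {s s2 y c t : G} (hyp : PP y) (hs : s ^ 3 = 1) (hs2 : s2 ^ 3 = 1)
    (hss : (s * s2) ^ 3 = 1) (hc : s2⁻¹ * s * s2 = s * c) (hcs : Commute c s)
    (hts : Commute t s) (hs2y : s2 ∈ c2 s y) (hty : t ∈ c2 s y) :
    (t * c * t⁻¹ * c⁻¹) ^ 3 = 1 := by
  have hexp : ∀ x : G, x ^ (M * 3) = 1 := by rw [hn]; exact S.exp
  obtain ⟨a, b, ⟨a', ha'⟩, ⟨b', hb'⟩, ha, hb, hab⟩ := crt hM
  obtain ⟨x, hx⟩ : ∃ x, x = t * c * t⁻¹ * c⁻¹ := ⟨_, rfl⟩
  obtain ⟨τ, hτ⟩ : ∃ τ, τ = x ^ b := ⟨_, rfl⟩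
  have hτM : τ ^ M = 1 := by
    rw [hτ, hb', ← pow_mul, show 3 * b' * M = (M * 3) * b' from by ring, pow_mul, hexp, one_pow]
  have hτs0 : Commute s (t * c * t⁻¹ * c⁻¹) :=
    ((hts.symm.mul_right hcs.symm).mul_right hts.symm.inv_right).mul_right hcs.symm.inv_right
  have hτs : Commute τ s := by
    rw [hτ, hx]
    exact (hτs0.pow_right b).symm
  have h1 : τ ∈ Rad M G := by
    refine t4q (β := 1) S Nat.prime_three hM (by rw [pow_one]; exact hn) (y := y) hyp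
      (by rw [pow_one]; exact hs) hτs fun K hK hKs hsK hyK => ?_
    have hle : c2 s y ≤ K := c2_le hsK hyK
    have hs2K := hle hs2y
    have htK := hle hty
    have hcK : c ∈ K := by
      have e : c = s⁻¹ * (s2⁻¹ * s * s2) := by rw [hc]; group
      rw [e]
      exact mul_mem (inv_mem hsK) (mul_mem (mul_mem (inv_mem hs2K) hsK) hs2K)
    have hxK : x ∈ K := by
      rw [hx]
      exact mul_mem (mul_mem (mul_mem htK hcK) (inv_mem htK)) (inv_mem hcK)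
    have hτK : τ ∈ K := by
      rw [hτ]
      exact pow_mem hxK b
    refine Tw.mem_RK.2 ⟨hτK, ?_⟩
    refine pt_core hM (by rw [hn]; exact exp_sub S.exp K) hKs (s := ⟨s, hsK⟩) (s2 := ⟨s2, hs2K⟩)
      (c := ⟨c, hcK⟩) (t := ⟨t, htK⟩) (k := b) (Subtype.ext hs) (Subtype.ext hs2) (Subtype.ext hss)
      (Subtype.ext hc) (Subtype.ext hcs) (Subtype.ext hts) ?_ (Subtype.ext hτM)
    apply Subtype.ext
    change τ = (t * c * t⁻¹ * c⁻¹) ^ b
    rw [hτ, hx]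
  rw [rM, Subgroup.mem_bot] at h1
  rw [← hx]
  have h2 := hab x (hexp x)
  rw [← hτ, h1, mul_one] at h2
  rw [← h2, ← pow_mul, ha', show M * a' * 3 = (M * 3) * a' from by ring, pow_mul, hexp, one_pow]

/-- commutators centralise the elements commuting with `s`, up to `3`-elements, in images -/
theorem ptfF {G : Type} [Group G] {n M : ℕ} (S : Sf n G) (hM : Nat.Coprime M 3) (hn : M * 3 = n)
    (rM : Rad M G = ⊥) {F : Type} [Group F] (hI : Im G F) {s h s2 t c : F} (hh : PP h) (hs : s ^ 3 = 1)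
    (D : Subgroup F) (hD : ∀ d ∈ D, d ^ 3 = 1) (hsD : s ∈ D) (hs2D : s2 ∈ D) (hs2 : s2 ∈ c2 s h)
    (ht : t ∈ c2 s h) (htM : t ^ M = 1) (hts : Commute t s) (hc : c = s⁻¹ * (s2⁻¹ * s * s2)) :
    (t * c * t⁻¹ * c⁻¹) ^ 3 = 1 := by
  classical
  obtain ⟨K, hK, hKs, π, hπ⟩ := hI
  obtain ⟨a, b, ⟨a', ha'⟩, ⟨b', hb'⟩, ha, hb, hab⟩ := crt hM
  have hexp : ∀ x : K, x ^ (M * 3) = 1 := by rw [hn]; exact exp_sub S.exp K
  obtain ⟨r, k, hr, hhr⟩ := hh
  obtain ⟨y, hyr, hy⟩ := lift_pp π hπ S.hn (exp_sub S.exp K) hr hhr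
  have hyPP : PP (y : G) := PP.qp hr (congrArg Subtype.val hyr)
  have hex : ∃ d, ∃ s1 : K, s1 ^ 3 = 1 ∧ π s1 = s ∧ Nat.card (c2 s1 y) = d := by
    obtain ⟨s0, hs0⟩ := hπ s
    refine ⟨_, s0 ^ a, ?_, ?_, rfl⟩
    · rw [← pow_mul, ha', show M * a' * 3 = (M * 3) * a' from by ring, pow_mul, hexp, one_pow]
    · rw [map_pow, hs0, ha s hs]
  obtain ⟨s1, hs1, hs1s, hd⟩ := Nat.find_spec hex
  have hmin := fun d (hd : d < Nat.find hex) => Nat.find_min hex hd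
  have hmap : (c2 s1 y).map π = c2 s h := by rw [map_c2', hs1s, hy]
  have hst : s * t ∈ (c2 s1 y).map π := by
    rw [hmap]
    exact mul_mem (Subgroup.subset_closure (by simp)) ht
  obtain ⟨g, hg, hgst⟩ := hst
  -- the lifts
  obtain ⟨s', hs'⟩ : ∃ s', s' = g ^ a := ⟨_, rfl⟩
  obtain ⟨t', ht'⟩ : ∃ t', t' = g ^ b := ⟨_, rfl⟩
  have hs'3 : s' ^ 3 = 1 := by
    rw [hs', ← pow_mul, ha', show M * a' * 3 = (M * 3) * a' from by ring, pow_mul, hexp, one_pow]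
  have hπs' : π s' = s := by
    rw [hs', map_pow, hgst, hts.symm.mul_pow, ha s hs, ha', pow_mul, htM, one_pow, mul_one]
  have hπt' : π t' = t := by
    rw [ht', map_pow, hgst, hts.symm.mul_pow, hb t htM, hb', pow_mul, hs, one_pow, one_mul]
  have hts' : Commute t' s' := by
    rw [hs', ht']
    exact (Commute.refl g).pow_pow b a
  have hs'H : s' ∈ c2 s1 y := by
    rw [hs']
    exact pow_mem hg a
  have ht'H : t' ∈ c2 s1 y := by
    rw [ht']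
    exact pow_mem hg b
  have hle : c2 s' y ≤ c2 s1 y := c2_le hs'H (Subgroup.subset_closure (by simp))
  have heq : c2 s' y = c2 s1 y := by
    refine Subgroup.eq_of_le_of_card_ge hle ?_
    by_contra hlt
    push Not at hlt
    rw [hd] at hlt
    exact hmin _ hlt ⟨s', hs'3, hπs', rfl⟩
  obtain ⟨Q, hQ1, hQ2, s2', hQ3, hs2'H, hπs2'⟩ := lift_three π hM hexp (c2 s' y) (s := s') hs'3
    (Subgroup.subset_closure (by simp)) D hD (by rw [hπs']; exact hsD) hs2D (by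
      rw [heq, hmap]
      exact hs2)
  rw [← heq] at ht'H
  obtain ⟨c', hc'⟩ : ∃ c', c' = s'⁻¹ * (s2'⁻¹ * s' * s2') := ⟨_, rfl⟩
  have hπc' : π c' = c := by
    rw [hc', hc, map_mul, map_mul, map_mul, map_inv, map_inv, hπs', hπs2']
  have hcs : Commute c' s' := by
    have h1 := Tw.comm_conj (a := s') (b := s') (c := s2') (hQ2 _ hQ3) (hQ2 _ (mul_mem hQ1 hQ3))
      (hQ2 _ (mul_mem hQ1 hQ3)) (hQ2 _ (mul_mem (mul_mem hQ1 hQ1) hQ3)) (Commute.refl _)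
    rw [hc']
    exact ((Commute.refl s').inv_right.mul_right h1).symm
  have hmapG : ∀ x ∈ c2 s' y, (x : G) ∈ c2 (s' : G) (y : G) := by
    intro x hx
    have h1 := map_c2' K.subtype s' y
    change (x : G) ∈ c2 (K.subtype s') (K.subtype y)
    rw [← h1]
    exact ⟨x, hx, rfl⟩
  have h1 := ptF S hM hn rM (s := (s' : G)) (s2 := (s2' : G)) (y := (y : G)) (c := (c' : G))
    (t := (t' : G)) hyPP (congrArg Subtype.val hs'3) (congrArg Subtype.val (hQ2 _ hQ3))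
    (congrArg Subtype.val (hQ2 _ (mul_mem hQ1 hQ3))) (by
      rw [hc']
      change _ = (s' : G) * ((s' : G)⁻¹ * ((s2' : G)⁻¹ * s' * s2'))
      group) (congrArg Subtype.val hcs) (congrArg Subtype.val hts') (hmapG _ hs2'H)
    (hmapG _ ht'H)
  have h2 : (t' * c' * t'⁻¹ * c'⁻¹) ^ 3 = 1 := Subtype.ext h1
  have h3 := congrArg π h2
  rw [map_one, map_pow, map_mul, map_mul, map_mul, map_inv, map_inv, hπt', hπc'] at h3
  exact h3

theorem cent_cF {G : Type} [Group G] {n M : ℕ} (S : Sf n G) (hM : Nat.Coprime M 3)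
    (hn : M * 3 = n) (h2M : 2 ∣ M) (rM : Rad M G = ⊥) {F : Type} [Group F] [Finite F]
    (hI : Im G F) (hF : ∀ x : F, x ^ (M * 3) = 1) (V : Subgroup F) [hVn : V.Normal]
    (hab : ∀ v ∈ V, ∀ w ∈ V, v * w = w * v) (hpow : ∀ v ∈ V, v ^ 2 = 1)
    {s h : F} (hh : PP h) (hs : s ^ 3 = 1) (D : Subgroup (F ⧸ V)) (hD : ∀ d ∈ D, d ^ 3 = 1)
    (hsD : (s : F ⧸ V) ∈ D) {s2 : F ⧸ V} (hs2D : s2 ∈ D)
    (hs2 : s2 ∈ (c2 s h).map (QuotientGroup.mk' V)) :
    ∃ c r : F, c ∈ c2 s h ∧ r ∈ c2 s h ∧ c ^ 3 = 1 ∧ (r : F ⧸ V) = s2 ∧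
      c = s⁻¹ * (r⁻¹ * s * r) ∧ ∀ t ∈ V, t ∈ c2 s h → t * c = c * t := by
  have hsH : s ∈ c2 s h := Subgroup.subset_closure (by simp)
  obtain ⟨Q, hsQ, hQ, r, hrQ, hrH, hrs2⟩ := lift_three (QuotientGroup.mk' V) hM hF (c2 s h) hs hsH
    D hD hsD hs2D hs2
  have h1 := Tw.comm_conj (a := s) (b := s) (c := r) (hQ _ hrQ) (hQ _ (mul_mem hsQ hrQ))
    (hQ _ (mul_mem hsQ hrQ)) (hQ _ (mul_mem (mul_mem hsQ hsQ) hrQ)) (Commute.refl _)
  have h2 := Tw.comm_conj (a := r) (b := r) (c := s) (hQ _ hsQ) (hQ _ (mul_mem hrQ hsQ))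
    (hQ _ (mul_mem hrQ hsQ)) (hQ _ (mul_mem (mul_mem hrQ hrQ) hsQ)) (Commute.refl _)
  obtain ⟨c, hc⟩ : ∃ c, c = s⁻¹ * (r⁻¹ * s * r) := ⟨_, rfl⟩
  have hcQ : c ∈ Q := by
    rw [hc]
    exact mul_mem (inv_mem hsQ) (mul_mem (mul_mem (inv_mem hrQ) hsQ) hrQ)
  have hcH : c ∈ c2 s h := by
    rw [hc]
    exact mul_mem (inv_mem hsH) (mul_mem (mul_mem (inv_mem hrH) hsH) hrH)
  have hcs : Commute c s := by
    rw [hc]
    exact ((Commute.refl s).inv_right.mul_right h1).symm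
  have hcr : Commute c r := by
    have e : c = (s⁻¹ * r * s)⁻¹ * r := by rw [hc]; group
    rw [e]
    exact (h2.symm.inv_left).mul_left (Commute.refl r)
  refine ⟨c, r, hcH, hrH, hQ c hcQ, hrs2, hc, fun t ht htH => ?_⟩
  -- elements commuting with `s`
  have key : ∀ t ∈ V, t ∈ c2 s h → Commute t s → Commute t c := by
    intro t ht htH hts
    have htM : t ^ M = 1 := by
      obtain ⟨k, rfl⟩ := h2M
      rw [pow_mul, hpow t ht, one_pow]
    have h3 := ptfF S hM hn rM hI hh hs Q hQ hsQ hrQ hrH htH htM hts hc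
    have h4 : t * c * t⁻¹ * c⁻¹ ∈ V := by
      have := mul_mem ht (hVn.conj_mem _ (inv_mem ht) c)
      have e : t * (c * t⁻¹ * c⁻¹) = t * c * t⁻¹ * c⁻¹ := by group
      rwa [e] at this
    have h5 := W629.eq_one_of_coprime (by norm_num) (hpow _ h4) h3
    rw [mul_inv_eq_one, mul_inv_eq_iff_eq_mul] at h5
    exact h5
  have conj : ∀ g : F, ∀ t ∈ V, t ∈ c2 s h → Commute t (r⁻¹ * g * r) →
      (∀ t ∈ V, t ∈ c2 s h → Commute t g → Commute t c) → Commute t c := by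
    intro g t ht htH htg hg
    have h3 := hg (r * t * r⁻¹) (hVn.conj_mem t ht r) (mul_mem (mul_mem hrH htH) (inv_mem hrH)) (by
      have h4 := htg.eq
      change r * t * r⁻¹ * g = g * (r * t * r⁻¹)
      calc r * t * r⁻¹ * g = r * (t * (r⁻¹ * g * r)) * r⁻¹ := by group
        _ = r * (r⁻¹ * g * r * t) * r⁻¹ := by rw [h4]
        _ = g * (r * t * r⁻¹) := by group)
    have h4 := h3.eq
    have h5 : r⁻¹ * c * r = c := by
      rw [mul_assoc, hcr.eq]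
      group
    change t * c = c * t
    calc t * c = r⁻¹ * (r * t * r⁻¹ * (r * c * r⁻¹)) * r := by group
      _ = r⁻¹ * (r * t * r⁻¹ * c) * r := by
          have h6 : r * c * r⁻¹ = c := by rw [← hcr.eq]; group
          rw [h6]
      _ = r⁻¹ * (c * (r * t * r⁻¹)) * r := by rw [h4]
      _ = (r⁻¹ * c * r) * t := by group
      _ = c * t := by rw [h5]
  have e1 : s * c = r⁻¹ * s * r := by rw [hc]; group
  have e2 : s * c * c = r⁻¹ * (s * c) * r := by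
    have h3 : r⁻¹ * (s * c) * r = (r⁻¹ * s * r) * (r⁻¹ * c * r) := by group
    have h5 : r⁻¹ * c * r = c := by
      rw [mul_assoc, hcr.eq]
      group
    rw [h3, h5, ← e1]
  have key1 : ∀ t ∈ V, t ∈ c2 s h → Commute t (s * c) → Commute t c := by
    intro t ht htH h3
    rw [e1] at h3
    exact conj s t ht htH h3 key
  have key2 : ∀ t ∈ V, t ∈ c2 s h → Commute t (s * c * c) → Commute t c := by
    intro t ht htH h3
    rw [e2] at h3
    exact conj (s * c) t ht htH h3 key1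
  have h6 := fix3 (F := c2 s h) (V.subgroupOf (c2 s h)) (s := ⟨s, hsH⟩) (c := ⟨c, hcH⟩)
    (fun v hv w hw => Subtype.ext (hab v hv w hw)) (Subtype.ext hs) (Subtype.ext (hQ c hcQ))
    (Subtype.ext hcs.eq)
    (fun t ht hts => Subtype.ext (key t ht t.2 (congrArg Subtype.val hts.eq)).eq)
    (fun t ht hts => Subtype.ext (key1 t ht t.2 (congrArg Subtype.val hts.eq)).eq)
    (fun t ht hts => Subtype.ext (key2 t ht t.2 (congrArg Subtype.val hts.eq)).eq)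
    (u := ⟨t, htH⟩) ht (Subtype.ext (hpow t ht))
  exact congrArg Subtype.val h6.eq

theorem comm_modF {G : Type} [Group G] {n M : ℕ} (S : Sf n G) (hM : Nat.Coprime M 3)
    (hn : M * 3 = n) (h2M : 2 ∣ M) (rM : Rad M G = ⊥) {F : Type} [Group F] [Finite F]
    (hI : Im G F) (hF : ∀ x : F, x ^ (M * 3) = 1) (V : Subgroup F) [hVn : V.Normal]
    (hab : ∀ v ∈ V, ∀ w ∈ V, v * w = w * v) (hpow : ∀ v ∈ V, v ^ 2 = 1)
    (L : Subgroup F) (hVL : V ≤ L) (hL3 : ∀ y ∈ L, y ^ 3 ∈ V)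
    (hC : ∀ y ∈ L, (∀ v ∈ V, y * v = v * y) → y ∈ V) {x s : F}
    (hxv : ∀ v ∈ V, PP (x * v)) (hs : s ^ 3 = 1) (hsL : s ∈ L)
    (hxL : ∀ y ∈ L, x * y * x⁻¹ ∈ L) {s2 : F ⧸ V} (hs2L : s2 ∈ L.map (QuotientGroup.mk' V))
    (hs2 : s2 ∈ (c2 s x).map (QuotientGroup.mk' V)) :
    (s : F ⧸ V)⁻¹ * (s2⁻¹ * s * s2) = 1 := by
  have hMpos : 0 < M * 3 := Nat.pos_of_ne_zero fun h => S.hn (by rw [← hn, h])
  obtain ⟨L', hL'⟩ : ∃ L', L' = L.map (QuotientGroup.mk' V) := ⟨_, rfl⟩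
  rw [← hL'] at hs2L
  have hL'3 : ∀ y ∈ L', y ^ 3 = 1 := by
    intro y hy
    rw [hL'] at hy
    obtain ⟨l, hl, rfl⟩ := hy
    have := hL3 l hl
    rw [← QuotientGroup.eq_one_iff, QuotientGroup.mk_pow] at this
    exact this
  have hL'L : ∀ y : F, (y : F ⧸ V) ∈ L' → y ∈ L := by
    intro y hy
    rw [hL'] at hy
    obtain ⟨l, hl, e⟩ := hy
    have h1 : l⁻¹ * y ∈ V := QuotientGroup.eq.1 e
    have h2 := mul_mem hl (hVL h1)
    rwa [mul_inv_cancel_left] at h2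
  have hsL' : (s : F ⧸ V) ∈ L' := by
    rw [hL']
    exact ⟨s, hsL, rfl⟩
  -- the subgroup of the quotient
  obtain ⟨E, hE⟩ : ∃ E, E = c2 (s : F ⧸ V) (x : F ⧸ V) := ⟨_, rfl⟩
  have hmapE : ∀ v ∈ V, (c2 s (x * v)).map (QuotientGroup.mk' V) = E := by
    intro v hv
    rw [hE, map_c2']
    change c2 (s : F ⧸ V) ((x * v : F) : F ⧸ V) = _
    rw [QuotientGroup.mk_mul, (QuotientGroup.eq_one_iff v).2 hv, mul_one]
  have hEL : ∀ g ∈ E, ∀ y ∈ L', g * y * g⁻¹ ∈ L' := by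
    have h1 : E ≤ Subgroup.normalizer (L' : Set (F ⧸ V)) := by
      rw [hE]
      refine c2_le (Subgroup.le_normalizer hsL') ?_
      refine mem_norm hMpos (by rw [← QuotientGroup.mk_pow, hF]; rfl) ?_
      intro y hy
      rw [hL'] at hy ⊢
      obtain ⟨l, hl, rfl⟩ := hy
      exact ⟨x * l * x⁻¹, hxL l hl, rfl⟩
    intro g hg y hy
    exact ((Subgroup.mem_normalizer_iff.1 (h1 hg)) y).1 hy
  obtain ⟨c, hc⟩ : ∃ c : F ⧸ V, c = (s : F ⧸ V)⁻¹ * (s2⁻¹ * s * s2) := ⟨_, rfl⟩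
  rw [← hc]
  have hcL' : c ∈ L' := by
    rw [hc]
    exact mul_mem (inv_mem hsL') (mul_mem (mul_mem (inv_mem hs2L) hsL') hs2L)
  let N : Subgroup (F ⧸ V) := Subgroup.closure {x | ∃ g ∈ E, x = g * c * g⁻¹}
  have hNE : ∀ g ∈ E, ∀ x ∈ N, g * x * g⁻¹ ∈ N := by
    intro g hg x hx
    induction hx using Subgroup.closure_induction with
    | mem x hx =>
      obtain ⟨g', hg', rfl⟩ := hx
      refine Subgroup.subset_closure ⟨g * g', mul_mem hg hg', ?_⟩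
      group
    | one => rw [mul_one, mul_inv_cancel]; exact one_mem _
    | mul x y _ _ hx hy =>
      have e : g * (x * y) * g⁻¹ = (g * x * g⁻¹) * (g * y * g⁻¹) := by group
      rw [e]
      exact mul_mem hx hy
    | inv x _ hx =>
      have e : g * x⁻¹ * g⁻¹ = (g * x * g⁻¹)⁻¹ := by group
      rw [e]
      exact inv_mem hx
  have hNle : ∀ A : Subgroup (F ⧸ V), (∀ g ∈ E, ∀ x ∈ A, g * x * g⁻¹ ∈ A) → c ∈ A → N ≤ A := by
    intro A hA hcA
    rw [Subgroup.closure_le]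
    rintro _ ⟨g, hg, rfl⟩
    exact hA g hg c hcA
  have hcN : c ∈ N := Subgroup.subset_closure ⟨1, one_mem _, by group⟩
  have hNL' : N ≤ L' := hNle L' hEL hcL'
  obtain ⟨a, b, ⟨a', ha'⟩, -, ha, -, -⟩ := crt hM
  -- the subgroups `B'`
  have hBv : ∀ v ∈ V, ∃ B' : Subgroup F, (∀ b ∈ B', b ^ 3 = 1) ∧
      (∀ g ∈ c2 s (x * v), ∀ b ∈ B', g * b * g⁻¹ ∈ B') ∧
      (∀ b ∈ B', (b : F ⧸ V) ∈ N) ∧ (∀ b : F, (b : F ⧸ V) ∈ N → ∃ w ∈ V, b * w ∈ B') ∧
      (∀ b ∈ c2 s (x * v), (b : F ⧸ V) ∈ N → b ^ 3 = 1 → b ∈ B') := by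
    intro v hv
    obtain ⟨H, hH⟩ : ∃ H, H = c2 s (x * v) := ⟨_, rfl⟩
    obtain ⟨cv, r, h1, h2, h3, h4, h5, h6⟩ := cent_cF S hM hn h2M rM hI hF V hab hpow
      (h := x * v) (hxv v hv) hs L' hL'3 hsL' hs2L (by
        rw [hmapE v hv]
        have := hmapE 1 (one_mem _)
        rw [mul_one] at this
        rwa [← this])
    rw [← hH] at h1 h2 h6 ⊢
    have hcv : (cv : F ⧸ V) = c := by
      rw [h5, hc, ← h4]
      rfl
    have hHE : H.map (QuotientGroup.mk' V) = E := by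
      rw [hH]
      exact hmapE v hv
    let A : Subgroup F :=
      { carrier := {g | g ∈ H ∧ ∀ t ∈ V, t ∈ H → t * g = g * t}
        one_mem' := ⟨one_mem _, fun t _ _ => by rw [mul_one, one_mul]⟩
        mul_mem' := by
          rintro g g' ⟨hg, hg2⟩ ⟨hg', hg2'⟩
          refine ⟨mul_mem hg hg', fun t ht htH => ?_⟩
          rw [← mul_assoc, hg2 t ht htH, mul_assoc, hg2' t ht htH, mul_assoc]
        inv_mem' := by
          rintro g ⟨hg, hg2⟩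
          refine ⟨inv_mem hg, fun t ht htH => ?_⟩
          rw [eq_inv_mul_iff_mul_eq, ← mul_assoc, ← hg2 t ht htH, mul_inv_cancel_right] }
    have hNA : N ≤ A.map (QuotientGroup.mk' V) := by
      apply hNle
      · rintro g hg _ ⟨y, ⟨hy, hy2⟩, rfl⟩
        rw [← hHE] at hg
        obtain ⟨g, hg, rfl⟩ := hg
        refine ⟨g * y * g⁻¹, ⟨mul_mem (mul_mem hg hy) (inv_mem hg), fun t ht htH => ?_⟩, rfl⟩
        have h7 := hy2 (g⁻¹ * t * g) (by
          have := hVn.conj_mem t ht g⁻¹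
          rwa [inv_inv] at this) (mul_mem (mul_mem (inv_mem hg) htH) hg)
        calc t * (g * y * g⁻¹) = g * ((g⁻¹ * t * g) * y) * g⁻¹ := by group
          _ = g * (y * (g⁻¹ * t * g)) * g⁻¹ := by rw [h7]
          _ = g * y * g⁻¹ * t := by group
      · exact ⟨cv, ⟨h1, h6⟩, hcv⟩
    -- elements of `H` with image in `N`
    obtain ⟨E1, hE1⟩ : ∃ E1, E1 = H ⊓ N.comap (QuotientGroup.mk' V) := ⟨_, rfl⟩
    have hE1m : ∀ y : F, y ∈ E1 ↔ y ∈ H ∧ (y : F ⧸ V) ∈ N := by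
      intro y
      rw [hE1]
      exact Iff.rfl
    have hcen : ∀ y ∈ E1, ∀ t ∈ V, t ∈ H → t * y = y * t := by
      intro y hy t ht htH
      rw [hE1m] at hy
      obtain ⟨g, ⟨hg, hg2⟩, hgy⟩ := hNA hy.2
      have h7 : g⁻¹ * y ∈ V := QuotientGroup.eq.1 hgy
      have h8 := hab _ ht _ h7
      calc t * y = t * g * (g⁻¹ * y) := by group
        _ = g * t * (g⁻¹ * y) := by rw [hg2 t ht htH]
        _ = g * (t * (g⁻¹ * y)) := by group
        _ = g * (g⁻¹ * y * t) := by rw [h8]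
        _ = y * t := by group
    have hrad : ∀ y : E1, y ^ 3 = 1 → y ∈ Rad (3 ^ 1) E1 := by
      intro y hy
      refine nilpG Nat.prime_three (by rw [pow_one]; exact hM.symm) hM.symm (m := M) (fun y => ?_)
        ⊤ inferInstance ?_ (Subgroup.mem_top y) (by rw [pow_one]; exact hy)
      · apply Subtype.ext
        rw [pow_one, mul_comm]
        exact hF y
      · rintro ⟨y, hy⟩ - ⟨z, hz⟩ - hzM
        apply Subtype.ext
        have h7 : (z : F ⧸ V) = 1 := by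
          refine W629.eq_one_of_coprime hM ?_ (hL'3 _ (hNL' ((hE1m z).1 hz).2))
          rw [← QuotientGroup.mk_pow]
          have : z ^ M = 1 := congrArg Subtype.val hzM
          rw [this]
          rfl
        exact (hcen y hy z ((QuotientGroup.eq_one_iff z).1 h7) ((hE1m z).1 hz).1).symm
    refine ⟨{ carrier := {b | b ∈ E1 ∧ b ^ 3 = 1}
              one_mem' := ⟨one_mem _, one_pow _⟩
              mul_mem' := ?_
              inv_mem' := ?_ }, fun b hb => hb.2, ?_, fun b hb => ((hE1m b).1 hb.1).2, ?_, ?_⟩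
    · rintro y z ⟨hy, hy2⟩ ⟨hz, hz2⟩
      refine ⟨mul_mem hy hz, ?_⟩
      have h7 := rad_mul (hrad ⟨y, hy⟩ (Subtype.ext hy2)) (z := ⟨z, hz⟩) (Subtype.ext (by
        rw [Subgroup.coe_pow, pow_one]; exact hz2))
      rw [pow_one] at h7
      exact congrArg Subtype.val h7
    · rintro y ⟨hy, hy2⟩
      exact ⟨inv_mem hy, by rw [inv_pow, hy2, inv_one]⟩
    · rintro g hg y ⟨hy, hy2⟩
      refine ⟨?_, conj_pow_one hy2⟩
      rw [hE1m] at hy ⊢
      refine ⟨mul_mem (mul_mem hg hy.1) (inv_mem hg), hNE (g : F ⧸ V) ?_ _ hy.2⟩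
      rw [← hHE]
      exact ⟨g, hg, rfl⟩
    · intro y hy
      obtain ⟨g, ⟨hg, -⟩, hgy⟩ := hNA hy
      have hgy' : (g : F ⧸ V) = y := hgy
      have h7 : ((g ^ a : F) : F ⧸ V) = y := by
        rw [QuotientGroup.mk_pow, hgy']
        exact ha _ (hL'3 _ (hNL' hy))
      refine ⟨y⁻¹ * g ^ a, QuotientGroup.eq.1 h7.symm, ?_, ?_⟩
      · rw [mul_inv_cancel_left, hE1m, h7]
        exact ⟨pow_mem hg a, hy⟩
      · rw [mul_inv_cancel_left, ← pow_mul, ha', show M * a' * 3 = (M * 3) * a' from by ring,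
          pow_mul, hF, one_pow]
    · intro y hy hyN hy3
      exact ⟨(hE1m y).2 ⟨hy, hyN⟩, hy3⟩
  obtain ⟨B, hB1, hB2, hB3, hB4, hB5⟩ := hBv 1 (one_mem _)
  rw [mul_one] at hB2 hB5
  have hsE : s ∈ c2 s x := Subgroup.subset_closure (by simp)
  have hxE : x ∈ c2 s x := Subgroup.subset_closure (by simp)
  have hinvc : ∀ g ∈ c2 s x, ∀ b ∈ B, g⁻¹ * b * g ∈ B := by
    intro g hg b hb
    have := hB2 g⁻¹ (inv_mem hg) b hb
    rwa [inv_inv] at this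
  have hhalf := half' V 2 s x Nat.prime_two inferInstance hab hpow B
    (fun b hb => ⟨3, by norm_num, hB1 b hb⟩) (hB2 s hsE) (hinvc s hsE) (hB2 x hxE)
    (hinvc x hxE) (by
      intro v hv
      obtain ⟨B', h1, h2, h3, h4, -⟩ := hBv v hv
      exact ⟨B', fun b hb => ⟨3, by norm_num, h1 b hb⟩,
        h2 s (Subgroup.subset_closure (by simp)), h2 (x * v) (Subgroup.subset_closure (by simp)),
        fun b hb => h4 b (hB3 b hb), fun b hb => hB4 b (h3 b hb)⟩)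
  -- the commutator
  obtain ⟨cv, r, h1, h2, h3, h4, h5, -⟩ := cent_cF S hM hn h2M rM hI hF V hab hpow
    (h := x) (by have := hxv 1 (one_mem _); rwa [mul_one] at this) hs L' hL'3 hsL' hs2L hs2
  have hcv : (cv : F ⧸ V) = c := by
    rw [h5, hc, ← h4]
    rfl
  have hcvB : cv ∈ B := hB5 cv h1 (by rw [hcv]; exact hcN) h3
  have hC0 : ∀ g ∈ c2 s x, ∀ k ∈ V ⊓ Subgroup.centralizer (B : Set F),
      g⁻¹ * k * g ∈ V ⊓ Subgroup.centralizer (B : Set F) := by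
    intro g hg k hk
    refine ⟨?_, Subgroup.mem_centralizer_iff.2 fun b hb => ?_⟩
    · have := hVn.conj_mem k hk.1 g⁻¹
      rwa [inv_inv] at this
    · have h6 := (Subgroup.mem_centralizer_iff.1 hk.2) _ (hB2 g hg b hb)
      calc b * (g⁻¹ * k * g) = g⁻¹ * ((g * b * g⁻¹) * k) * g := by group
        _ = g⁻¹ * (k * (g * b * g⁻¹)) * g := by rw [h6]
        _ = g⁻¹ * k * g * b := by group
  have hcomm : ∀ u ∈ V, cv * u = u * cv := by
    intro u hu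
    obtain ⟨κ, hκ⟩ : ∃ κ, κ = cv⁻¹ * u * cv * u⁻¹ := ⟨_, rfl⟩
    have hκC : κ ∈ V ⊓ Subgroup.centralizer (B : Set F) := by
      obtain ⟨u', hu'⟩ : ∃ u', u' = s * u * s⁻¹ := ⟨_, rfl⟩
      have hu'V : u' ∈ V := by rw [hu']; exact hVn.conj_mem u hu s
      have h6 := hhalf u' hu'V
      have h7 := hhalf (r * u' * r⁻¹) (hVn.conj_mem u' hu'V r)
      have h8 := hC0 r h2 _ h7
      have h9 := mul_mem h8 (inv_mem h6)
      have e : κ = r⁻¹ * (s⁻¹ * (r * u' * r⁻¹) * s * (r * u' * r⁻¹)⁻¹) * r *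
          (s⁻¹ * u' * s * u'⁻¹)⁻¹ := by
        rw [hκ, h5, hu']
        group
      rw [e]
      exact h9
    have hcm : Commute cv κ := (Subgroup.mem_centralizer_iff.1 hκC.2) cv hcvB
    have h6 := comm_pow (x := cv⁻¹) (y := u) (c := κ) (by rw [hκ, inv_inv]) hcm.inv_left 3
    have h7 : κ ^ 3 = 1 := by
      rw [← h6, inv_pow, h3]
      group
    have h8 := W629.eq_one_of_coprime (a := 3) (b := 2) (by norm_num) h7 (hpow κ hκC.1)
    rw [h8, eq_comm, mul_inv_eq_one, mul_assoc, inv_mul_eq_iff_eq_mul] at hκ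
    exact hκ.symm
  have h6 := hC cv (hL'L cv (by rw [hcv]; exact hcL')) hcomm
  rw [← hcv]
  exact (QuotientGroup.eq_one_iff cv).2 h6

/-- elements `x v` -/
theorem pp_xv {F : Type} [Group F] {α : ℕ} {x : F} (hx : x ^ 2 ^ α = 1) (V : Subgroup F)
    [hV : V.Normal] (hpow : ∀ v ∈ V, v ^ 2 = 1) : ∀ v ∈ V, PP (x * v) := by
  intro v hv
  refine ⟨2, α + 1, Nat.prime_two, ?_⟩
  have h1 : (x * v) ^ 2 ^ α ∈ V := by
    rw [← QuotientGroup.eq_one_iff, QuotientGroup.mk_pow, QuotientGroup.mk_mul,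
      (QuotientGroup.eq_one_iff v).2 hv, mul_one, ← QuotientGroup.mk_pow, hx]
    rfl
  rw [pow_succ, pow_mul]
  exact hpow _ h1

/-- the configuration of the theorem does not occur -/
theorem no_conf3F' {G : Type} [Group G] {n M α m : ℕ} (S : Sf n G) (hM : Nat.Coprime M 3)
    (hn : M * 3 = n) (rM : Rad M G = ⊥) (hα : 1 ≤ α) (h2m : ¬ 2 ∣ m) (hm : 2 ^ α * m = n)
    {F : Type} [Group F] [Finite F]
    (hI : Im G F) (hF : ∀ x : F, x ^ (2 ^ α * m) = 1) {x : F} (hx : x ^ 2 ^ α = 1)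
    (V L : Subgroup F) [hV : V.Normal] (hVL : V ≤ L)
    (hab : ∀ v ∈ V, ∀ w ∈ V, v * w = w * v) (hpow : ∀ v ∈ V, v ^ 2 = 1)
    (hL3 : ∀ y ∈ L, y ^ 3 ∈ V) (hxL : ∀ y ∈ L, x * y * x⁻¹ ∈ L)
    (hC : ∀ y ∈ L, (∀ v ∈ V, y * v = v * y) → y ∈ V) {s : F} (hs : s ∈ L) (hs3 : s ^ 3 = 1) :
    x ^ 2 ^ (α - 1) * s * (x ^ 2 ^ (α - 1))⁻¹ * s⁻¹ ∈ V := by
  classical
  have h2M : 2 ∣ M := by
    have h1 : 2 ∣ M * 3 := by
      rw [hn, ← hm]
      exact (dvd_pow_self 2 (by omega)).trans (dvd_mul_right _ _)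
    exact (Nat.Coprime.dvd_of_dvd_mul_right (by norm_num) h1)
  have hFM : ∀ x : F, x ^ (M * 3) = 1 := by
    rw [hn, ← hm]
    exact hF
  have hxn : x ∈ Subgroup.normalizer (L : Set F) := mem_norm (Nat.pow_pos (by norm_num)) hx hxL
  have hxzL : ∀ (i : ℤ), ∀ y ∈ L, x ^ i * y * (x ^ i)⁻¹ ∈ L := fun i y hy =>
    ((Subgroup.mem_normalizer_iff.1 (zpow_mem hxn i)) y).1 hy
  -- the conjugates of `s`
  obtain ⟨X, hX⟩ : ∃ X : Set (F ⧸ V),
    X = {y | ∃ i : ℤ, y = (x : F ⧸ V) ^ i * s * ((x : F ⧸ V) ^ i)⁻¹} := ⟨_, rfl⟩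
  have hXs : (s : F ⧸ V) ∈ X := by
    rw [hX]
    exact ⟨0, by simp⟩
  have hcomm0 : ∀ i : ℤ, (s : F ⧸ V) * ((x : F ⧸ V) ^ i * s * ((x : F ⧸ V) ^ i)⁻¹) =
      ((x : F ⧸ V) ^ i * s * ((x : F ⧸ V) ^ i)⁻¹) * s := by
    intro i
    have h1 := comm_modF S hM hn h2M rM hI hFM V hab hpow L hVL hL3 hC (x := x) (s := s)
      (pp_xv hx V hpow) hs3 hs hxL
      (s2 := (x : F ⧸ V) ^ i * s * ((x : F ⧸ V) ^ i)⁻¹)
      ⟨x ^ i * s * (x ^ i)⁻¹, hxzL i s hs, rfl⟩ (by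
        refine ⟨x ^ i * s * (x ^ i)⁻¹, ?_, rfl⟩
        have h2 : x ∈ c2 s x := Subgroup.subset_closure (by simp)
        have h3 : s ∈ c2 s x := Subgroup.subset_closure (by simp)
        exact mul_mem (mul_mem (zpow_mem h2 i) h3) (inv_mem (zpow_mem h2 i)))
    generalize (x : F ⧸ V) ^ i * s * ((x : F ⧸ V) ^ i)⁻¹ = y at h1 ⊢
    rw [inv_mul_eq_one, mul_assoc, eq_inv_mul_iff_mul_eq] at h1
    exact h1.symm
  have hXc : ∀ a ∈ X, ∀ b ∈ X, a * b = b * a := by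
    intro a ha b hb
    rw [hX] at ha hb
    obtain ⟨i, rfl⟩ := ha
    obtain ⟨j, rfl⟩ := hb
    have h1 := hcomm0 (j - i)
    rw [sub_eq_neg_add, zpow_add, zpow_neg] at h1
    generalize (x : F ⧸ V) ^ i = u at h1 ⊢
    generalize (x : F ⧸ V) ^ j = v at h1 ⊢
    generalize (s : F ⧸ V) = t at h1 ⊢
    calc u * t * u⁻¹ * (v * t * v⁻¹) = u * (t * (u⁻¹ * v * t * (u⁻¹ * v)⁻¹)) * u⁻¹ := by group
      _ = u * ((u⁻¹ * v * t * (u⁻¹ * v)⁻¹) * t) * u⁻¹ := by rw [h1]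
      _ = v * t * v⁻¹ * (u * t * u⁻¹) := by group
  obtain ⟨T, hT⟩ : ∃ T, T = Subgroup.closure X := ⟨_, rfl⟩
  have hTc : ∀ a ∈ T, ∀ b ∈ T, a * b = b * a := by
    have h1 : T ≤ Subgroup.centralizer X := by
      rw [hT, Subgroup.closure_le]
      intro a ha
      rw [SetLike.mem_coe, Subgroup.mem_centralizer_iff]
      intro b hb
      exact hXc b hb a ha
    have h2 : T ≤ Subgroup.centralizer (T : Set (F ⧸ V)) := by
      conv_lhs => rw [hT]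
      rw [Subgroup.closure_le]
      intro a ha
      rw [SetLike.mem_coe, Subgroup.mem_centralizer_iff]
      intro b hb
      exact ((Subgroup.mem_centralizer_iff.1 (h1 hb)) a ha).symm
    intro a ha b hb
    exact (Subgroup.mem_centralizer_iff.1 (h2 hb)) a ha
  have hTx : ∀ y ∈ T, (x : F ⧸ V) * y * (x : F ⧸ V)⁻¹ ∈ T := by
    intro y hy
    rw [hT] at hy ⊢
    refine closure_conj ?_ y hy
    intro y hy
    rw [hX] at hy ⊢
    obtain ⟨i, rfl⟩ := hy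
    refine Subgroup.subset_closure ⟨i + 1, ?_⟩
    rw [add_comm, zpow_add, zpow_one]
    group
  -- the preimage
  obtain ⟨Lq, hLq⟩ : ∃ Lq, Lq = T.comap (QuotientGroup.mk' V) := ⟨_, rfl⟩
  have hLqm : ∀ y : F, y ∈ Lq ↔ (y : F ⧸ V) ∈ T := by
    intro y
    rw [hLq]
    rfl
  have hVq : V ≤ Lq := by
    intro v hv
    rw [hLqm, (QuotientGroup.eq_one_iff v).2 hv]
    exact one_mem _
  have hLqL : Lq ≤ L := by
    have h1 : T ≤ L.map (QuotientGroup.mk' V) := by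
      rw [hT, Subgroup.closure_le, hX]
      rintro _ ⟨i, rfl⟩
      exact ⟨x ^ i * s * (x ^ i)⁻¹, hxzL i s hs, rfl⟩
    intro y hy
    rw [hLqm] at hy
    obtain ⟨l, hl, e⟩ := h1 hy
    have h2 : l⁻¹ * y ∈ V := QuotientGroup.eq.1 e
    have h3 := mul_mem hl (hVL h2)
    rwa [mul_inv_cancel_left] at h3
  have hxq : ∀ y ∈ Lq, x * y * x⁻¹ ∈ Lq := by
    intro y hy
    rw [hLqm] at hy ⊢
    exact hTx _ hy
  have hxn : x ∈ Subgroup.normalizer (Lq : Set F) := mem_norm (Nat.pow_pos (by norm_num)) hx hxq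
  obtain ⟨F', hF'⟩ : ∃ F', F' = XZs Lq x hxn := ⟨_, rfl⟩
  have hxF' : x ∈ F' := by
    rw [hF']
    refine ⟨-1, ?_⟩
    rw [zpow_neg_one, mul_inv_cancel]
    exact one_mem _
  have hLF' : Lq ≤ F' := by
    intro y hy
    rw [hF']
    refine ⟨0, ?_⟩
    rwa [zpow_zero, mul_one]
  have hF'n : F' ≤ Subgroup.normalizer (Lq : Set F) := by
    intro y hy
    rw [hF'] at hy
    obtain ⟨j, hj⟩ := hy
    have h1 := mul_mem (Subgroup.le_normalizer hj) (inv_mem (zpow_mem hxn j))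
    rwa [mul_inv_cancel_right] at h1
  -- the exponent
  obtain ⟨m', hm'⟩ : 3 ∣ m := by
    have h1 : 3 ∣ 2 ^ α * m := by
      rw [hm, ← hn]
      exact dvd_mul_left _ _
    exact Nat.Coprime.dvd_of_dvd_mul_left (Nat.Coprime.pow_right _ (by norm_num)) h1
  have h3m' : Nat.Coprime 3 m' := by
    have h1 : M = 2 ^ α * m' := by
      have h2 : M * 3 = (2 ^ α * m') * 3 := by
        rw [hn, ← hm, hm']
        ring
      exact Nat.eq_of_mul_eq_mul_right (by norm_num) h2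
    rw [h1] at hM
    exact (Nat.Coprime.coprime_mul_left hM).symm
  have h2m' : Nat.Coprime 2 m' := by
    rw [Nat.Prime.coprime_iff_not_dvd Nat.prime_two]
    intro h
    apply h2m
    rw [hm']
    exact h.trans (dvd_mul_left _ _)
  have hexp : ∀ y : F', y ^ (2 ^ α * 3 ^ 1) = 1 := by
    rintro ⟨y, hy⟩
    apply Subtype.ext
    change y ^ (2 ^ α * 3 ^ 1) = 1
    have hy' := hy
    rw [hF'] at hy'
    obtain ⟨j, hj⟩ := hy'
    have h1 := xz_pow hxn hx hj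
    have h2 := hpow _ (hL3 _ (hLqL h1))
    have h3 : y ^ (2 ^ (α + 1) * 3) = 1 := by
      rw [← h2, ← pow_mul, ← pow_mul]
      congr 1
      ring
    have h4 := orderOf_dvd_of_pow_eq_one h3
    have h5 := orderOf_dvd_of_pow_eq_one (hF y)
    rw [hm', ← mul_assoc] at h5
    apply orderOf_dvd_iff_pow_eq_one.1
    rw [pow_one]
    refine Nat.Coprime.dvd_of_dvd_mul_right ?_ h5
    refine Nat.Coprime.coprime_dvd_left h4 (Nat.Coprime.mul_left ?_ h3m')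
    exact Nat.Coprime.pow_left _ h2m'
  have hsq : s ∈ Lq := by
    rw [hLqm, hT]
    exact Subgroup.subset_closure hXs
  have h6 := no_confC (p := 2) (q := 3) (β := 1) Nat.prime_two Nat.prime_three (by norm_num) hα
    (F := F') hexp (x := ⟨x, hxF'⟩) (Subtype.ext hx) (V.subgroupOf F') (Lq.subgroupOf F')
    ⟨fun v hv g => hV.conj_mem v hv g⟩
    ⟨fun v hv g => ((Subgroup.mem_normalizer_iff.1 (hF'n g.2)) v).1 hv⟩
    (fun v hv => hVq hv) (fun v hv w hw => Subtype.ext (hab v hv w hw))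
    (fun v hv => Subtype.ext (hpow v hv))
    (fun y hy => by
      change (y : F) ^ 3 ^ 1 ∈ V
      rw [pow_one]
      exact hL3 y (hLqL hy))
    (fun a ha b hb => by
      change (a : F) * b * (a : F)⁻¹ * (b : F)⁻¹ ∈ V
      have h7 := hTc _ ((hLqm a).1 ha) _ ((hLqm b).1 hb)
      rw [← QuotientGroup.eq_one_iff]
      change ((a : F) : F ⧸ V) * ((b : F) : F ⧸ V) * ((a : F) : F ⧸ V)⁻¹ *
        ((b : F) : F ⧸ V)⁻¹ = 1
      rw [h7]
      group)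
    (fun y hy hyv => hC y (hLqL hy) fun v hv =>
      congrArg Subtype.val (hyv ⟨v, hLF' (hVq hv)⟩ hv))
    (s := ⟨s, hLF' hsq⟩) hsq
  exact h6

/-- the configuration of the theorem does not occur -/
theorem no_conf3F {G : Type} [Group G] {n M α m : ℕ} (S : Sf n G) (hM : Nat.Coprime M 3)
    (hn : M * 3 = n) (rM : Rad M G = ⊥) (hα : 1 ≤ α) (h2m : ¬ 2 ∣ m) (hm : 2 ^ α * m = n)
    {F : Type} [Group F] [Finite F]
    (hI : Im G F) (hF : ∀ x : F, x ^ (2 ^ α * m) = 1) {x : F} (hx : x ^ 2 ^ α = 1)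
    (V L : Subgroup F) [hV : V.Normal] (hVL : V ≤ L)
    (hab : ∀ v ∈ V, ∀ w ∈ V, v * w = w * v) (hpow : ∀ v ∈ V, v ^ 2 = 1)
    (hL3 : ∀ y ∈ L, y ^ 3 ∈ V) (hxL : ∀ y ∈ L, x * y * x⁻¹ ∈ L)
    (hC : ∀ y ∈ L, (∀ v ∈ V, y * v = v * y) → y ∈ V) {s : F} (hs : s ∈ L) :
    x ^ 2 ^ (α - 1) * s * (x ^ 2 ^ (α - 1))⁻¹ * s⁻¹ ∈ V := by
  have hFM : ∀ x : F, x ^ (M * 3) = 1 := by
    rw [hn, ← hm]
    exact hF
  obtain ⟨a, b, ⟨a', ha'⟩, -, ha, -, -⟩ := crt hM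
  have h1 : (s ^ a) ^ 3 = 1 := by
    rw [← pow_mul, ha', show M * a' * 3 = (M * 3) * a' from by ring, pow_mul, hFM, one_pow]
  have h2 := no_conf3F' S hM hn rM hα h2m hm hI hF hx V L hVL hab hpow hL3 hxL hC
    (s := s ^ a) (pow_mem hs a) h1
  have h3 : (s : F ⧸ V) ^ a = s := by
    apply ha
    rw [← QuotientGroup.mk_pow, QuotientGroup.eq_one_iff]
    exact hL3 s hs
  generalize x ^ 2 ^ (α - 1) = z at h2 ⊢
  rw [← QuotientGroup.eq_one_iff] at h2 ⊢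
  have h4 : (z : F ⧸ V) * (s : F ⧸ V) ^ a * (z : F ⧸ V)⁻¹ * ((s : F ⧸ V) ^ a)⁻¹ = 1 := h2
  rw [h3] at h4
  exact h4

end Pool.Agent.N6.Pf
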