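import Mathlib
import Pool.Agent.N6.PfD

set_option autoImplicit false

/-!
# One generator of prime power order, part E: the theorem of Hall and Higman for the prime two
-/

namespace Pool.Agent.N6.Pf

open Pool.Agent.H32BU Pool.Agent.W629 Pool.Agent.TH69.Mtn Pool.Agent.TH69.Od Pool.Agent.TH69.Og
open Pool.Agent.TH69.Oh Pool.Agent.TH69.Ok

/-- `q`-elements of images of finite subgroups have few fixed points -/
def FixF (G : Type) [Group G] (q M : ℕ) : Prop := ∀ (F : Type) [Group F], Im G F →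
  ∀ s h τ : F, PP h → s ^ q = 1 → τ ∈ Ncl s h → Commute τ s → τ ^ M = 1 → τ = 1

theorem comm_mod_qF {G : Type} [Group G] {M q : ℕ} (hq : q.Prime) (hq2 : q ≠ 2)
    (hM : Nat.Coprime M q) (h2M : 2 ∣ M) (hfix : FixF G q M) {F : Type} [Group F] [Finite F]
    (hI : Im G F) (hF : ∀ x : F, x ^ (M * q) = 1) (hMq : 0 < M * q) (V : Subgroup F)
    [hVn : V.Normal]
    (hab : ∀ v ∈ V, ∀ w ∈ V, v * w = w * v) (hpow : ∀ v ∈ V, v ^ 2 = 1)
    (L : Subgroup F) (hVL : V ≤ L) (hLq : ∀ y ∈ L, y ^ q ∈ V)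
    (hC : ∀ y ∈ L, (∀ v ∈ V, y * v = v * y) → y ∈ V) {x s : F}
    (hxp : ∀ v ∈ V, PP (x * v)) (hs : s ^ q = 1) (hsL : s ∈ L)
    (hxL : ∀ y ∈ L, x * y * x⁻¹ ∈ L) {y2 c : F ⧸ V}
    (hy2 : y2 ∈ Ncl (s : F ⧸ V) (x : F ⧸ V)) (hc : c = (s : F ⧸ V)⁻¹ * (y2⁻¹ * s * y2))
    (hcz : ∀ g ∈ Ncl (s : F ⧸ V) (x : F ⧸ V), g * c * g⁻¹ * c⁻¹ = 1) : c = 1 := by
  have h2q : Nat.Coprime q 2 := (Nat.coprime_primes hq Nat.prime_two).2 hq2
  obtain ⟨L', hL'⟩ : ∃ L', L' = L.map (QuotientGroup.mk' V) := ⟨_, rfl⟩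
  have hL'q : ∀ y ∈ L', y ^ q = 1 := by
    intro y hy
    rw [hL'] at hy
    obtain ⟨l, hl, rfl⟩ := hy
    have := hLq l hl
    rw [← QuotientGroup.eq_one_iff, QuotientGroup.mk_pow] at this
    exact this
  have hL'L : ∀ y : F, (y : F ⧸ V) ∈ L' → y ∈ L := by
    intro y hy
    rw [hL'] at hy
    obtain ⟨l, hl, e⟩ := hy
    have h1 : l⁻¹ * y ∈ V := QuotientGroup.eq.1 e
    have h2 := mul_mem hl (hVL h1)
    rwa [mul_inv_cancel_left] at h2
  have hsL' : (s : F ⧸ V) ∈ L' := by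
    rw [hL']
    exact ⟨s, hsL, rfl⟩
  -- the subgroup of the quotient
  obtain ⟨E, hE⟩ : ∃ E, E = c2 (s : F ⧸ V) (x : F ⧸ V) := ⟨_, rfl⟩
  obtain ⟨T, hT⟩ : ∃ T, T = Ncl (s : F ⧸ V) (x : F ⧸ V) := ⟨_, rfl⟩
  have hxv : ∀ v ∈ V, ((x * v : F) : F ⧸ V) = x := by
    intro v hv
    rw [QuotientGroup.mk_mul, (QuotientGroup.eq_one_iff v).2 hv, mul_one]
  have hmapE : ∀ v ∈ V, (c2 s (x * v)).map (QuotientGroup.mk' V) = E := by
    intro v hv
    rw [hE, map_c2']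
    change c2 (s : F ⧸ V) ((x * v : F) : F ⧸ V) = _
    rw [hxv v hv]
  have hmapT : ∀ v ∈ V, (Ncl s (x * v)).map (QuotientGroup.mk' V) = T := by
    intro v hv
    rw [hT, map_Ncl]
    change Ncl (s : F ⧸ V) ((x * v : F) : F ⧸ V) = _
    rw [hxv v hv]
  have hEL : ∀ g ∈ E, ∀ y ∈ L', g * y * g⁻¹ ∈ L' := by
    have h1 : E ≤ Subgroup.normalizer (L' : Set (F ⧸ V)) := by
      rw [hE]
      refine c2_le (Subgroup.le_normalizer hsL') ?_
      refine mem_norm hMq (by rw [← QuotientGroup.mk_pow, hF]; rfl) ?_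
      intro y hy
      rw [hL'] at hy ⊢
      obtain ⟨l, hl, rfl⟩ := hy
      exact ⟨x * l * x⁻¹, hxL l hl, rfl⟩
    intro g hg y hy
    exact ((Subgroup.mem_normalizer_iff.1 (h1 hg)) y).1 hy
  have hTL : T ≤ L' := by
    rw [hT]
    refine Ncl_le ?_ hsL'
    rw [← hE]
    exact hEL
  rw [← hT] at hy2 hcz
  have hsT : (s : F ⧸ V) ∈ T := by
    rw [hT]
    exact self_mem_Ncl _ _
  have hcT : c ∈ T := by
    rw [hc]
    exact mul_mem (inv_mem hsT) (mul_mem (mul_mem (inv_mem hy2) hsT) hy2)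
  have hcL' : c ∈ L' := hTL hcT
  let N : Subgroup (F ⧸ V) := Subgroup.closure {x | ∃ g ∈ E, x = g * c * g⁻¹}
  have hNE : ∀ g ∈ E, ∀ x ∈ N, g * x * g⁻¹ ∈ N := by
    intro g hg x hx
    refine closure_conj ?_ x hx
    rintro _ ⟨g', hg', rfl⟩
    refine Subgroup.subset_closure ⟨g * g', mul_mem hg hg', ?_⟩
    group
  have hNle : ∀ A : Subgroup (F ⧸ V), (∀ g ∈ E, ∀ x ∈ A, g * x * g⁻¹ ∈ A) → c ∈ A → N ≤ A := by
    intro A hA hcA
    rw [Subgroup.closure_le]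
    rintro _ ⟨g, hg, rfl⟩
    exact hA g hg c hcA
  have hcN : c ∈ N := Subgroup.subset_closure ⟨1, one_mem _, by group⟩
  have hNL' : N ≤ L' := hNle L' hEL hcL'
  obtain ⟨a, b, ⟨a', ha'⟩, -, ha, -, -⟩ := crt hM
  -- lifts of the commutator
  have hlift : ∀ v ∈ V, ∃ cv r : F, cv ∈ c2 s (x * v) ∧ r ∈ c2 s (x * v) ∧ (cv : F ⧸ V) = c ∧
      cv = s⁻¹ * (r⁻¹ * s * r) ∧ ∀ t ∈ V, t ∈ c2 s (x * v) → t * cv = cv * t := by
    intro v hv
    have h1 : y2 ∈ (Ncl s (x * v)).map (QuotientGroup.mk' V) := by rw [hmapT v hv]; exact hy2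
    obtain ⟨r, hr, hry⟩ := h1
    have hry' : (r : F ⧸ V) = y2 := hry
    have hrH := Ncl_le_c2 s (x * v) hr
    have hsN := self_mem_Ncl s (x * v)
    have hsH := Ncl_le_c2 s (x * v) hsN
    obtain ⟨cv, hcv⟩ : ∃ cv, cv = s⁻¹ * (r⁻¹ * s * r) := ⟨_, rfl⟩
    have hcvN : cv ∈ Ncl s (x * v) := by
      rw [hcv]
      exact mul_mem (inv_mem hsN) (mul_mem (mul_mem (inv_mem hr) hsN) hr)
    have hcvH := Ncl_le_c2 s (x * v) hcvN
    have hcvc : (cv : F ⧸ V) = c := by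
      rw [hcv, hc, ← hry']
      rfl
    have hz : ∀ g : F, (g : F ⧸ V) ∈ T → g * cv * g⁻¹ * cv⁻¹ ∈ V := by
      intro g hg
      rw [← QuotientGroup.eq_one_iff]
      change (g : F ⧸ V) * (cv : F ⧸ V) * (g : F ⧸ V)⁻¹ * (cv : F ⧸ V)⁻¹ = 1
      rw [hcvc]
      exact hcz _ hg
    refine ⟨cv, r, hcvH, hrH, hcvc, hcv, ?_⟩
    obtain ⟨H, hH⟩ : ∃ H, H = c2 s (x * v) := ⟨_, rfl⟩
    rw [← hH] at hrH hsH hcvH ⊢
    have hNn : ((Ncl s (x * v)).subgroupOf H).Normal := by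
      refine ⟨fun a ha g => ?_⟩
      have hg : (g : F) ∈ c2 s (x * v) := by
        rw [← hH]
        exact g.2
      exact Ncl_conj (s := s) (y := x * v) hg ha
    have h2 := cent_cq hq hq2 (H := H) (V.subgroupOf H) ((Ncl s (x * v)).subgroupOf H)
      (fun v hv w hw => Subtype.ext (hab v hv w hw)) (fun v hv => Subtype.ext (hpow v hv))
      (s := ⟨s, hsH⟩) (y := ⟨r, hrH⟩) (c := ⟨cv, hcvH⟩) (Subtype.ext hs)
      (fun τ hτ hτN hτs => Subtype.ext (hfix F hI s (x * v) τ (hxp v hv) hs hτN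
        (congrArg Subtype.val hτs) (by
          obtain ⟨k, hk⟩ := h2M
          have h9 : ((τ : H) : F) ^ 2 = 1 := hpow _ hτ
          rw [hk, pow_mul, h9, one_pow])))
      hcvN (Subtype.ext (by
        change r⁻¹ * s * r = s * cv
        rw [hcv]
        group)) (hLq cv (hL'L cv (by rw [hcvc]; exact hcL'))) (hz s hsT)
      (hz r (by rw [hry']; exact hy2))
    intro t ht htH
    exact congrArg Subtype.val (h2 ⟨t, htH⟩ ht)
  -- the subgroups `B'`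
  have hBv : ∀ v ∈ V, ∃ B' : Subgroup F, (∀ b ∈ B', b ^ q = 1) ∧
      (∀ g ∈ c2 s (x * v), ∀ b ∈ B', g * b * g⁻¹ ∈ B') ∧
      (∀ b ∈ B', (b : F ⧸ V) ∈ N) ∧ (∀ b : F, (b : F ⧸ V) ∈ N → ∃ w ∈ V, b * w ∈ B') ∧
      (∀ b ∈ c2 s (x * v), (b : F ⧸ V) ∈ N → b ^ q = 1 → b ∈ B') := by
    intro v hv
    obtain ⟨cv, r, h1, h2, hcv, -, h6⟩ := hlift v hv
    obtain ⟨H, hH⟩ : ∃ H, H = c2 s (x * v) := ⟨_, rfl⟩
    rw [← hH] at h1 h2 h6 ⊢
    have hHE : H.map (QuotientGroup.mk' V) = E := by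
      rw [hH]
      exact hmapE v hv
    let A : Subgroup F :=
      { carrier := {g | g ∈ H ∧ ∀ t ∈ V, t ∈ H → t * g = g * t}
        one_mem' := ⟨one_mem _, fun t _ _ => by rw [mul_one, one_mul]⟩
        mul_mem' := by
          rintro g g' ⟨hg, hg2⟩ ⟨hg', hg2'⟩
          refine ⟨mul_mem hg hg', fun t ht htH => ?_⟩
          rw [← mul_assoc, hg2 t ht htH, mul_assoc, hg2' t ht htH, mul_assoc]
        inv_mem' := by
          rintro g ⟨hg, hg2⟩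
          refine ⟨inv_mem hg, fun t ht htH => ?_⟩
          rw [eq_inv_mul_iff_mul_eq, ← mul_assoc, ← hg2 t ht htH, mul_inv_cancel_right] }
    have hNA : N ≤ A.map (QuotientGroup.mk' V) := by
      apply hNle
      · rintro g hg _ ⟨y, ⟨hy, hy2⟩, rfl⟩
        rw [← hHE] at hg
        obtain ⟨g, hg, rfl⟩ := hg
        refine ⟨g * y * g⁻¹, ⟨mul_mem (mul_mem hg hy) (inv_mem hg), fun t ht htH => ?_⟩, rfl⟩
        have h7 := hy2 (g⁻¹ * t * g) (by
          have := hVn.conj_mem t ht g⁻¹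
          rwa [inv_inv] at this) (mul_mem (mul_mem (inv_mem hg) htH) hg)
        calc t * (g * y * g⁻¹) = g * ((g⁻¹ * t * g) * y) * g⁻¹ := by group
          _ = g * (y * (g⁻¹ * t * g)) * g⁻¹ := by rw [h7]
          _ = g * y * g⁻¹ * t := by group
      · exact ⟨cv, ⟨h1, h6⟩, hcv⟩
    -- elements of `H` with image in `N`
    obtain ⟨E1, hE1⟩ : ∃ E1, E1 = H ⊓ N.comap (QuotientGroup.mk' V) := ⟨_, rfl⟩
    have hE1m : ∀ y : F, y ∈ E1 ↔ y ∈ H ∧ (y : F ⧸ V) ∈ N := by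
      intro y
      rw [hE1]
      exact Iff.rfl
    have hcen : ∀ y ∈ E1, ∀ t ∈ V, t ∈ H → t * y = y * t := by
      intro y hy t ht htH
      rw [hE1m] at hy
      obtain ⟨g, ⟨hg, hg2⟩, hgy⟩ := hNA hy.2
      have h7 : g⁻¹ * y ∈ V := QuotientGroup.eq.1 hgy
      have h8 := hab _ ht _ h7
      calc t * y = t * g * (g⁻¹ * y) := by group
        _ = g * t * (g⁻¹ * y) := by rw [hg2 t ht htH]
        _ = g * (t * (g⁻¹ * y)) := by group
        _ = g * (g⁻¹ * y * t) := by rw [h8]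
        _ = y * t := by group
    have hrad : ∀ y : E1, y ^ q = 1 → y ∈ Rad (q ^ 1) E1 := by
      intro y hy
      refine nilpG hq (by rw [pow_one]; exact hM.symm) hM.symm (m := M) (fun y => ?_)
        ⊤ inferInstance ?_ (Subgroup.mem_top y) (by rw [pow_one]; exact hy)
      · apply Subtype.ext
        rw [pow_one, mul_comm]
        exact hF y
      · rintro ⟨y, hy⟩ - ⟨z, hz⟩ - hzM
        apply Subtype.ext
        have h7 : (z : F ⧸ V) = 1 := by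
          refine W629.eq_one_of_coprime hM ?_ (hL'q _ (hNL' ((hE1m z).1 hz).2))
          rw [← QuotientGroup.mk_pow]
          have : z ^ M = 1 := congrArg Subtype.val hzM
          rw [this]
          rfl
        exact (hcen y hy z ((QuotientGroup.eq_one_iff z).1 h7) ((hE1m z).1 hz).1).symm
    refine ⟨{ carrier := {b | b ∈ E1 ∧ b ^ q = 1}
              one_mem' := ⟨one_mem _, one_pow _⟩
              mul_mem' := ?_
              inv_mem' := ?_ }, fun b hb => hb.2, ?_, fun b hb => ((hE1m b).1 hb.1).2, ?_, ?_⟩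
    · rintro y z ⟨hy, hy2⟩ ⟨hz, hz2⟩
      refine ⟨mul_mem hy hz, ?_⟩
      have h7 := rad_mul (hrad ⟨y, hy⟩ (Subtype.ext hy2)) (z := ⟨z, hz⟩) (Subtype.ext (by
        rw [Subgroup.coe_pow, pow_one]; exact hz2))
      rw [pow_one] at h7
      exact congrArg Subtype.val h7
    · rintro y ⟨hy, hy2⟩
      exact ⟨inv_mem hy, by rw [inv_pow, hy2, inv_one]⟩
    · rintro g hg y ⟨hy, hy2⟩
      refine ⟨?_, conj_pow_one hy2⟩
      rw [hE1m] at hy ⊢
      refine ⟨mul_mem (mul_mem hg hy.1) (inv_mem hg), hNE (g : F ⧸ V) ?_ _ hy.2⟩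
      rw [← hHE]
      exact ⟨g, hg, rfl⟩
    · intro y hy
      obtain ⟨g, ⟨hg, -⟩, hgy⟩ := hNA hy
      have hgy' : (g : F ⧸ V) = y := hgy
      have h7 : ((g ^ a : F) : F ⧸ V) = y := by
        rw [QuotientGroup.mk_pow, hgy']
        exact ha _ (hL'q _ (hNL' hy))
      refine ⟨y⁻¹ * g ^ a, QuotientGroup.eq.1 h7.symm, ?_, ?_⟩
      · rw [mul_inv_cancel_left, hE1m, h7]
        exact ⟨pow_mem hg a, hy⟩
      · rw [mul_inv_cancel_left, ← pow_mul, ha', show M * a' * q = (M * q) * a' from by ring,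
          pow_mul, hF, one_pow]
    · intro y hy hyN hy3
      exact ⟨(hE1m y).2 ⟨hy, hyN⟩, hy3⟩
  obtain ⟨B, hB1, hB2, hB3, hB4, hB5⟩ := hBv 1 (one_mem _)
  rw [mul_one] at hB2 hB5
  have hsE : s ∈ c2 s x := Subgroup.subset_closure (by simp)
  have hxE : x ∈ c2 s x := Subgroup.subset_closure (by simp)
  have hinvc : ∀ g ∈ c2 s x, ∀ b ∈ B, g⁻¹ * b * g ∈ B := by
    intro g hg b hb
    have := hB2 g⁻¹ (inv_mem hg) b hb
    rwa [inv_inv] at this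
  have hhalf := half' V 2 s x Nat.prime_two inferInstance hab hpow B
    (fun b hb => ⟨q, h2q, hB1 b hb⟩) (hB2 s hsE) (hinvc s hsE) (hB2 x hxE)
    (hinvc x hxE) (by
      intro v hv
      obtain ⟨B', h1, h2, h3, h4, -⟩ := hBv v hv
      exact ⟨B', fun b hb => ⟨q, h2q, h1 b hb⟩,
        h2 s (Subgroup.subset_closure (by simp)), h2 (x * v) (Subgroup.subset_closure (by simp)),
        fun b hb => h4 b (hB3 b hb), fun b hb => hB4 b (h3 b hb)⟩)
  -- the commutator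
  obtain ⟨cv, r, h1, h2, hcv, h5, -⟩ := hlift 1 (one_mem _)
  rw [mul_one] at h1 h2
  have hC0 : ∀ g ∈ c2 s x, ∀ k ∈ V ⊓ Subgroup.centralizer (B : Set F),
      g⁻¹ * k * g ∈ V ⊓ Subgroup.centralizer (B : Set F) := by
    intro g hg k hk
    refine ⟨?_, Subgroup.mem_centralizer_iff.2 fun b hb => ?_⟩
    · have := hVn.conj_mem k hk.1 g⁻¹
      rwa [inv_inv] at this
    · have h6 := (Subgroup.mem_centralizer_iff.1 hk.2) _ (hB2 g hg b hb)
      calc b * (g⁻¹ * k * g) = g⁻¹ * ((g * b * g⁻¹) * k) * g := by group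
        _ = g⁻¹ * (k * (g * b * g⁻¹)) * g := by rw [h6]
        _ = g⁻¹ * k * g * b := by group
  have hbase : ∀ u ∈ V, cv⁻¹ * u * cv * u⁻¹ ∈ V ⊓ Subgroup.centralizer (B : Set F) := by
    intro u hu
    obtain ⟨u', hu'⟩ : ∃ u', u' = s * u * s⁻¹ := ⟨_, rfl⟩
    have hu'V : u' ∈ V := by rw [hu']; exact hVn.conj_mem u hu s
    have h6 := hhalf u' hu'V
    have h7 := hhalf (r * u' * r⁻¹) (hVn.conj_mem u' hu'V r)
    have h8 := hC0 r h2 _ h7
    have h9 := mul_mem h8 (inv_mem h6)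
    have e : cv⁻¹ * u * cv * u⁻¹ = r⁻¹ * (s⁻¹ * (r * u' * r⁻¹) * s * (r * u' * r⁻¹)⁻¹) * r *
        (s⁻¹ * u' * s * u'⁻¹)⁻¹ := by
      rw [h5, hu']
      group
    rw [e]
    exact h9
  have hpows : ∀ k : ℕ, ∀ u ∈ V,
      (cv ^ k)⁻¹ * u * cv ^ k * u⁻¹ ∈ V ⊓ Subgroup.centralizer (B : Set F) := by
    intro k
    induction k with
    | zero =>
      intro u hu
      have e : (cv ^ 0)⁻¹ * u * cv ^ 0 * u⁻¹ = 1 := by group
      rw [e]
      exact one_mem _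
    | succ k ih =>
      intro u hu
      have h6 := mul_mem (hC0 cv h1 _ (ih u hu)) (hbase u hu)
      have e : cv⁻¹ * ((cv ^ k)⁻¹ * u * cv ^ k * u⁻¹) * cv * (cv⁻¹ * u * cv * u⁻¹) =
          (cv ^ (k + 1))⁻¹ * u * cv ^ (k + 1) * u⁻¹ := by
        rw [pow_succ]
        group
      rwa [e] at h6
  obtain ⟨c', hc'⟩ : ∃ c', c' = cv ^ a := ⟨_, rfl⟩
  have hc'q : c' ^ q = 1 := by
    rw [hc', ← pow_mul, ha', show M * a' * q = (M * q) * a' from by ring, pow_mul, hF, one_pow]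
  have hc'c : (c' : F ⧸ V) = c := by
    rw [hc', QuotientGroup.mk_pow, hcv]
    exact ha _ (hL'q c hcL')
  have hc'B : c' ∈ B := hB5 c' (by rw [hc']; exact pow_mem h1 a) (by rw [hc'c]; exact hcN) hc'q
  have hcomm : ∀ u ∈ V, c' * u = u * c' := by
    intro u hu
    obtain ⟨κ, hκ⟩ : ∃ κ, κ = c'⁻¹ * u * c' * u⁻¹ := ⟨_, rfl⟩
    have hκC : κ ∈ V ⊓ Subgroup.centralizer (B : Set F) := by
      rw [hκ, hc']
      exact hpows a u hu
    have hcm : Commute c' κ := (Subgroup.mem_centralizer_iff.1 hκC.2) c' hc'B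
    have h6 := comm_pow (x := c'⁻¹) (y := u) (c := κ) (by rw [hκ, inv_inv]) hcm.inv_left q
    have h7 : κ ^ q = 1 := by
      rw [← h6, inv_pow, hc'q]
      group
    have h8 := W629.eq_one_of_coprime h2q h7 (hpow κ hκC.1)
    rw [h8, eq_comm, mul_inv_eq_one, mul_assoc, inv_mul_eq_iff_eq_mul] at hκ
    exact hκ.symm
  have h6 := hC c' (hL'L c' (by rw [hc'c]; exact hcL')) hcomm
  rw [← hc'c]
  exact (QuotientGroup.eq_one_iff c').2 h6

/-- the configuration of the theorem does not occur -/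
theorem no_confQF' {G : Type} [Group G] {M q α m : ℕ} (hq : q.Prime) (hq2 : q ≠ 2)
    (hM : Nat.Coprime M q) (h2M : 2 ∣ M) (hfix : FixF G q M) (hMm : M * q = 2 ^ α * m)
    (hα : 1 ≤ α) (h2m : ¬ 2 ∣ m)
    {F : Type} [Group F] [Finite F]
    (hI : Im G F) (hF : ∀ x : F, x ^ (2 ^ α * m) = 1) {x : F} (hx : x ^ 2 ^ α = 1)
    (V L : Subgroup F) [hV : V.Normal] (hVL : V ≤ L)
    (hab : ∀ v ∈ V, ∀ w ∈ V, v * w = w * v) (hpow : ∀ v ∈ V, v ^ 2 = 1)
    (hLq : ∀ y ∈ L, y ^ q ∈ V) (hxL : ∀ y ∈ L, x * y * x⁻¹ ∈ L)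
    (hC : ∀ y ∈ L, (∀ v ∈ V, y * v = v * y) → y ∈ V) {s : F} (hs : s ∈ L) (hsq : s ^ q = 1) :
    x ^ 2 ^ (α - 1) * s * (x ^ 2 ^ (α - 1))⁻¹ * s⁻¹ ∈ V := by
  classical
  have hFM : ∀ x : F, x ^ (M * q) = 1 := by
    rw [hMm]
    exact hF
  have hMpos : 0 < M * q := by
    rw [hMm]
    have : m ≠ 0 := by
      rintro rfl
      exact h2m (dvd_zero _)
    positivity
  obtain ⟨L', hL'⟩ : ∃ L', L' = L.map (QuotientGroup.mk' V) := ⟨_, rfl⟩
  have hL'q : ∀ y ∈ L', y ^ q = 1 := by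
    intro y hy
    rw [hL'] at hy
    obtain ⟨l, hl, rfl⟩ := hy
    have := hLq l hl
    rw [← QuotientGroup.eq_one_iff, QuotientGroup.mk_pow] at this
    exact this
  have hL'L : ∀ y : F, (y : F ⧸ V) ∈ L' → y ∈ L := by
    intro y hy
    rw [hL'] at hy
    obtain ⟨l, hl, e⟩ := hy
    have h1 : l⁻¹ * y ∈ V := QuotientGroup.eq.1 e
    have h2 := mul_mem hl (hVL h1)
    rwa [mul_inv_cancel_left] at h2
  have hsL' : (s : F ⧸ V) ∈ L' := by
    rw [hL']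
    exact ⟨s, hs, rfl⟩
  obtain ⟨T, hT⟩ : ∃ T, T = Ncl (s : F ⧸ V) (x : F ⧸ V) := ⟨_, rfl⟩
  have hTL : T ≤ L' := by
    rw [hT]
    refine Ncl_le ?_ hsL'
    have h1 : c2 (s : F ⧸ V) (x : F ⧸ V) ≤ Subgroup.normalizer (L' : Set (F ⧸ V)) := by
      refine c2_le (Subgroup.le_normalizer hsL') ?_
      refine mem_norm hMpos (by rw [← QuotientGroup.mk_pow, hFM]; rfl) ?_
      intro y hy
      rw [hL'] at hy ⊢
      obtain ⟨l, hl, rfl⟩ := hy
      exact ⟨x * l * x⁻¹, hxL l hl, rfl⟩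
    intro g hg y hy
    exact ((Subgroup.mem_normalizer_iff.1 (h1 hg)) y).1 hy
  have hTc : ∀ a ∈ T, ∀ b ∈ T, a * b = b * a := by
    rw [hT]
    refine ncl_comm hq (by rw [← hT]; exact fun y hy => hL'q y (hTL hy)) fun y hy hyz => ?_
    obtain ⟨c, hc⟩ : ∃ c : F ⧸ V, c = (s : F ⧸ V)⁻¹ * (y⁻¹ * s * y) := ⟨_, rfl⟩
    have hsT := self_mem_Ncl (s : F ⧸ V) (x : F ⧸ V)
    have h1 := comm_mod_qF hq hq2 hM h2M hfix hI hFM hMpos V hab hpow L hVL hLq hC (x := x) (s := s)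
      (pp_xv hx V hpow)
      hsq hs hxL hy hc (by
        intro g hg
        -- the commutator is central
        have h2 := hyz (s : F ⧸ V)⁻¹ (inv_mem hsT)
        -- `c = y⁻¹ * (y * s⁻¹ * y⁻¹ * s) ...`
        have h3 : c = y⁻¹ * ((s : F ⧸ V)⁻¹ * y * (s : F ⧸ V)⁻¹⁻¹ * y⁻¹)⁻¹ * y := by
          rw [hc]
          group
        obtain ⟨k, hk⟩ : ∃ k, k = (s : F ⧸ V)⁻¹ * y * (s : F ⧸ V)⁻¹⁻¹ * y⁻¹ := ⟨_, rfl⟩
        rw [← hk] at h3
        have h4 : ∀ t' ∈ Ncl (s : F ⧸ V) (x : F ⧸ V), k * t' = t' * k := by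
          rw [hk]
          exact h2
        have h5 : c = k⁻¹ := by
          have h6 := h4 y hy
          rw [h3]
          calc y⁻¹ * k⁻¹ * y = (y⁻¹ * (k * y))⁻¹ * (y⁻¹ * (k * y)) * (y⁻¹ * k⁻¹ * y) := by group
            _ = (y⁻¹ * (y * k))⁻¹ * (y⁻¹ * (k * y)) * (y⁻¹ * k⁻¹ * y) := by rw [h6]
            _ = k⁻¹ := by group
        rw [h5]
        have h7 := h4 g hg
        calc g * k⁻¹ * g⁻¹ * k⁻¹⁻¹ = g * k⁻¹ * g⁻¹ * k := by group
          _ = g * k⁻¹ * g⁻¹ * (k * g) * g⁻¹ := by group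
          _ = g * k⁻¹ * g⁻¹ * (g * k) * g⁻¹ := by rw [h7]
          _ = 1 := by group)
    rw [h1] at hc
    have h2 : y * (s : F ⧸ V) = y * (s * ((s : F ⧸ V)⁻¹ * (y⁻¹ * s * y))) := by
      rw [← hc, mul_one]
    rw [h2]
    group
  have hTx : ∀ y ∈ T, (x : F ⧸ V) * y * (x : F ⧸ V)⁻¹ ∈ T := by
    intro y hy
    rw [hT] at hy ⊢
    exact Ncl_conj (Subgroup.subset_closure (by simp)) hy
  -- the preimage
  obtain ⟨Lq, hLq'⟩ : ∃ Lq, Lq = T.comap (QuotientGroup.mk' V) := ⟨_, rfl⟩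
  have hLqm : ∀ y : F, y ∈ Lq ↔ (y : F ⧸ V) ∈ T := by
    intro y
    rw [hLq']
    rfl
  have hVq : V ≤ Lq := by
    intro v hv
    rw [hLqm, (QuotientGroup.eq_one_iff v).2 hv]
    exact one_mem _
  have hLqL : Lq ≤ L := by
    intro y hy
    rw [hLqm] at hy
    exact hL'L y (hTL hy)
  have hxq : ∀ y ∈ Lq, x * y * x⁻¹ ∈ Lq := by
    intro y hy
    rw [hLqm] at hy ⊢
    exact hTx _ hy
  have hxn : x ∈ Subgroup.normalizer (Lq : Set F) := mem_norm (Nat.pow_pos (by norm_num)) hx hxq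
  obtain ⟨F', hF'⟩ : ∃ F', F' = XZs Lq x hxn := ⟨_, rfl⟩
  have hxF' : x ∈ F' := by
    rw [hF']
    refine ⟨-1, ?_⟩
    rw [zpow_neg_one, mul_inv_cancel]
    exact one_mem _
  have hLF' : Lq ≤ F' := by
    intro y hy
    rw [hF']
    refine ⟨0, ?_⟩
    rwa [zpow_zero, mul_one]
  have hF'n : F' ≤ Subgroup.normalizer (Lq : Set F) := by
    intro y hy
    rw [hF'] at hy
    obtain ⟨j, hj⟩ := hy
    have h1 := mul_mem (Subgroup.le_normalizer hj) (inv_mem (zpow_mem hxn j))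
    rwa [mul_inv_cancel_right] at h1
  -- the exponent
  have h2q : Nat.Coprime 2 q := (Nat.coprime_primes Nat.prime_two hq).2 hq2.symm
  obtain ⟨m', hm'⟩ : q ∣ m := by
    have h1 : q ∣ 2 ^ α * m := by
      rw [← hMm]
      exact dvd_mul_left _ _
    exact Nat.Coprime.dvd_of_dvd_mul_left (Nat.Coprime.pow_right _ h2q.symm) h1
  have hqm' : Nat.Coprime q m' := by
    have h1 : M = 2 ^ α * m' := by
      have h2 : M * q = (2 ^ α * m') * q := by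
        rw [hMm, hm']
        ring
      exact Nat.eq_of_mul_eq_mul_right hq.pos h2
    rw [h1] at hM
    exact (Nat.Coprime.coprime_mul_left hM).symm
  have h2m' : Nat.Coprime 2 m' := by
    rw [Nat.Prime.coprime_iff_not_dvd Nat.prime_two]
    intro h
    apply h2m
    rw [hm']
    exact h.trans (dvd_mul_left _ _)
  have hexp : ∀ y : F', y ^ (2 ^ α * q ^ 1) = 1 := by
    rintro ⟨y, hy⟩
    apply Subtype.ext
    change y ^ (2 ^ α * q ^ 1) = 1
    have hy' := hy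
    rw [hF'] at hy'
    obtain ⟨j, hj⟩ := hy'
    have h1 := xz_pow hxn hx hj
    have h2 := hpow _ (hLq _ (hLqL h1))
    have h3 : y ^ (2 ^ (α + 1) * q) = 1 := by
      rw [← h2, ← pow_mul, ← pow_mul]
      congr 1
      ring
    have h4 := orderOf_dvd_of_pow_eq_one h3
    have h5 := orderOf_dvd_of_pow_eq_one (hF y)
    rw [hm', ← mul_assoc] at h5
    apply orderOf_dvd_iff_pow_eq_one.1
    rw [pow_one]
    refine Nat.Coprime.dvd_of_dvd_mul_right ?_ h5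
    refine Nat.Coprime.coprime_dvd_left h4 (Nat.Coprime.mul_left ?_ hqm')
    exact Nat.Coprime.pow_left _ h2m'
  have hsq' : s ∈ Lq := by
    rw [hLqm, hT]
    exact self_mem_Ncl _ _
  have h6 := no_confC (p := 2) (q := q) (β := 1) Nat.prime_two hq hq2.symm hα
    (F := F') hexp (x := ⟨x, hxF'⟩) (Subtype.ext hx) (V.subgroupOf F') (Lq.subgroupOf F')
    ⟨fun v hv g => hV.conj_mem v hv g⟩
    ⟨fun v hv g => ((Subgroup.mem_normalizer_iff.1 (hF'n g.2)) v).1 hv⟩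
    (fun v hv => hVq hv) (fun v hv w hw => Subtype.ext (hab v hv w hw))
    (fun v hv => Subtype.ext (hpow v hv))
    (fun y hy => by
      change (y : F) ^ q ^ 1 ∈ V
      rw [pow_one]
      exact hLq y (hLqL hy))
    (fun a ha b hb => by
      change (a : F) * b * (a : F)⁻¹ * (b : F)⁻¹ ∈ V
      have h7 := hTc _ ((hLqm a).1 ha) _ ((hLqm b).1 hb)
      rw [← QuotientGroup.eq_one_iff]
      change ((a : F) : F ⧸ V) * ((b : F) : F ⧸ V) * ((a : F) : F ⧸ V)⁻¹ *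
        ((b : F) : F ⧸ V)⁻¹ = 1
      rw [h7]
      group)
    (fun y hy hyv => hC y (hLqL hy) fun v hv =>
      congrArg Subtype.val (hyv ⟨v, hLF' (hVq hv)⟩ hv))
    (s := ⟨s, hLF' hsq'⟩) hsq'
  exact h6

/-- the configuration of the theorem does not occur -/
theorem no_confQF {G : Type} [Group G] {M q α m : ℕ} (hq : q.Prime) (hq2 : q ≠ 2)
    (hM : Nat.Coprime M q) (h2M : 2 ∣ M) (hfix : FixF G q M) (hMm : M * q = 2 ^ α * m)
    (hα : 1 ≤ α) (h2m : ¬ 2 ∣ m)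
    {F : Type} [Group F] [Finite F]
    (hI : Im G F) (hF : ∀ x : F, x ^ (2 ^ α * m) = 1) {x : F} (hx : x ^ 2 ^ α = 1)
    (V L : Subgroup F) [hV : V.Normal] (hVL : V ≤ L)
    (hab : ∀ v ∈ V, ∀ w ∈ V, v * w = w * v) (hpow : ∀ v ∈ V, v ^ 2 = 1)
    (hLq : ∀ y ∈ L, y ^ q ∈ V) (hxL : ∀ y ∈ L, x * y * x⁻¹ ∈ L)
    (hC : ∀ y ∈ L, (∀ v ∈ V, y * v = v * y) → y ∈ V) {s : F} (hs : s ∈ L) :
    x ^ 2 ^ (α - 1) * s * (x ^ 2 ^ (α - 1))⁻¹ * s⁻¹ ∈ V := by
  have hFM : ∀ x : F, x ^ (M * q) = 1 := by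
    rw [hMm]
    exact hF
  obtain ⟨a, b, ⟨a', ha'⟩, -, ha, -, -⟩ := crt hM
  have h1 : (s ^ a) ^ q = 1 := by
    rw [← pow_mul, ha', show M * a' * q = (M * q) * a' from by ring, pow_mul, hFM, one_pow]
  have h2 := no_confQF' hq hq2 hM h2M hfix hMm hα h2m hI hF hx V L hVL hab hpow hLq hxL hC
    (s := s ^ a) (pow_mem hs a) h1
  have h3 : (s : F ⧸ V) ^ a = s := by
    apply ha
    rw [← QuotientGroup.mk_pow, QuotientGroup.eq_one_iff]
    exact hLq s hs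
  generalize x ^ 2 ^ (α - 1) = z at h2 ⊢
  rw [← QuotientGroup.eq_one_iff] at h2 ⊢
  have h4 : (z : F ⧸ V) * (s : F ⧸ V) ^ a * (z : F ⧸ V)⁻¹ * ((s : F ⧸ V) ^ a)⁻¹ = 1 := h2
  rw [h3] at h4
  exact h4

/-- the centraliser lemma for primes dividing the exponent exactly once -/
theorem fixF {G : Type} [Group G] {n M q : ℕ} (S : Sf n G) (hq : q.Prime) (hM : Nat.Coprime M q)
    (hn : M * q = n) (rM : Rad M G = ⊥) (hex : ∀ s : ℕ, s.Prime → s ∣ M → ∀ r, 1 ≤ r →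
      s ^ r ≠ q - 1) : FixF G q M := by
  intro F _ hI s h τ hh hs hτN hτs hτ
  refine cqf (β := 1) S hq hM (by rw [pow_one]; exact hn) rM (fun s hs => ?_) hI hh
    (by rw [pow_one]; exact hs) hτN hτs hτ
  have h1 := ss_of_maxF S hq ((Nat.Prime.coprime_iff_not_dvd hq).1 hM.symm)
    (by rw [pow_one, mul_comm]; exact hn) le_rfl (x := s) (by
      intro r hr hrM μ hμ1 hμ2 k hk
      have h2 : μ = 1 := le_antisymm hμ2 hμ1
      rw [h2, pow_one]
      exact hex r hr hrM k hk) hs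
  rw [Nat.sub_self, pow_zero, pow_one s] at h1
  exact h1

/-- the prime three, dividing the exponent once -/
theorem noC_threeF {G : Type} [Group G] {n M α m : ℕ} (S : Sf n G) (hM : Nat.Coprime M 3)
    (hn : M * 3 = n) (rM : Rad M G = ⊥) (hα : 1 ≤ α) (h2m : ¬ 2 ∣ m) (hm : 2 ^ α * m = n) :
    NoC G α m 3 := by
  intro F _ _ hI hF x hx V L hV hVL hab hpow hLq hxL hC s hs
  obtain ⟨m', hm', hqm'⟩ := fac_once Nat.prime_three (by norm_num) hM (hn.trans hm.symm)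
  refine no_conf3F S hM hn rM hα h2m hm hI hF hx V L hVL hab hpow (fun y hy => ?_) hxL hC hs
  obtain ⟨j, hj⟩ := hLq y hy
  have h1 := pow_mem_of (a := 2 ^ α) Nat.prime_three (Nat.Coprime.pow_right _ (by norm_num)) hqm'
    (by rw [← hm']; exact hF y) hj
  rwa [pow_one] at h1

/-- primes dividing the exponent once -/
theorem noC_onceF {G : Type} [Group G] {n M q α m : ℕ} (S : Sf n G) (hq : q.Prime) (hq2 : q ≠ 2)
    (hM : Nat.Coprime M q) (hn : M * q = n) (rM : Rad M G = ⊥)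
    (hex : ∀ s : ℕ, s.Prime → s ∣ M → ∀ r, 1 ≤ r → s ^ r ≠ q - 1) (hα : 1 ≤ α) (h2m : ¬ 2 ∣ m)
    (hm : 2 ^ α * m = n) : NoC G α m q := by
  intro F _ _ hI hF x hx V L hV hVL hab hpow hLq hxL hC s hs
  obtain ⟨m', hm', hqm'⟩ := fac_once hq hq2 hM (hn.trans hm.symm)
  have h2q : Nat.Coprime 2 q := (Nat.coprime_primes Nat.prime_two hq).2 hq2.symm
  have h2M : 2 ∣ M := by
    have h1 : 2 ∣ M * q := by
      rw [hn, ← hm]
      exact (dvd_pow_self 2 (by omega)).trans (dvd_mul_right _ _)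
    exact h2q.dvd_of_dvd_mul_right h1
  refine no_confQF hq hq2 hM h2M (fixF S hq hM hn rM hex) (hn.trans hm.symm) hα h2m hI hF hx V L hVL
    hab hpow (fun y hy => ?_) hxL hC hs
  obtain ⟨j, hj⟩ := hLq y hy
  have h1 := pow_mem_of (a := 2 ^ α) hq (Nat.Coprime.pow_right _ h2q.symm) hqm'
    (by rw [← hm']; exact hF y) hj
  rwa [pow_one] at h1

/-- powers of elements of maximal order -/
theorem ss_of_max2F {G : Type} [Group G] {n α m : ℕ} (S : Sf n G) (hα : 1 ≤ α) (hpm : ¬ 2 ∣ m)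
    (hmn : 2 ^ α * m = n) (hNC : ∀ q : ℕ, q.Prime → q ∣ m → NoC G α m q)
    {x : G} (hx : x ^ 2 ^ α = 1) : SG (2 ^ α) m (x ^ 2 ^ (α - 1)) := by
  have hp := Nat.prime_two
  have hpm' : Nat.Coprime 2 m := (Nat.Prime.coprime_iff_not_dvd hp).2 hpm
  have hexp : ∀ x : G, x ^ (2 ^ α * m) = 1 := by rw [hmn]; exact S.exp
  have hz : (x ^ 2 ^ (α - 1)) ^ 2 ^ α = 1 := by rw [← pow_mul, mul_comm, pow_mul, hx, one_pow]
  refine ⟨hz, fun E hE hEs hzE => ?_⟩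
  obtain ⟨z, hzx⟩ : ∃ z, z = x ^ 2 ^ (α - 1) := ⟨_, rfl⟩
  rw [← hzx] at hz hzE ⊢
  have hh : ∀ (K : Subgroup G), Finite K → Group.IsSolvable K → ∀ x : K, x ^ 2 ^ α = 1 →
      TT (2 ^ α) m ⊤ (x ^ 2 ^ (α - 1)) := by
    intro K hK hKs x hx
    refine ind_TTG hp hpm' (fun F _ z => (∃ x : F, x ^ 2 ^ α = 1 ∧ z = x ^ 2 ^ (α - 1)) ∧ Im G F)
      ?_ ?_ (Nat.card K) K le_rfl (exp_sub hexp K) hKs _ ?_ ⟨⟨x, hx, rfl⟩, Im.self K hK hKs⟩
    · rintro F _ N _ _ ⟨⟨x, hx, rfl⟩, hI⟩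
      exact ⟨⟨x, by rw [← QuotientGroup.mk_pow, hx]; rfl, by rw [QuotientGroup.mk_pow]⟩,
        hI.quot N⟩
    · rintro F _ _ hF _ - ⟨⟨x, hx, rfl⟩, hI⟩ V L hV hL hVL hVab hVp hLQ hC s hs _
      exact no_confH hpm hNC hI hF hx V L hV hL hVL hVab hVp hLQ hC hs
    · rw [← pow_mul, mul_comm, pow_mul, hx, one_pow]
  have key : ∀ f : G, TT (2 ^ α) m (c2 z f) z := by
    intro f
    have hfin := S.fin' x f (PP.of hp hx)
    have hxm : x ∈ c2 x f := Subgroup.subset_closure (by simp)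
    have hfm : f ∈ c2 x f := Subgroup.subset_closure (by simp)
    have h1 := hh (c2 x f) (S.fin' x f (PP.of hp hx)) (S.sol' x f (PP.of hp hx)) (⟨x, hxm⟩) (Subtype.ext hx)
    have h2 := h1.map (c2 x f).subtype
    rw [← MonoidHom.range_eq_map, Subgroup.range_subtype] at h2
    have h3 : (c2 x f).subtype ((⟨x, hxm⟩ : c2 x f) ^ 2 ^ (α - 1)) = z := by
      rw [hzx]
      rfl
    rw [h3] at h2
    refine h2.mono ?_
    unfold c2
    rw [Subgroup.closure_le]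
    rintro y (rfl | hy)
    · rw [hzx]
      exact pow_mem hxm _
    · rw [Set.mem_singleton_iff.1 hy]
      exact hfm
  have h4 := bsG hp hpm' (exp_sub hexp E) hEs (z := ⟨z, hzE⟩) (Subtype.ext hz) (by
    intro f
    refine TT.comap E.subtype E.subtype_injective ?_
    have h5 : (c2 (⟨z, hzE⟩ : E) f).map E.subtype = c2 z (f : G) := by
      unfold c2
      rw [MonoidHom.map_closure, Set.image_pair]
      rfl
    rw [h5]
    exact key f)
  have h5 := h4.map E.subtype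
  rw [← MonoidHom.range_eq_map, Subgroup.range_subtype] at h5
  exact h5

end Pool.Agent.N6.Pf
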