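import Mathlib
import Pool.Agent.TH69.OkF
import Pool.Agent.N6.NoCx

set_option autoImplicit false

/-!
# Groups of exponent `n` with finite soluble two-generator subgroups: the induction, for more
# exponents
-/

namespace Pool.Agent.N6.TrN

open Pool.Agent.H32BU Pool.Agent.W629 Pool.Agent.TH69.Mtn Pool.Agent.TH69.Od Pool.Agent.TH69.Og
open Pool.Agent.TH69.Oh Pool.Agent.TH69.Ok Pool.Agent.TH69.Pq

universe u v

/-- the condition on the odd primes whose squares divide `n` -/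
def Sq (n : ℕ) : Prop := ∀ p q r : ℕ, p.Prime → q.Prime → r.Prime → 2 < p → p < q → q < r →
  p ^ 2 ∣ n → q ^ 2 ∣ n → r ^ 2 ∣ n → p ∣ r - 1 ∧ (p ∣ q - 1 ∨ q ∣ r - 1)

theorem Sq.of_dvd {n m : ℕ} (C : Sq n) (h : m ∣ n) : Sq m :=
  fun p q r hp hq hr h2 hpq hqr h3 h4 h5 =>
    C p q r hp hq hr h2 hpq hqr (h3.trans h) (h4.trans h) (h5.trans h)

/-- there are no elements of the exceptional orders -/
def NoEl (n : ℕ) (G : Type u) [Group G] : Prop := ∀ m : ℕ, 2 ≤ m → (2 ^ m - 1).Prime →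
  2 ^ m * (2 ^ m - 1) ^ 2 ∣ n → ∀ g : G, orderOf g ≠ 2 ^ m * (2 ^ m - 1)

theorem NoEl.sub {n m : ℕ} {G : Type u} [Group G] (h : NoEl n G) (hmn : m ∣ n) (K : Subgroup G) :
    NoEl m K := by
  intro k hk hk2 hd g
  rw [← Subgroup.orderOf_coe]
  exact h k hk hk2 (hd.trans hmn) g

/-- the `2`-length is at most one -/
def TL1 (K : Type u) [Group K] : Prop := ∃ A B : Subgroup K, A.Normal ∧ B.Normal ∧ A ≤ B ∧
  (∀ x ∈ A, Odd (orderOf x)) ∧ (∀ x ∈ B, ∃ k : ℕ, x ^ 2 ^ k ∈ A) ∧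
  ∀ x : K, ∃ k : ℕ, Odd k ∧ x ^ k ∈ B

theorem TL1.of_injective {K : Type u} {L : Type v} [Group K] [Group L] (f : K →* L)
    (hf : Function.Injective f) (h : TL1 L) : TL1 K := by
  obtain ⟨A, B, hA, hB, h1, h2, h3, h4⟩ := h
  refine ⟨A.comap f, B.comap f, inferInstance, inferInstance, Subgroup.comap_mono h1,
    fun x hx => ?_, fun x hx => ?_, fun x => ?_⟩
  · rw [← orderOf_injective f hf]
    exact h2 _ hx
  · obtain ⟨k, hk⟩ := h3 _ hx
    exact ⟨k, by rw [Subgroup.mem_comap, map_pow]; exact hk⟩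
  · obtain ⟨k, hk, hk2⟩ := h4 (f x)
    exact ⟨k, hk, by rw [Subgroup.mem_comap, map_pow]; exact hk2⟩

theorem TL1.of_surjective {K : Type u} {L : Type v} [Group K] [Group L] (f : K →* L)
    (hf : Function.Surjective f) (h : TL1 K) : TL1 L := by
  obtain ⟨A, B, hA, hB, h1, h2, h3, h4⟩ := h
  refine ⟨A.map f, B.map f, hA.map f hf, hB.map f hf, Subgroup.map_mono h1, ?_, ?_, fun x => ?_⟩
  · rintro _ ⟨x, hx, rfl⟩
    exact Odd.of_dvd_nat (h2 x hx) (orderOf_map_dvd f x)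
  · rintro _ ⟨x, hx, rfl⟩
    obtain ⟨k, hk⟩ := h3 x hx
    exact ⟨k, x ^ 2 ^ k, hk, map_pow f x _⟩
  · obtain ⟨x, rfl⟩ := hf x
    obtain ⟨k, hk, hk2⟩ := h4 x
    exact ⟨k, hk, x ^ k, hk2, map_pow f x k⟩

/-- the condition on the group: no elements of the exceptional orders, or two-generator subgroups of
`2`-length at most one -/
def Gd (n : ℕ) (G : Type u) [Group G] : Prop :=
  NoEl n G ∨ ∀ x y : G, TL1 (Subgroup.closure {x, y})

theorem map_pair {K : Type u} {L : Type v} [Group K] [Group L] (f : K →* L) (x y : K) :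
    (Subgroup.closure {x, y}).map f = Subgroup.closure {f x, f y} := by
  rw [MonoidHom.map_closure, Set.image_pair]

theorem Gd.of_injective {n m : ℕ} {K : Type u} {L : Type v} [Group K] [Group L] (f : K →* L)
    (hf : Function.Injective f) (hmn : m ∣ n) (h : Gd n L) : Gd m K := by
  rcases h with h | h
  · left
    intro k hk hk2 hd g
    rw [← orderOf_injective f hf]
    exact h k hk hk2 (hd.trans hmn) (f g)
  · right
    intro x y
    have h1 := h (f x) (f y)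
    rw [← map_pair] at h1
    exact TL1.of_injective (f.subgroupMap (Subgroup.closure {x, y}))
      (fun a b hab => Subtype.ext (hf (congrArg Subtype.val hab))) h1

theorem Gd.sub {n m : ℕ} {G : Type u} [Group G] (h : Gd n G) (hmn : m ∣ n) (K : Subgroup G) :
    Gd m K := h.of_injective K.subtype K.subtype_injective hmn

theorem Gd.of_surjective {n : ℕ} (hn : n ≠ 0) {K : Type u} {L : Type v} [Group K] [Group L]
    (hK : ∀ x : K, x ^ n = 1) (f : K →* L) (hf : Function.Surjective f) (h : Gd n K) :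
    Gd n L := by
  rcases h with h | h
  · left
    intro k hk hk2 hd g hg
    obtain ⟨x, rfl⟩ := hf g
    have h8 : orderOf x ≠ 0 := by
      intro h8
      rw [orderOf_eq_zero_iff'] at h8
      exact h8 n (Nat.pos_of_ne_zero hn) (hK x)
    have h9 : 2 ^ k * (2 ^ k - 1) ∣ orderOf x := by
      rw [← hg]
      exact orderOf_map_dvd f x
    exact h k hk hk2 hd _ (orderOf_pow_orderOf_div h8 h9)
  · right
    intro x y
    obtain ⟨x, rfl⟩ := hf x
    obtain ⟨y, rfl⟩ := hf y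
    have h1 := TL1.of_surjective (f.subgroupMap (Subgroup.closure {x, y}))
      (f.subgroupMap_surjective _) (h x y)
    rwa [map_pair] at h1

theorem tt_of_TL1 {α m : ℕ} {G : Type} [Group G] (hexp : ∀ x : G, x ^ (2 ^ α * m) = 1)
    (hm : ¬ 2 ∣ m) {z f : G} (hz : z ^ 2 ^ α = 1) (h : TL1 (c2 z f)) :
    TT (2 ^ α) m (c2 z f) z := by
  obtain ⟨A, B, hA, hB, h1, h2, h3, h4⟩ := h
  have hcop : Nat.Coprime 2 m := (Nat.Prime.coprime_iff_not_dvd Nat.prime_two).2 hm
  refine ⟨A.map (c2 z f).subtype, B.map (c2 z f).subtype, ?_, ?_, ?_, ?_, ?_⟩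
  · rintro g hg _ ⟨x, hx, rfl⟩
    exact ⟨⟨g, hg⟩ * x * ⟨g, hg⟩⁻¹, hA.conj_mem x hx _, rfl⟩
  · rintro g hg _ ⟨x, hx, rfl⟩
    exact ⟨⟨g, hg⟩ * x * ⟨g, hg⟩⁻¹, hB.conj_mem x hx _, rfl⟩
  · rintro _ ⟨x, hx, rfl⟩
    have h5 := h2 x hx
    have h6 : x ^ (2 ^ α * m) = 1 := Subtype.ext (by simpa using hexp (x : G))
    have h7 : orderOf x ∣ m := by
      have h8 := orderOf_dvd_of_pow_eq_one h6
      refine Nat.Coprime.dvd_of_dvd_mul_left ?_ h8
      exact Nat.Coprime.pow_right _ (Nat.coprime_two_right.2 h5)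
    rw [← map_pow, orderOf_dvd_iff_pow_eq_one.1 h7, map_one]
  · rintro _ ⟨x, hx, rfl⟩
    obtain ⟨k, hk⟩ := h3 x hx
    have h6 : x ^ (2 ^ α * m) = 1 := Subtype.ext (by simpa using hexp (x : G))
    refine ⟨x ^ 2 ^ α, ?_, map_pow _ _ _⟩
    rw [SetLike.mem_coe, ← QuotientGroup.eq_one_iff, QuotientGroup.mk_pow]
    apply orderOf_dvd_iff_pow_eq_one.1
    have h7 : orderOf (x : c2 z f ⧸ A) ∣ 2 ^ k := by
      apply orderOf_dvd_of_pow_eq_one
      rw [← QuotientGroup.mk_pow, QuotientGroup.eq_one_iff]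
      exact hk
    have h8 : orderOf (x : c2 z f ⧸ A) ∣ 2 ^ α * m := by
      apply orderOf_dvd_of_pow_eq_one
      rw [← QuotientGroup.mk_pow, h6]
      rfl
    refine Nat.Coprime.dvd_of_dvd_mul_right ?_ h8
    exact Nat.Coprime.coprime_dvd_left h7 (Nat.Coprime.pow_left _ hcop)
  · have hzm : z ∈ c2 z f := Subgroup.subset_closure (by simp)
    obtain ⟨k, hk, hk2⟩ := h4 ⟨z, hzm⟩
    refine ⟨⟨z, hzm⟩, ?_, rfl⟩
    rw [SetLike.mem_coe, ← QuotientGroup.eq_one_iff]
    refine W629.eq_one_of_coprime (a := k) (b := 2 ^ α) ?_ ?_ ?_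
    · exact Nat.Coprime.pow_right _ (Nat.coprime_two_right.2 hk)
    · rw [← QuotientGroup.mk_pow, QuotientGroup.eq_one_iff]
      exact hk2
    · have h5 : (⟨z, hzm⟩ : c2 z f) ^ 2 ^ α = 1 := Subtype.ext (by simpa using hz)
      rw [← QuotientGroup.mk_pow, h5]
      rfl

/-- two-generator subgroups of `2`-length at most one -/
theorem ss_of_TL1 {α m : ℕ} {G : Type} [Group G] (hexp : ∀ x : G, x ^ (2 ^ α * m) = 1)
    (hm : ¬ 2 ∣ m) (h : ∀ x y : G, TL1 (Subgroup.closure {x, y})) {z : G} (hz : z ^ 2 ^ α = 1) :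
    SG (2 ^ α) m z := by
  have hcop : Nat.Coprime 2 m := (Nat.Prime.coprime_iff_not_dvd Nat.prime_two).2 hm
  refine ⟨hz, fun E hE hEs hzE => ?_⟩
  have h4 := bsG Nat.prime_two hcop (exp_sub hexp E) hEs (z := ⟨z, hzE⟩) (Subtype.ext hz) (by
    intro f
    refine TT.comap E.subtype E.subtype_injective ?_
    have h5 : (c2 (⟨z, hzE⟩ : E) f).map E.subtype = c2 z (f : G) := by
      unfold c2
      rw [MonoidHom.map_closure, Set.image_pair]
      rfl
    rw [h5]
    exact tt_of_TL1 hexp hm hz (h z f))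
  have h5 := h4.map E.subtype
  rw [← MonoidHom.range_eq_map, Subgroup.range_subtype] at h5
  exact h5

/-- the main theorem for groups without normal subgroups of prime power exponent -/
theorem trivN : ∀ n : ℕ, Sq n → ∀ {G : Type} [Group G], Gd n G → Sg n G →
    (∀ p : ℕ, p.Prime → Rad (qp p n) G = ⊥) → ∀ x : G, x = 1 := by
  intro n
  induction n using Nat.strong_induction_on with
  | _ n ih =>
  intro C G _ NE S hR
  -- dropping the exponent
  have drop : ∀ m : ℕ, m ∣ n → m < n → (∀ x : G, x ^ m = 1) → ∀ x : G, x = 1 := by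
    intro m hmn hm hexp x
    obtain ⟨h1, h2⟩ := step hmn S hR ⊤ inferInstance fun x _ => hexp x
    have h3 := ih m hm (C.of_dvd hmn) (NE.sub hmn ⊤) h1 h2 ⟨x, Subgroup.mem_top x⟩
    exact congrArg Subtype.val h3
  -- the hypotheses for a prime
  have hpr : ∀ q : ℕ, q.Prime → q ∣ n → ∃ α M, 1 ≤ α ∧ Nat.Coprime q M ∧ q ^ α * M = n ∧
      qp q n = q ^ α ∧ Pr n (q ^ α) M G := by
    intro q hq hqn
    obtain ⟨M, h1, h2⟩ := qp_fac S.hn hq
    have hα : 1 ≤ n.factorization q := (hq.dvd_iff_one_le_factorization S.hn).1 hqn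
    have hMn : M ∣ n := Dvd.intro_left _ h2
    have hM0 : 0 < M := Nat.pos_of_ne_zero fun h => S.hn (by rw [← h2, h, mul_zero])
    have hlt : M < n := by
      rw [← h2]
      exact lt_mul_of_one_lt_left hM0 (Nat.one_lt_pow (by omega) hq.one_lt)
    refine ⟨n.factorization q, M, hα, h1, h2, rfl, S, Nat.Coprime.pow_left _ h1,
      ⟨qp q n, (Nat.Coprime.pow_left _ h1).symm, by rw [mul_comm]; exact h2⟩, ?_⟩
    obtain ⟨h3, h4⟩ := step hMn S hR (Rad M G) (rad_normal M) fun x hx => rad_pow hx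
    have h5 := ih M hlt (C.of_dvd hMn) (NE.sub hMn _) h3 h4
    rw [eq_bot_iff]
    intro x hx
    exact congrArg Subtype.val (h5 ⟨x, hx⟩)
  -- powers of elements of maximal order
  have hmax : ∀ q : ℕ, q.Prime → (q = 2 ∨ ¬ 2 ∣ n) → ∀ α M, 1 ≤ α → Nat.Coprime q M →
      q ^ α * M = n → ∀ x : G, x ^ q ^ α = 1 → SG (q ^ α) M (x ^ q ^ (α - 1)) := by
    intro q hq h2 α M hα hqM hM x hx
    by_cases h12 : q = 2
    · subst h12
      have h2M := (Nat.Prime.coprime_iff_not_dvd hq).1 hqM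
      rcases NE with NE | TL
      swap
      · refine ss_of_TL1 (by rw [hM]; exact S.exp) h2M TL ?_
        rw [← pow_mul, mul_comm, pow_mul, hx, one_pow]
      refine ss_of_max2 S hα h2M hM (fun s hs hsM => ?_) hx
      have hs2 : s ≠ 2 := by
        rintro rfl
        exact h2M hsM
      by_cases hex : ∀ μ, 1 ≤ μ → μ ≤ α → ∀ r, 1 ≤ r → s ^ r ≠ 2 ^ μ - 1
      · exact noC_of_hex hs hs2 hα h2M hex
      push Not at hex
      obtain ⟨μ, hμ1, hμ2, r, hr, h⟩ := hex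
      obtain ⟨h3, h4⟩ := mersenne hs hr h
      obtain ⟨γ, M3, hγ, h3M, hM3, -, hP3⟩ := hpr s hs (hsM.trans (Dvd.intro_left _ hM))
      by_cases hγ1 : γ = 1
      swap
      · refine NoCx.noC_of_ord hs hs2 hα h2M fun μ' h1' h2' r' hr' h' g hg => ?_
        obtain ⟨h3', h4'⟩ := mersenne hs hr' h'
        have h5 : 2 ^ μ' ∣ n := by
          rw [← hM]
          exact (pow_dvd_pow 2 h2').trans (dvd_mul_right _ _)
        have h6 : s ^ 2 ∣ n := by
          rw [← hM3]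
          exact (pow_dvd_pow s (by omega)).trans (dvd_mul_right _ _)
        have h7 : 2 ^ μ' * s ^ 2 ∣ n := Nat.Coprime.mul_dvd_of_dvd_of_dvd
          (Nat.Coprime.pow _ _ ((Nat.coprime_primes hq hs).2 hs2.symm)) h5 h6
        have h8 : orderOf g ≠ 0 := by
          intro h8
          rw [orderOf_eq_zero_iff'] at h8
          exact h8 n (Nat.pos_of_ne_zero S.hn) (S.exp g)
        refine NE μ' h4' (by rw [← h3']; exact hs) (by rw [← h3']; exact h7)
          (g ^ (orderOf g / (2 ^ μ' * s))) ?_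
        rw [← h3']
        exact orderOf_pow_orderOf_div h8 hg
      subst hγ1
      have h7 : M3 * s = n := by rw [mul_comm, ← hM3, pow_one]
      by_cases hμ : μ = 2
      · have h8 : s = 3 := by
          rw [h3, hμ]
          norm_num
        subst h8
        exact noC_three S h3M.symm h7 hP3.rad hα h2M hM
      · refine noC_once S hs hs2 h3M.symm h7 hP3.rad ?_ hα h2M hM
        intro t ht _ k hk h8
        obtain ⟨ν, rfl⟩ : ∃ ν, μ = ν + 3 := ⟨μ - 3, by omega⟩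
        obtain ⟨j, rfl⟩ : ∃ j, k = j + 1 := ⟨k - 1, by omega⟩
        have h9 : 2 ^ (ν + 3) = 8 * 2 ^ ν := by ring
        have h10 : 0 < 2 ^ ν := Nat.pow_pos (by norm_num)
        have h11 : 2 ∣ t ^ (j + 1) := by
          rw [h8, h3, h9]
          omega
        have h12 : t = 2 :=
          ((Nat.prime_dvd_prime_iff_eq Nat.prime_two ht).1 (Nat.prime_two.dvd_of_dvd_pow h11)).symm
        rw [h12, h3, h9, pow_succ] at h8
        obtain ⟨i, rfl | rfl⟩ : ∃ i, j = 0 ∨ j = i + 1 := by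
          rcases j with _ | j
          · exact ⟨0, Or.inl rfl⟩
          · exact ⟨j, Or.inr rfl⟩
        · omega
        · rw [pow_succ] at h8
          omega
    · refine ss_of_maxG S hq ((Nat.Prime.coprime_iff_not_dvd hq).1 hqM) hM hα ?_ hx
      intro s hs hsM μ hμ1 hμ2 r hr h
      rcases h2 with rfl | h2
      · exact h12 rfl
      · have hs2 : s ≠ 2 := by
          rintro rfl
          exact h2 (hsM.trans (Dvd.intro_left _ hM))
        have hq2 : q ≠ 2 := by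
          rintro rfl
          apply h2
          rw [← hM]
          exact (dvd_pow_self 2 (by omega)).trans (dvd_mul_right _ _)
        have h3 := (hq.odd_of_ne_two hq2).pow (n := μ)
        have h4 := (hs.odd_of_ne_two hs2).pow (n := r)
        have h5 : 0 < q ^ μ := h3.pos
        obtain ⟨c, hc⟩ := h3
        obtain ⟨d, hd⟩ := h4
        omega
  -- there are elements of order `q` in `SG`
  have hdrop : ∀ q : ℕ, q.Prime → (q = 2 ∨ ¬ 2 ∣ n) → ∀ α M, 1 ≤ α → Nat.Coprime q M →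
      q ^ α * M = n → (∀ z : G, SG (q ^ α) M z → z ^ q = 1 → z = 1) → ∀ x : G, x = 1 := by
    intro q hq h2 α M hα hqM hM hz
    have hM0 : 0 < M := Nat.pos_of_ne_zero fun h => S.hn (by rw [← hM, h, mul_zero])
    refine drop (q ^ (α - 1) * M) ?_ ?_ fun x => ?_
    · rw [← hM]
      exact Nat.mul_dvd_mul (pow_dvd_pow q (by omega)) dvd_rfl
    · rw [← hM]
      exact Nat.mul_lt_mul_of_pos_right (Nat.pow_lt_pow_right hq.one_lt (by omega)) hM0
    · have h3 : (x ^ M) ^ q ^ α = 1 := by rw [← pow_mul, mul_comm, hM, S.exp]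
      have h4 := hmax q hq h2 α M hα hqM hM _ h3
      have h5 := hz _ h4 (by
        rw [← pow_mul, ← pow_succ, Nat.sub_add_cancel hα, h3])
      rw [mul_comm, pow_mul]
      exact h5
  by_cases h2n : 2 ∣ n
  · -- the even case
    obtain ⟨α, M, hα, hqM, hM, hqp, hP⟩ := hpr 2 Nat.prime_two h2n
    refine hdrop 2 Nat.prime_two (Or.inl rfl) α M hα hqM hM fun z hz hz2 => ?_
    refine rad_of_no_arrG S Nat.prime_two hqM hM (by rw [← hqp]; exact hR 2 Nat.prime_two) hz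
      fun s hs hs2 U A => ?_
    refine no_arrG hP (Nat.pow_pos (by norm_num)) hs (qp_dvd_M Nat.prime_two hs hs2 hM) ?_ hz hz2 A
    have h3 := hs.eq_two_or_odd.resolve_left hs2
    have h4 := hs.two_le
    omega
  -- the odd case
  by_contra hcon
  -- every prime divisor has an element with a minimal subgroup
  have key : ∀ q : ℕ, q.Prime → q ∣ n → ∃ α M, 1 ≤ α ∧ Nat.Coprime q M ∧ q ^ α * M = n ∧
      qp q n = q ^ α ∧ Pr n (q ^ α) M G ∧ ∃ w : G, SG (q ^ α) M w ∧ w ^ q = 1 ∧ w ≠ 1 ∧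
      ∃ s : ℕ, s.Prime ∧ s ≠ q ∧ ∃ U : Subgroup G, Arr n s w U := by
    intro q hq hqn
    obtain ⟨α, M, hα, hqM, hM, hqp, hP⟩ := hpr q hq hqn
    refine ⟨α, M, hα, hqM, hM, hqp, hP, ?_⟩
    have h1 : ∃ w : G, SG (q ^ α) M w ∧ w ^ q = 1 ∧ w ≠ 1 := by
      by_contra h
      push Not at h
      exact hcon (hdrop q hq (Or.inr h2n) α M hα hqM hM h)
    obtain ⟨w, h3, h4, h5⟩ := h1
    refine ⟨w, h3, h4, h5, ?_⟩
    by_contra h
    push Not at h
    exact h5 (rad_of_no_arrG S hq hqM hM (by rw [← hqp]; exact hR q hq) h3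
      fun s hs hsq U A => h s hs hsq U A)
  -- minimal subgroups are `s`-groups with `s ^ 2 ∣ n`
  have hsq : ∀ q α M : ℕ, q.Prime → Nat.Coprime q M → q ^ α * M = n → Pr n (q ^ α) M G →
      ∀ w : G, SG (q ^ α) M w → ∀ s : ℕ, s.Prime → s ≠ q → ∀ U : Subgroup G, Arr n s w U →
      s ^ 2 ∣ n := by
    intro q α M hq hqM hM hP w hw s hs hsq U A
    by_contra hs2
    have hsn : s ∣ n := by
      by_contra hsn
      obtain ⟨u, hu, huw⟩ := A.nc
      have h1 : qp s n = 1 := by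
        unfold qp
        rw [Nat.factorization_eq_zero_of_not_dvd hsn, pow_zero]
      have h3 := A.pow u hu
      rw [h1, pow_one] at h3
      rw [h3, mul_one, one_mul] at huw
      exact huw rfl
    obtain ⟨γ, m, hγ, hsm, hm, hqps, -⟩ := hpr s hs hsn
    have hγ1 : γ = 1 := by
      by_contra h
      apply hs2
      rw [← hm]
      exact (pow_dvd_pow s (by omega)).trans (dvd_mul_right _ _)
    subst hγ1
    refine no_arr_small hP hq hqM hM hs hsq hsm (fun x hx => ?_) hw A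
    have h1 := hmax s hs (Or.inr h2n) 1 m le_rfl hsm hm x (by rw [pow_one]; exact hx)
    rw [Nat.sub_self, pow_zero, pow_one, pow_one] at h1
    exact h1
  have hn1 : n ≠ 1 := by
    rintro rfl
    exact hcon fun x => by rw [← S.exp x, pow_one]
  have hodd : ∀ s : ℕ, s.Prime → s ^ 2 ∣ n → 2 < s := by
    intro s hs h
    have h1 := hs.two_le
    rcases Nat.lt_or_ge 2 s with h3 | h3
    · exact h3
    · exfalso
      have h4 : s = 2 := by omega
      subst h4
      exact h2n ((dvd_pow_self 2 two_ne_zero).trans h)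
  have hex : ∃ p : ℕ, p.Prime ∧ p ^ 2 ∣ n := by
    obtain ⟨q0, hq0, hq0n⟩ := Nat.exists_prime_and_dvd hn1
    obtain ⟨α0, M0, -, hqM0, hM0, -, hP0, w0, hw0, -, -, p, hp, hpq0, U0, A0⟩ := key q0 hq0 hq0n
    exact ⟨p, hp, hsq q0 α0 M0 hq0 hqM0 hM0 hP0 w0 hw0 p hp hpq0 U0 A0⟩
  obtain ⟨p, hp, hp2, hpmin⟩ : ∃ p : ℕ, p.Prime ∧ p ^ 2 ∣ n ∧
      ∀ s : ℕ, s.Prime → s ^ 2 ∣ n → p ≤ s := by
    classical
    exact ⟨Nat.find hex, (Nat.find_spec hex).1, (Nat.find_spec hex).2,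
      fun s hs h => Nat.find_min' hex ⟨hs, h⟩⟩
  have hpn : p ∣ n := (dvd_pow_self p two_ne_zero).trans hp2
  obtain ⟨α, Mp, hα, hpMp, hMp, hqpp, hPp, z0, hz0, hz0p, hz01, q, hq, hqp, U1, A1⟩ := key p hp hpn
  have hq2 := hsq p α Mp hp hpMp hMp hPp z0 hz0 q hq hqp U1 A1
  have hqn : q ∣ n := (dvd_pow_self q two_ne_zero).trans hq2
  have h3 : ¬ p ∣ q - 1 := fun h =>
    no_arrG hPp (Nat.pow_pos hp.pos) hq (qp_dvd_M hp hq hqp hMp) h hz0 hz0p A1
  have hpq : p < q := lt_of_le_of_ne (hpmin q hq hq2) hqp.symm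
  have hthree : ∀ s : ℕ, s.Prime → s ^ 2 ∣ n → s = p ∨ s = q ∨ (p ∣ s - 1 ∧ q ∣ s - 1) := by
    intro s hs h
    rcases lt_trichotomy s p with h5 | h5 | h5
    · exact absurd (hpmin s hs h) (by omega)
    · exact Or.inl h5
    · rcases lt_trichotomy s q with h6 | h6 | h6
      · exact absurd (C p s q hp hs hq (hodd p hp hp2) h5 h6 hp2 h hq2).1 h3
      · exact Or.inr (Or.inl h6)
      · obtain ⟨h7, h8⟩ := C p q s hp hq hs (hodd p hp hp2) hpq h6 hp2 hq2 h
        exact Or.inr (Or.inr ⟨h7, h8.resolve_left h3⟩)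
  obtain ⟨β, Mq, hβ, hqMq, hMq, hqpq, hPq, w1, hw1, hw1q, hw11, p', hp', hpq', U2, A2⟩ :=
    key q hq hqn
  have hp'2 := hsq q β Mq hq hqMq hMq hPq w1 hw1 p' hp' hpq' U2 A2
  have h4' : ¬ q ∣ p' - 1 := fun h =>
    no_arrG hPq (Nat.pow_pos hq.pos) hp' (qp_dvd_M hq hp' hpq' hMq) h hw1 hw1q A2
  have hSS1 : ∀ z : G, SG (p ^ α) Mp z → z ^ p = 1 → SG (p ^ α) (q ^ β) z := by
    intro z hz hzp
    rw [← hqpq]
    refine ss_pair S hq hp hqp hpMp hMp hz fun s hs hsp hsq' U A => ?_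
    rcases hthree s hs (hsq p α Mp hp hpMp hMp hPp z hz s hs hsp U A) with h | h | h
    · exact hsp h
    · exact hsq' h
    · exact no_arrG hPp (Nat.pow_pos hp.pos) hs (qp_dvd_M hp hs hsp hMp) h.1 hz hzp A
  have hSS2 : ∀ w : G, SG (q ^ β) Mq w → w ^ q = 1 → SG (q ^ β) (p ^ α) w := by
    intro w hw hwq
    rw [← hqpp]
    refine ss_pair S hp hq hqp.symm hqMq hMq hw fun s hs hsq' hsp U A => ?_
    rcases hthree s hs (hsq q β Mq hq hqMq hMq hPq w hw s hs hsq' U A) with h | h | h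
    · exact hsp h
    · exact hsq' h
    · exact no_arrG hPq (Nat.pow_pos hq.pos) hs (qp_dvd_M hq hs hsq' hMq) h.2 hw hwq A
  have hpp' : p' = p := by
    rcases hthree p' hp' hp'2 with h | h | h
    · exact h
    · exact absurd h hpq'
    · exact absurd h.2 h4'
  subst hpp'
  have h4 : ¬ q ∣ p' - 1 := h4'
  have SS' : St n p' q α β G := ⟨S, hp, hq, hqp.symm, hqpp, hqpq, by rw [← hqpp]; exact hR p' hp,
    by rw [← hqpq]; exact hR q hq⟩
  obtain ⟨A, hA⟩ : ∃ A : Subgroup G,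
    A = Subgroup.closure {z | SG (p' ^ α) Mp z ∧ z ^ p' = 1} := ⟨_, rfl⟩
  obtain ⟨B, hB⟩ : ∃ B : Subgroup G,
    B = Subgroup.closure {w | SG (q ^ β) Mq w ∧ w ^ q = 1} := ⟨_, rfl⟩
  have hAn : A.Normal := by
    refine ⟨fun x hx g => ?_⟩
    rw [hA] at hx ⊢
    refine closure_conj ?_ x hx
    rintro z ⟨h1, h2⟩
    exact Subgroup.subset_closure ⟨sg_conj h1 g, conj_pow_one h2⟩
  have hBn : B.Normal := by
    refine ⟨fun x hx g => ?_⟩
    rw [hB] at hx ⊢
    refine closure_conj ?_ x hx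
    rintro z ⟨h1, h2⟩
    exact Subgroup.subset_closure ⟨sg_conj h1 g, conj_pow_one h2⟩
  have hAB : ∀ a ∈ A, ∀ b ∈ B, a * b = b * a := by
    have h5 : A ≤ Subgroup.centralizer {w | SG (q ^ β) Mq w ∧ w ^ q = 1} := by
      rw [hA, Subgroup.closure_le]
      rintro z ⟨h1, h2⟩
      rw [SetLike.mem_coe, Subgroup.mem_centralizer_iff]
      rintro w ⟨h3', h4'⟩
      exact (comm_all SS' h3 h4 (hSS1 z h1 h2) h2 (hSS2 w h3' h4') h4').symm
    have h6 : B ≤ Subgroup.centralizer (A : Set G) := by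
      rw [hB, Subgroup.closure_le]
      rintro w hw
      rw [SetLike.mem_coe, Subgroup.mem_centralizer_iff]
      intro a ha
      exact ((Subgroup.mem_centralizer_iff.1 (h5 ha)) w hw).symm
    intro a ha b hb
    exact (Subgroup.mem_centralizer_iff.1 (h6 hb)) a ha
  have hexpq : ∀ x : G, x ^ (q ^ β * Mq) = 1 := by rw [hMq]; exact S.exp
  have habq : Nat.Coprime (q ^ β) Mq := Nat.Coprime.pow_left _ hqMq
  -- the exponent of `A`
  have hexpA : ∀ x ∈ A, x ^ (q ^ (β - 1) * Mq) = 1 := by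
    intro x hx
    have h5 : (x ^ Mq) ^ q ^ β = 1 := by rw [← pow_mul, mul_comm, hMq, S.exp]
    have h6 := hmax q hq (Or.inr h2n) β Mq hβ hqMq hMq _ h5
    have h7 : ((x ^ Mq) ^ q ^ (β - 1)) ^ q = 1 := by
      rw [← pow_mul, ← pow_succ, Nat.sub_add_cancel hβ]
      exact h5
    have h8 : (x ^ Mq) ^ q ^ (β - 1) ∈ A := pow_mem (pow_mem hx _) _
    have h9 : (x ^ Mq) ^ q ^ (β - 1) ∈ B := by
      rw [hB]
      exact Subgroup.subset_closure ⟨h6, h7⟩
    rw [mul_comm, pow_mul]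
    generalize (x ^ Mq) ^ q ^ (β - 1) = w at h6 h7 h8 h9
    let D : Subgroup G :=
      { carrier := {d | d ∈ A ∧ d ∈ B ∧ d ^ q ^ β = 1}
        one_mem' := ⟨one_mem _, one_mem _, one_pow _⟩
        mul_mem' := by
          rintro a b ⟨ha, ha2, ha3⟩ ⟨hb, hb2, hb3⟩
          refine ⟨mul_mem ha hb, mul_mem ha2 hb2, ?_⟩
          have : Commute a b := hAB a ha b hb2
          rw [this.mul_pow, ha3, hb3, one_mul]
        inv_mem' := by
          rintro a ⟨ha, ha2, ha3⟩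
          exact ⟨inv_mem ha, inv_mem ha2, by rw [inv_pow, ha3, inv_one]⟩ }
    have hDn : D.Normal := by
      refine ⟨?_⟩
      rintro d ⟨h10, h11, h12⟩ g
      exact ⟨hAn.conj_mem d h10 g, hBn.conj_mem d h11 g, conj_pow_one h12⟩
    have h10 := le_rad habq hexpq D (fun d hd => hd.2.2)
    rw [SS'.rq] at h10
    exact h10 ⟨h8, h9, h6.1⟩
  have hMq0 : 0 < Mq := Nat.pos_of_ne_zero fun h => S.hn (by rw [← hMq, h, mul_zero])
  have hdvd : q ^ (β - 1) * Mq ∣ n := by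
    rw [← hMq]
    exact Nat.mul_dvd_mul (pow_dvd_pow q (by omega)) dvd_rfl
  have hlt : q ^ (β - 1) * Mq < n := by
    rw [← hMq]
    exact Nat.mul_lt_mul_of_pos_right (Nat.pow_lt_pow_right hq.one_lt (by omega)) hMq0
  obtain ⟨h5, h6⟩ := step hdvd S hR A hAn hexpA
  have hz0A : z0 ∈ A := by
    rw [hA]
    exact Subgroup.subset_closure ⟨hz0, hz0p⟩
  have h7 := ih _ hlt (C.of_dvd hdvd) (NE.sub hdvd A) h5 h6 ⟨z0, hz0A⟩
  exact hz01 (congrArg Subtype.val h7)


end Pool.Agent.N6.TrN
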