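import Mathlib
import Pool.Agent.N6.PfE
import Pool.Agent.N6.TrN

set_option autoImplicit false

/-!
# One generator of prime power order, part F: the induction
-/

namespace Pool.Agent.N6.Pf

open Pool.Agent.H32BU Pool.Agent.W629 Pool.Agent.TH69.Mtn Pool.Agent.TH69.Od Pool.Agent.TH69.Og
open Pool.Agent.TH69.Oh Pool.Agent.TH69.Ok Pool.Agent.N6.TrN

universe u v

/-- the condition on the odd primes whose squares divide `n` -/
def SqP (n : ℕ) : Prop := ∀ p q : ℕ, p.Prime → q.Prime → 2 < p → p < q →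
  p ^ 2 ∣ n → q ^ 2 ∣ n → p ∣ q - 1

theorem SqP.of_dvd {n m : ℕ} (C : SqP n) (h : m ∣ n) : SqP m :=
  fun p q hp hq h2 hpq h3 h4 => C p q hp hq h2 hpq (h3.trans h) (h4.trans h)

/-- the condition on the group: no elements of the exceptional orders, or the subgroups generated by
two elements one of which has prime power order have `2`-length at most one -/
def GdP (n : ℕ) (G : Type u) [Group G] : Prop :=
  NoEl n G ∨ ∀ x y : G, PP y → TL1 (Subgroup.closure {x, y})

theorem pp_of_inj {K : Type u} {L : Type v} [Group K] [Group L] (f : K →* L)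
    (hf : Function.Injective f) {y : K} (h : PP (f y)) : PP y := by
  obtain ⟨r, k, hr, h⟩ := h
  exact ⟨r, k, hr, hf (by rw [map_pow, h, map_one])⟩

/-- lifting elements of prime power order -/
theorem pp_lift {K : Type u} {L : Type v} [Group K] [Group L] (f : K →* L)
    (hf : Function.Surjective f) {n : ℕ} (hn : n ≠ 0) (hK : ∀ x : K, x ^ n = 1) {h : L}
    (hh : PP h) : ∃ y : K, PP y ∧ f y = h := by
  obtain ⟨r, k, hr, hh⟩ := hh
  obtain ⟨m, hm, hmn⟩ := qp_fac hn hr
  obtain ⟨y0, hy0⟩ := hf h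
  obtain ⟨a, ha1, ha2⟩ := Nat.chineseRemainder (show Nat.Coprime m (qp r n) from
    (Nat.Coprime.pow_left _ hm).symm) 0 1
  obtain ⟨a', ha'⟩ := (Nat.modEq_zero_iff_dvd).1 ha1
  refine ⟨y0 ^ a, PP.qp (n := n) hr ?_, ?_⟩
  · rw [ha', ← pow_mul, show m * a' * qp r n = (qp r n * m) * a' from by ring, pow_mul, hmn, hK,
      one_pow]
  · rw [map_pow, hy0]
    have h3 : orderOf h ∣ qp r n := by
      have h1 := orderOf_dvd_of_pow_eq_one hh
      have h2 : orderOf h ∣ qp r n * m := by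
        apply orderOf_dvd_of_pow_eq_one
        rw [← hy0, ← map_pow, hmn, hK, map_one]
      exact Nat.Coprime.dvd_of_dvd_mul_right
        (Nat.Coprime.coprime_dvd_left h1 (Nat.Coprime.pow_left _ hm)) h2
    have h4 : h ^ a = h ^ 1 := by
      rw [pow_eq_pow_iff_modEq]
      exact ha2.of_dvd h3
    rw [h4, pow_one]

theorem GdP.of_injective {n m : ℕ} {K : Type u} {L : Type v} [Group K] [Group L] (f : K →* L)
    (hf : Function.Injective f) (hmn : m ∣ n) (h : GdP n L) : GdP m K := by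
  rcases h with h | h
  · left
    intro k hk hk2 hd g
    rw [← orderOf_injective f hf]
    exact h k hk hk2 (hd.trans hmn) (f g)
  · right
    intro x y hy
    have h1 := h (f x) (f y) (hy.map f)
    rw [← map_pair] at h1
    exact TL1.of_injective (f.subgroupMap (Subgroup.closure {x, y}))
      (fun a b hab => Subtype.ext (hf (congrArg Subtype.val hab))) h1

theorem GdP.sub {n m : ℕ} {G : Type u} [Group G] (h : GdP n G) (hmn : m ∣ n) (K : Subgroup G) :
    GdP m K := h.of_injective K.subtype K.subtype_injective hmn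

theorem GdP.of_surjective {n : ℕ} (hn : n ≠ 0) {K : Type u} {L : Type v} [Group K] [Group L]
    (hK : ∀ x : K, x ^ n = 1) (f : K →* L) (hf : Function.Surjective f) (h : GdP n K) :
    GdP n L := by
  rcases h with h | h
  · left
    intro k hk hk2 hd g hg
    obtain ⟨x, rfl⟩ := hf g
    have h8 : orderOf x ≠ 0 := by
      intro h8
      rw [orderOf_eq_zero_iff'] at h8
      exact h8 n (Nat.pos_of_ne_zero hn) (hK x)
    have h9 : 2 ^ k * (2 ^ k - 1) ∣ orderOf x := by
      rw [← hg]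
      exact orderOf_map_dvd f x
    exact h k hk hk2 hd _ (orderOf_pow_orderOf_div h8 h9)
  · right
    intro x y hy
    obtain ⟨x, rfl⟩ := hf x
    obtain ⟨y', hy', rfl⟩ := pp_lift f hf hn hK hy
    have h1 := TL1.of_surjective (f.subgroupMap (Subgroup.closure {x, y'}))
      (f.subgroupMap_surjective _) (h x y' hy')
    rwa [map_pair] at h1

/-- two-generator subgroups of `2`-length at most one -/
theorem ss_of_TL1F {α m : ℕ} {G : Type} [Group G] (hexp : ∀ x : G, x ^ (2 ^ α * m) = 1)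
    (hm : ¬ 2 ∣ m) (h : ∀ x y : G, PP y → TL1 (Subgroup.closure {x, y})) {z : G}
    (hz : z ^ 2 ^ α = 1) : SG (2 ^ α) m z := by
  have hcop : Nat.Coprime 2 m := (Nat.Prime.coprime_iff_not_dvd Nat.prime_two).2 hm
  refine ⟨hz, fun E hE hEs hzE => ?_⟩
  have h4 := bsG Nat.prime_two hcop (exp_sub hexp E) hEs (z := ⟨z, hzE⟩) (Subtype.ext hz) (by
    intro f
    refine TT.comap E.subtype E.subtype_injective ?_
    have h5 : (c2 (⟨z, hzE⟩ : E) f).map E.subtype = c2 z (f : G) := by
      unfold c2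
      rw [MonoidHom.map_closure, Set.image_pair]
      rfl
    rw [h5]
    refine tt_of_TL1 hexp hm hz ?_
    rw [c2_comm]
    exact h f z ⟨2, α, Nat.prime_two, hz⟩)
  have h5 := h4.map E.subtype
  rw [← MonoidHom.range_eq_map, Subgroup.range_subtype] at h5
  exact h5

/-- subgroups -/
theorem stepF {G : Type} [Group G] {n m : ℕ} (hmn : m ∣ n) (S : Sf n G)
    (hR : ∀ p : ℕ, p.Prime → Rad (qp p n) G = ⊥) (A : Subgroup G) (hA : A.Normal)
    (hexp : ∀ x ∈ A, x ^ m = 1) : Sf m A ∧ ∀ p : ℕ, p.Prime → Rad (qp p m) A = ⊥ := by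
  have hm : m ≠ 0 := by
    rintro rfl
    exact S.hn (zero_dvd_iff.1 hmn)
  refine ⟨⟨hm, fun x => Subtype.ext (hexp x x.2), fun x y hy => ?_, fun x y hy => ?_⟩, fun p hp => ?_⟩
  · have h5 := S.fin (x : G) (y : G) (hy.map A.subtype)
    rw [← map_sub_c2] at h5
    exact Finite.of_injective _
      ((c2 x y).equivMapOfInjective A.subtype A.subtype_injective).injective
  · have h5 := S.sol (x : G) (y : G) (hy.map A.subtype)
    rw [← map_sub_c2] at h5
    exact Group.isSolvable_of_isSolvable_injective (f := (((c2 x y).equivMapOfInjective A.subtype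
      A.subtype_injective) : c2 x y →* (c2 x y).map A.subtype))
      ((c2 x y).equivMapOfInjective A.subtype A.subtype_injective).injective
  · refine rad_sub_bot A hA fun N hN hNP => ?_
    obtain ⟨k, hk1, hk2⟩ := qp_fac S.hn hp
    have h1 : qp p m ∣ qp p n := Nat.ordProj_dvd_ordProj_of_dvd S.hn hmn p
    have h2 := le_rad (G := G) (a := qp p n) (b := k) (Nat.Coprime.pow_left _ hk1)
      (by rw [hk2]; exact S.exp) N (fun x hx => by
        obtain ⟨c, hc⟩ := h1
        rw [hc, pow_mul, hNP x hx, one_pow])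
    rw [hR p hp] at h2
    exact le_bot_iff.1 h2

/-- the main theorem for groups without normal subgroups of prime power exponent -/
theorem trivF : ∀ n : ℕ, SqP n → ∀ {G : Type} [Group G], GdP n G → Sf n G →
    (∀ p : ℕ, p.Prime → Rad (qp p n) G = ⊥) → ∀ x : G, x = 1 := by
  intro n
  induction n using Nat.strong_induction_on with
  | _ n ih =>
  intro C G _ NE S hR
  -- dropping the exponent
  have drop : ∀ m : ℕ, m ∣ n → m < n → (∀ x : G, x ^ m = 1) → ∀ x : G, x = 1 := by
    intro m hmn hm hexp x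
    obtain ⟨h1, h2⟩ := stepF hmn S hR ⊤ inferInstance fun x _ => hexp x
    have h3 := ih m hm (C.of_dvd hmn) (NE.sub hmn ⊤) h1 h2 ⟨x, Subgroup.mem_top x⟩
    exact congrArg Subtype.val h3
  -- the hypotheses for a prime
  have hpr : ∀ q : ℕ, q.Prime → q ∣ n → ∃ α M, 1 ≤ α ∧ Nat.Coprime q M ∧ q ^ α * M = n ∧
      qp q n = q ^ α ∧ Qr n q α M G := by
    intro q hq hqn
    obtain ⟨M, h1, h2⟩ := qp_fac S.hn hq
    have hα : 1 ≤ n.factorization q := (hq.dvd_iff_one_le_factorization S.hn).1 hqn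
    have hMn : M ∣ n := Dvd.intro_left _ h2
    have hM0 : 0 < M := Nat.pos_of_ne_zero fun h => S.hn (by rw [← h2, h, mul_zero])
    have hlt : M < n := by
      rw [← h2]
      exact lt_mul_of_one_lt_left hM0 (Nat.one_lt_pow (by omega) hq.one_lt)
    refine ⟨n.factorization q, M, hα, h1, h2, rfl, S, hq, h1.symm, by
      rw [mul_comm]; exact h2, ?_⟩
    obtain ⟨h3, h4⟩ := stepF hMn S hR (Rad M G) (rad_normal M) fun x hx => rad_pow hx
    have h5 := ih M hlt (C.of_dvd hMn) (NE.sub hMn _) h3 h4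
    rw [eq_bot_iff]
    intro x hx
    exact congrArg Subtype.val (h5 ⟨x, hx⟩)
  -- powers of elements of maximal order
  have hmax : ∀ q : ℕ, q.Prime → (q = 2 ∨ ¬ 2 ∣ n) → ∀ α M, 1 ≤ α → Nat.Coprime q M →
      q ^ α * M = n → ∀ x : G, x ^ q ^ α = 1 → SG (q ^ α) M (x ^ q ^ (α - 1)) := by
    intro q hq h2 α M hα hqM hM x hx
    by_cases h12 : q = 2
    · subst h12
      have h2M := (Nat.Prime.coprime_iff_not_dvd hq).1 hqM
      rcases NE with NE | TL
      swap
      · refine ss_of_TL1F (by rw [hM]; exact S.exp) h2M TL ?_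
        rw [← pow_mul, mul_comm, pow_mul, hx, one_pow]
      refine ss_of_max2F S hα h2M hM (fun s hs hsM => ?_) hx
      have hs2 : s ≠ 2 := by
        rintro rfl
        exact h2M hsM
      by_cases hex : ∀ μ, 1 ≤ μ → μ ≤ α → ∀ r, 1 ≤ r → s ^ r ≠ 2 ^ μ - 1
      · exact noC_of_hex hs hs2 hα h2M hex
      push Not at hex
      obtain ⟨μ, hμ1, hμ2, r, hr, h⟩ := hex
      obtain ⟨h3, h4⟩ := mersenne hs hr h
      obtain ⟨γ, M3, hγ, h3M, hM3, -, hP3⟩ := hpr s hs (hsM.trans (Dvd.intro_left _ hM))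
      by_cases hγ1 : γ = 1
      swap
      · refine NoCx.noC_of_ord hs hs2 hα h2M fun μ' h1' h2' r' hr' h' g hg => ?_
        obtain ⟨h3', h4'⟩ := mersenne hs hr' h'
        have h5 : 2 ^ μ' ∣ n := by
          rw [← hM]
          exact (pow_dvd_pow 2 h2').trans (dvd_mul_right _ _)
        have h6 : s ^ 2 ∣ n := by
          rw [← hM3]
          exact (pow_dvd_pow s (by omega)).trans (dvd_mul_right _ _)
        have h7 : 2 ^ μ' * s ^ 2 ∣ n := Nat.Coprime.mul_dvd_of_dvd_of_dvd
          (Nat.Coprime.pow _ _ ((Nat.coprime_primes hq hs).2 hs2.symm)) h5 h6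
        have h8 : orderOf g ≠ 0 := by
          intro h8
          rw [orderOf_eq_zero_iff'] at h8
          exact h8 n (Nat.pos_of_ne_zero S.hn) (S.exp g)
        refine NE μ' h4' (by rw [← h3']; exact hs) (by rw [← h3']; exact h7)
          (g ^ (orderOf g / (2 ^ μ' * s))) ?_
        rw [← h3']
        exact orderOf_pow_orderOf_div h8 hg
      subst hγ1
      have h7 : M3 * s = n := by rw [mul_comm, ← hM3, pow_one]
      by_cases hμ : μ = 2
      · have h8 : s = 3 := by
          rw [h3, hμ]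
          norm_num
        subst h8
        exact noC_threeF S h3M.symm h7 hP3.rad hα h2M hM
      · refine noC_onceF S hs hs2 h3M.symm h7 hP3.rad ?_ hα h2M hM
        intro t ht _ k hk h8
        obtain ⟨ν, rfl⟩ : ∃ ν, μ = ν + 3 := ⟨μ - 3, by omega⟩
        obtain ⟨j, rfl⟩ : ∃ j, k = j + 1 := ⟨k - 1, by omega⟩
        have h9 : 2 ^ (ν + 3) = 8 * 2 ^ ν := by ring
        have h10 : 0 < 2 ^ ν := Nat.pow_pos (by norm_num)
        have h11 : 2 ∣ t ^ (j + 1) := by
          rw [h8, h3, h9]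
          omega
        have h12 : t = 2 :=
          ((Nat.prime_dvd_prime_iff_eq Nat.prime_two ht).1 (Nat.prime_two.dvd_of_dvd_pow h11)).symm
        rw [h12, h3, h9, pow_succ] at h8
        obtain ⟨i, rfl | rfl⟩ : ∃ i, j = 0 ∨ j = i + 1 := by
          rcases j with _ | j
          · exact ⟨0, Or.inl rfl⟩
          · exact ⟨j, Or.inr rfl⟩
        · omega
        · rw [pow_succ] at h8
          omega
    · refine ss_of_maxF S hq ((Nat.Prime.coprime_iff_not_dvd hq).1 hqM) hM hα ?_ hx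
      intro s hs hsM μ hμ1 hμ2 r hr h
      rcases h2 with rfl | h2
      · exact h12 rfl
      · have hs2 : s ≠ 2 := by
          rintro rfl
          exact h2 (hsM.trans (Dvd.intro_left _ hM))
        have hq2 : q ≠ 2 := by
          rintro rfl
          apply h2
          rw [← hM]
          exact (dvd_pow_self 2 (by omega)).trans (dvd_mul_right _ _)
        have h3 := (hq.odd_of_ne_two hq2).pow (n := μ)
        have h4 := (hs.odd_of_ne_two hs2).pow (n := r)
        have h5 : 0 < q ^ μ := h3.pos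
        obtain ⟨c, hc⟩ := h3
        obtain ⟨d, hd⟩ := h4
        omega
  -- there are elements of order `q` in `SG`
  have hdrop : ∀ q : ℕ, q.Prime → (q = 2 ∨ ¬ 2 ∣ n) → ∀ α M, 1 ≤ α → Nat.Coprime q M →
      q ^ α * M = n → (∀ z : G, SG (q ^ α) M z → z ^ q = 1 → z = 1) → ∀ x : G, x = 1 := by
    intro q hq h2 α M hα hqM hM hz
    have hM0 : 0 < M := Nat.pos_of_ne_zero fun h => S.hn (by rw [← hM, h, mul_zero])
    refine drop (q ^ (α - 1) * M) ?_ ?_ fun x => ?_
    · rw [← hM]
      exact Nat.mul_dvd_mul (pow_dvd_pow q (by omega)) dvd_rfl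
    · rw [← hM]
      exact Nat.mul_lt_mul_of_pos_right (Nat.pow_lt_pow_right hq.one_lt (by omega)) hM0
    · have h3 : (x ^ M) ^ q ^ α = 1 := by rw [← pow_mul, mul_comm, hM, S.exp]
      have h4 := hmax q hq h2 α M hα hqM hM _ h3
      have h5 := hz _ h4 (by
        rw [← pow_mul, ← pow_succ, Nat.sub_add_cancel hα, h3])
      rw [mul_comm, pow_mul]
      exact h5
  by_cases h2n : 2 ∣ n
  · -- the even case
    obtain ⟨α, M, hα, hqM, hM, hqp, hP⟩ := hpr 2 Nat.prime_two h2n
    refine hdrop 2 Nat.prime_two (Or.inl rfl) α M hα hqM hM fun z hz hz2 => ?_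
    refine rad_of_no_arrF S Nat.prime_two hqM hM (by rw [← hqp]; exact hR 2 Nat.prime_two) hz
      fun s hs hs2 U A => ?_
    refine no_arrF hP hs (qp_dvd_M Nat.prime_two hs hs2 hM) ?_ hz hz2 A
    have h3 := hs.eq_two_or_odd.resolve_left hs2
    have h4 := hs.two_le
    omega
  -- the odd case
  by_contra hcon
  -- every prime divisor has an element with a minimal subgroup
  have key : ∀ q : ℕ, q.Prime → q ∣ n → ∃ α M, 1 ≤ α ∧ Nat.Coprime q M ∧ q ^ α * M = n ∧
      qp q n = q ^ α ∧ Qr n q α M G ∧ ∃ w : G, SG (q ^ α) M w ∧ w ^ q = 1 ∧ w ≠ 1 ∧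
      ∃ s : ℕ, s.Prime ∧ s ≠ q ∧ ∃ U : Subgroup G, Arr n s w U := by
    intro q hq hqn
    obtain ⟨α, M, hα, hqM, hM, hqp, hP⟩ := hpr q hq hqn
    refine ⟨α, M, hα, hqM, hM, hqp, hP, ?_⟩
    have h1 : ∃ w : G, SG (q ^ α) M w ∧ w ^ q = 1 ∧ w ≠ 1 := by
      by_contra h
      push Not at h
      exact hcon (hdrop q hq (Or.inr h2n) α M hα hqM hM h)
    obtain ⟨w, h3, h4, h5⟩ := h1
    refine ⟨w, h3, h4, h5, ?_⟩
    by_contra h
    push Not at h
    exact h5 (rad_of_no_arrF S hq hqM hM (by rw [← hqp]; exact hR q hq) h3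
      fun s hs hsq U A => h s hs hsq U A)
  -- minimal subgroups are `s`-groups with `s ^ 2 ∣ n`
  have hsq : ∀ q α M : ℕ, q.Prime → Nat.Coprime q M → q ^ α * M = n → Qr n q α M G →
      ∀ w : G, SG (q ^ α) M w → ∀ s : ℕ, s.Prime → s ≠ q → ∀ U : Subgroup G, Arr n s w U →
      s ^ 2 ∣ n := by
    intro q α M hq hqM hM hP w hw s hs hsq U A
    by_contra hs2
    have hsn : s ∣ n := by
      by_contra hsn
      obtain ⟨u, hu, huw⟩ := A.nc
      have h1 : qp s n = 1 := by
        unfold qp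
        rw [Nat.factorization_eq_zero_of_not_dvd hsn, pow_zero]
      have h3 := A.pow u hu
      rw [h1, pow_one] at h3
      rw [h3, mul_one, one_mul] at huw
      exact huw rfl
    obtain ⟨γ, m, hγ, hsm, hm, hqps, -⟩ := hpr s hs hsn
    have hγ1 : γ = 1 := by
      by_contra h
      apply hs2
      rw [← hm]
      exact (pow_dvd_pow s (by omega)).trans (dvd_mul_right _ _)
    subst hγ1
    refine no_arr_smallF hP hs hsq hsm (fun x hx => ?_) hw A
    have h1 := hmax s hs (Or.inr h2n) 1 m le_rfl hsm hm x (by rw [pow_one]; exact hx)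
    rw [Nat.sub_self, pow_zero, pow_one, pow_one] at h1
    exact h1
  have hn1 : n ≠ 1 := by
    rintro rfl
    exact hcon fun x => by rw [← S.exp x, pow_one]
  have hodd : ∀ s : ℕ, s.Prime → s ^ 2 ∣ n → 2 < s := by
    intro s hs h
    have h1 := hs.two_le
    rcases Nat.lt_or_ge 2 s with h3 | h3
    · exact h3
    · exfalso
      have h4 : s = 2 := by omega
      subst h4
      exact h2n ((dvd_pow_self 2 two_ne_zero).trans h)
  have hex : ∃ p : ℕ, p.Prime ∧ p ^ 2 ∣ n := by
    obtain ⟨q0, hq0, hq0n⟩ := Nat.exists_prime_and_dvd hn1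
    obtain ⟨α0, M0, -, hqM0, hM0, -, hP0, w0, hw0, -, -, p, hp, hpq0, U0, A0⟩ := key q0 hq0 hq0n
    exact ⟨p, hp, hsq q0 α0 M0 hq0 hqM0 hM0 hP0 w0 hw0 p hp hpq0 U0 A0⟩
  obtain ⟨p, hp, hp2, hpmin⟩ : ∃ p : ℕ, p.Prime ∧ p ^ 2 ∣ n ∧
      ∀ s : ℕ, s.Prime → s ^ 2 ∣ n → p ≤ s := by
    classical
    exact ⟨Nat.find hex, (Nat.find_spec hex).1, (Nat.find_spec hex).2,
      fun s hs h => Nat.find_min' hex ⟨hs, h⟩⟩
  have hpn : p ∣ n := (dvd_pow_self p two_ne_zero).trans hp2
  obtain ⟨α, Mp, hα, hpMp, hMp, hqpp, hPp, z0, hz0, hz0p, hz01, q, hq, hqp, U1, A1⟩ := key p hp hpn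
  have hq2 := hsq p α Mp hp hpMp hMp hPp z0 hz0 q hq hqp U1 A1
  have hqn : q ∣ n := (dvd_pow_self q two_ne_zero).trans hq2
  have hpq : p < q := lt_of_le_of_ne (hpmin q hq hq2) hqp.symm
  exact no_arrF hPp hq (qp_dvd_M hp hq hqp hMp) (C p q hp hq (hodd p hp hp2) hpq hp2 hq2) hz0 hz0p A1

end Pool.Agent.N6.Pf
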