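import Mathlib
import Pool.Agent.N6.TrN

set_option autoImplicit false

/-!
# Groups of exponent `n` with finite soluble two-generator subgroups: local finiteness and
# transfer to all universes, for more exponents
-/

namespace Pool.Agent.N6.TrN

open Pool.Agent.H32BU Pool.Agent.W629 Pool.Agent.TH69.Mtn Pool.Agent.TH69.Od Pool.Agent.TH69.Og
open Pool.Agent.TH69.Oh Pool.Agent.TH69.Ok Pool.Agent.TH69.Pq

universe u

/-- the property of exponents which is proved -/
def TrG (n : ℕ) : Prop := ∀ (G : Type) [Group G], (∀ x : G, x ^ n = 1) →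
  (∀ x y : G, Finite (c2 x y)) → (n.primeFactors.card ≤ 2 ∨ ∀ x y : G, Group.IsSolvable (c2 x y)) →
  Gd n G → (∀ s : ℕ, s.Prime → Rad (qp s n) G = ⊥) → ∀ g : G, g = 1

theorem trG_of {n : ℕ} (hn : n ≠ 0) (C : Sq n) : TrG n := by
  intro G _ hG h2 hs hN hR
  refine trivN n C hN ⟨hn, hG, h2, ?_⟩ hR
  rcases hs with hs | hs
  · obtain ⟨p, q, a, b, hp, hq, e⟩ := two_primes n (Nat.pos_of_ne_zero hn) hs
    intro x y
    have := h2 x y
    refine solv_of_exp p q a b hp hq fun z => ?_
    rw [← e]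
    exact exp_sub hG _ z
  · exact hs

theorem lf_trG {n : ℕ} (hn : n ≠ 0) (T : TrG n) (hL : ∀ p : ℕ, p.Prime → LocFin (qp p n)) (G : Type)
    [Group G] (hG : ∀ x : G, x ^ n = 1) (h2 : ∀ x y : G, Finite (c2 x y))
    (hs : n.primeFactors.card ≤ 2 ∨ ∀ x y : G, Group.IsSolvable (c2 x y)) (hN : Gd n G) :
    LF G := by
  obtain ⟨M, hM, hML, hMmax⟩ := exists_radical G
  refine x_SCH G M hML ?_
  have h1 : ∀ g : G ⧸ M, g = 1 := by
    refine T _ (exp_quot hG M) ?_ ?_
      (hN.of_surjective hn hG (QuotientGroup.mk' M) (QuotientGroup.mk'_surjective M)) ?_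
    · intro x y
      obtain ⟨x, rfl⟩ := QuotientGroup.mk_surjective x
      obtain ⟨y, rfl⟩ := QuotientGroup.mk_surjective y
      have hmap : (c2 x y).map (QuotientGroup.mk' M) = c2 (x : G ⧸ M) (y : G ⧸ M) := map_c2 _ x y
      have hf := h2 x y
      rw [← hmap]
      exact Finite.of_surjective _ ((QuotientGroup.mk' M).subgroupMap_surjective (c2 x y))
    · rcases hs with hs | hs
      · exact Or.inl hs
      · right
        intro x y
        obtain ⟨x, rfl⟩ := QuotientGroup.mk_surjective x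
        obtain ⟨y, rfl⟩ := QuotientGroup.mk_surjective y
        have hmap : (c2 x y).map (QuotientGroup.mk' M) = c2 (x : G ⧸ M) (y : G ⧸ M) :=
          map_c2 _ x y
        have hf := hs x y
        rw [← hmap]
        exact Group.isSolvable_of_surjective
          ((QuotientGroup.mk' M).subgroupMap_surjective (c2 x y))
    · intro s hs
      rw [eq_bot_iff]
      intro x hx
      have hN : ((Rad (qp s n) (G ⧸ M)).comap (QuotientGroup.mk' M)).Normal := inferInstance
      have hNL : LF ((Rad (qp s n) (G ⧸ M)).comap (QuotientGroup.mk' M)) := by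
        have hML' : LF (M.subgroupOf ((Rad (qp s n) (G ⧸ M)).comap (QuotientGroup.mk' M))) := by
          refine x_LFS.2.1 _ M
            { toFun := fun x => ⟨(x : ↥((Rad (qp s n) (G ⧸ M)).comap (QuotientGroup.mk' M))), x.2⟩
              map_one' := rfl
              map_mul' := fun _ _ => rfl } ?_ hML
          intro a b hab
          have : ((a : ↥((Rad (qp s n) (G ⧸ M)).comap (QuotientGroup.mk' M))) : G) =
              ((b : ↥((Rad (qp s n) (G ⧸ M)).comap (QuotientGroup.mk' M))) : G) :=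
            congrArg (fun z : ↥M => (z : G)) hab
          exact Subtype.ext (Subtype.ext this)
        refine x_SCH _ (M.subgroupOf ((Rad (qp s n) (G ⧸ M)).comap (QuotientGroup.mk' M))) hML' ?_
        refine hL s hs _ fun q => ?_
        obtain ⟨⟨g, hg⟩, rfl⟩ := QuotientGroup.mk_surjective q
        rw [← QuotientGroup.mk_pow, QuotientGroup.eq_one_iff, Subgroup.mem_subgroupOf]
        have h3 : ((g : G ⧸ M)) ^ qp s n = 1 := hg.1
        rw [← QuotientGroup.mk_pow, QuotientGroup.eq_one_iff] at h3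
        exact h3
      obtain ⟨g, rfl⟩ := QuotientGroup.mk_surjective x
      have h4 : g ∈ (Rad (qp s n) (G ⧸ M)).comap (QuotientGroup.mk' M) := hx
      have h5 := hMmax _ hN hNL h4
      rw [Subgroup.mem_bot, QuotientGroup.eq_one_iff]
      exact h5
  intro S
  have : Subsingleton (G ⧸ M) := ⟨fun a b => by rw [h1 a, h1 b]⟩
  infer_instance

theorem lf_trG_u {n : ℕ} (hn : n ≠ 0) (T : TrG n) (hL : ∀ p : ℕ, p.Prime → LocFin (qp p n))
    (G : Type u) [Group G] (hG : ∀ x : G, x ^ n = 1)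
    (h2 : ∀ x y : G, Finite (Subgroup.closure {x, y}))
    (hs : n.primeFactors.card ≤ 2 ∨ ∀ x y : G, Group.IsSolvable (Subgroup.closure {x, y}))
    (hN : Gd n G) (S : Set G) (hS : S.Finite) : Finite (Subgroup.closure S) :=
  finite_closure_u S hS fun Q _ f hf => lf_trG hn T hL Q
    (fun x => hf (by rw [map_pow, map_one]; exact hG _)) (fin_transfer f hf h2)
    (hs.imp id fun h => sol_transfer f hf h) (hN.of_injective f hf dvd_rfl)

/-- triviality of groups with trivial radicals, all universes -/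
theorem trG_u {n : ℕ} (T : TrG n) (G : Type u) [Group G] (hG : ∀ x : G, x ^ n = 1)
    (h2 : ∀ x y : G, Finite (Subgroup.closure {x, y}))
    (hs : n.primeFactors.card ≤ 2 ∨ ∀ x y : G, Group.IsSolvable (Subgroup.closure {x, y}))
    (hN : Gd n G) (hR : ∀ s : ℕ, s.Prime → Rad (qp s n) G = ⊥) (g : G) : g = 1 := by
  classical
  have hex : ∀ (s : ℕ) (e : G), ∃ z : G, s.Prime → e ≠ 1 → e ^ qp s n = 1 →
      z ^ qp s n = 1 ∧ (e * z) ^ qp s n ≠ 1 := by
    intro s e
    by_contra hcon
    push Not at hcon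
    obtain ⟨hs, he1, he, -⟩ := hcon 1
    apply he1
    have h3 : e ∈ Rad (qp s n) G := ⟨he, fun z hz => (hcon z).2.2.2 hz⟩
    rw [hR s hs] at h3
    exact h3
  choose f hf using hex
  obtain ⟨C, hC, hgC, hfC⟩ := exists_closed f g
  have hsm : Small.{0} C := inferInstance
  let e : Shrink.{0} C ≃* C := Shrink.mulEquiv
  let φ : Shrink.{0} C →* G := C.subtype.comp e.toMonoidHom
  have hφ : Function.Injective φ := fun x y hxy => e.injective (Subtype.ext hxy)
  have hmem : ∀ x, φ x ∈ C := fun x => (e x).2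
  have h3 := T (Shrink.{0} C)
    (fun x => hφ (by rw [map_pow, map_one]; exact hG _)) (fin_transfer φ hφ h2)
    (hs.imp id fun h => sol_transfer φ hφ h) (hN.of_injective φ hφ dvd_rfl) (by
      intro s hs
      rw [Subgroup.eq_bot_iff_forall]
      rintro x ⟨hx, hx'⟩
      by_contra hne
      obtain ⟨h4, h5⟩ := hf s (φ x) hs (fun h => hne (hφ (by rw [h, map_one])))
        (by rw [← map_pow, hx, map_one])
      obtain ⟨z, hz⟩ : ∃ z, φ z = f s (φ x) := by
        refine ⟨e.symm ⟨f s (φ x), hfC s _ (hmem x)⟩, ?_⟩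
        change ((e (e.symm _) : C) : G) = _
        rw [MulEquiv.apply_symm_apply]
      have h6 := hx' z (hφ (by rw [map_pow, hz, h4, map_one]))
      apply h5
      rw [← hz, ← map_mul, ← map_pow, h6, map_one]) (e.symm ⟨g, hgC⟩)
  have h4 := congrArg φ h3
  rw [map_one] at h4
  have h5 : φ (e.symm ⟨g, hgC⟩) = g := by
    change ((e (e.symm _) : C) : G) = _
    rw [MulEquiv.apply_symm_apply]
  rw [← h5, h4]

/-- normal subgroups of prime power exponent -/
theorem exists_normalG {n : ℕ} (T : TrG n) (G : Type u) [Group G] (hG : ∀ x : G, x ^ n = 1)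
    (h2 : ∀ x y : G, Finite (Subgroup.closure {x, y}))
    (hs : n.primeFactors.card ≤ 2 ∨ ∀ x y : G, Group.IsSolvable (Subgroup.closure {x, y}))
    (hN : Gd n G) (hnt : Nontrivial G) :
    ∃ p k : ℕ, p.Prime ∧ p ^ k ∣ n ∧ ∃ N : Subgroup G, N.Normal ∧ N ≠ ⊥ ∧ ∀ x ∈ N, x ^ p ^ k = 1 := by
  by_contra hcon
  push Not at hcon
  obtain ⟨g, hg⟩ := exists_ne (1 : G)
  apply hg
  refine trG_u T G hG h2 hs hN (fun s hs => ?_) g
  by_contra hne
  obtain ⟨x, hx, hx'⟩ := hcon s (n.factorization s) hs (Nat.ordProj_dvd n s)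
    (Rad (qp s n) G) inferInstance hne
  exact hx' hx.1

/-- exponents with finite two-generator group -/
theorem locfin_trG {n : ℕ} (hn : n ≠ 0) (T : TrG n)
    (hE : ∀ m : ℕ, 2 ≤ m → (2 ^ m - 1).Prime → ¬ 2 ^ m * (2 ^ m - 1) ^ 2 ∣ n) (hL : ∀ p : ℕ, p.Prime → LocFin (qp p n))
    (hs : n.primeFactors.card ≤ 2 ∨ Group.IsSolvable (Bu 2 n))
    (hf : Finite (Bu 2 n)) : LocFin n := by
  intro G _ hG
  refine lf_trG hn T hL G hG (fun x y => ?_) (hs.imp id fun h x y => (two_of_bu hf h hG x y).2)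
    (Or.inl fun m h1 h2 h3 => absurd h3 (hE m h1 h2))
  obtain ⟨f, hfr⟩ := bu2 hG x y
  unfold c2
  rw [← hfr]
  exact Finite.of_surjective f.rangeRestrict f.rangeRestrict_surjective


/-- odd parts smaller than `11025` -/
theorem sq_small {m : ℕ} (hm : Odd m) (hm2 : m < 11025) (a : ℕ) : Sq (2 ^ a * m) := by
  obtain ⟨p0, q0, h0⟩ := (cd_small hm hm2).sq
  intro p q r hp hq hr h2 hpq hqr h3 h4 h5
  have key : ∀ s : ℕ, s.Prime → 2 < s → s ^ 2 ∣ 2 ^ a * m → s = p0 ∨ s = q0 := by
    intro s hs hs2 h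
    refine h0 s hs (by omega) ?_
    have h6 : Nat.Coprime (s ^ 2) (2 ^ a) := Nat.Coprime.pow _ _
      ((Nat.coprime_primes hs Nat.prime_two).2 (by omega))
    exact (h6.dvd_of_dvd_mul_left h).trans (dvd_mul_left _ _)
  have e1 := key p hp h2 h3
  have e2 := key q hq (by omega) h4
  have e3 := key r hr (by omega) h5
  omega

end Pool.Agent.N6.TrN
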