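import Mathlib
import Pool.Agent.N6.PfF
import Pool.Agent.N6.TrL

set_option autoImplicit false

/-!
# One generator of prime power order, part L: local finiteness and transfer to all universes
-/

namespace Pool.Agent.N6.Pf

open Pool.Agent.H32BU Pool.Agent.W629 Pool.Agent.TH69.Mtn Pool.Agent.TH69.Od Pool.Agent.TH69.Og
open Pool.Agent.TH69.Oh Pool.Agent.TH69.Ok Pool.Agent.TH69.Pq Pool.Agent.N6.TrN

universe u

/-- the property of exponents which is proved -/
def TrF (n : ℕ) : Prop := ∀ (G : Type) [Group G], (∀ x : G, x ^ n = 1) →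
  (∀ x y : G, PP y → Finite (c2 x y)) →
  (n.primeFactors.card ≤ 2 ∨ ∀ x y : G, PP y → Group.IsSolvable (c2 x y)) →
  GdP n G → (∀ s : ℕ, s.Prime → Rad (qp s n) G = ⊥) → ∀ g : G, g = 1

theorem trF_of {n : ℕ} (hn : n ≠ 0) (C : SqP n) : TrF n := by
  intro G _ hG h2 hs hN hR
  refine trivF n C hN ⟨hn, hG, h2, ?_⟩ hR
  rcases hs with hs | hs
  · obtain ⟨p, q, a, b, hp, hq, e⟩ := two_primes n (Nat.pos_of_ne_zero hn) hs
    intro x y hy
    have := h2 x y hy
    refine solv_of_exp p q a b hp hq fun z => ?_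
    rw [← e]
    exact exp_sub hG _ z
  · exact hs

theorem fin_transferF {Q : Type} {G : Type u} [Group Q] [Group G] (f : Q →* G)
    (hf : Function.Injective f) (h2 : ∀ x y : G, PP y → Finite (Subgroup.closure {x, y}))
    (x y : Q) (hy : PP y) : Finite (c2 x y) := by
  have h3 := h2 (f x) (f y) (hy.map f)
  have e : (c2 x y).map f = Subgroup.closure {f x, f y} := by
    unfold c2
    rw [MonoidHom.map_closure, Set.image_pair]
  rw [← e] at h3
  have eq := (c2 x y).equivMapOfInjective f hf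
  exact Finite.of_equiv _ eq.symm.toEquiv

theorem sol_transferF {Q : Type} {G : Type u} [Group Q] [Group G] (f : Q →* G)
    (hf : Function.Injective f) (h2 : ∀ x y : G, PP y → Group.IsSolvable (Subgroup.closure {x, y}))
    (x y : Q) (hy : PP y) : Group.IsSolvable (c2 x y) := by
  have h3 := h2 (f x) (f y) (hy.map f)
  have e : (c2 x y).map f = Subgroup.closure {f x, f y} := by
    unfold c2
    rw [MonoidHom.map_closure, Set.image_pair]
  rw [← e] at h3
  have eq := (c2 x y).equivMapOfInjective f hf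
  exact Group.isSolvable_of_isSolvable_injective (f := (eq : c2 x y →* (c2 x y).map f)) eq.injective

theorem lf_trF {n : ℕ} (hn : n ≠ 0) (T : TrF n) (hL : ∀ p : ℕ, p.Prime → LocFin (qp p n)) (G : Type)
    [Group G] (hG : ∀ x : G, x ^ n = 1) (h2 : ∀ x y : G, PP y → Finite (c2 x y))
    (hs : n.primeFactors.card ≤ 2 ∨ ∀ x y : G, PP y → Group.IsSolvable (c2 x y)) (hN : GdP n G) :
    LF G := by
  obtain ⟨M, hM, hML, hMmax⟩ := exists_radical G
  refine x_SCH G M hML ?_
  have h1 : ∀ g : G ⧸ M, g = 1 := by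
    refine T _ (exp_quot hG M) ?_ ?_
      (hN.of_surjective hn hG (QuotientGroup.mk' M) (QuotientGroup.mk'_surjective M)) ?_
    · intro x y hyp
      obtain ⟨x, rfl⟩ := QuotientGroup.mk_surjective x
      obtain ⟨y, hyq, rfl⟩ := pp_lift (QuotientGroup.mk' M) (QuotientGroup.mk'_surjective M) hn hG
        hyp
      have hmap : (c2 x y).map (QuotientGroup.mk' M) = c2 (x : G ⧸ M) (QuotientGroup.mk' M y) := map_c2 _ x y
      have hf := h2 x y hyq
      rw [← hmap]
      exact Finite.of_surjective _ ((QuotientGroup.mk' M).subgroupMap_surjective (c2 x y))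
    · rcases hs with hs | hs
      · exact Or.inl hs
      · right
        intro x y hyp
        obtain ⟨x, rfl⟩ := QuotientGroup.mk_surjective x
        obtain ⟨y, hyq, rfl⟩ := pp_lift (QuotientGroup.mk' M) (QuotientGroup.mk'_surjective M) hn hG
          hyp
        have hmap : (c2 x y).map (QuotientGroup.mk' M) = c2 (x : G ⧸ M) (QuotientGroup.mk' M y) :=
          map_c2 _ x y
        have hf := hs x y hyq
        rw [← hmap]
        exact Group.isSolvable_of_surjective
          ((QuotientGroup.mk' M).subgroupMap_surjective (c2 x y))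
    · intro s hs
      rw [eq_bot_iff]
      intro x hx
      have hN : ((Rad (qp s n) (G ⧸ M)).comap (QuotientGroup.mk' M)).Normal := inferInstance
      have hNL : LF ((Rad (qp s n) (G ⧸ M)).comap (QuotientGroup.mk' M)) := by
        have hML' : LF (M.subgroupOf ((Rad (qp s n) (G ⧸ M)).comap (QuotientGroup.mk' M))) := by
          refine x_LFS.2.1 _ M
            { toFun := fun x => ⟨(x : ↥((Rad (qp s n) (G ⧸ M)).comap (QuotientGroup.mk' M))), x.2⟩
              map_one' := rfl
              map_mul' := fun _ _ => rfl } ?_ hML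
          intro a b hab
          have : ((a : ↥((Rad (qp s n) (G ⧸ M)).comap (QuotientGroup.mk' M))) : G) =
              ((b : ↥((Rad (qp s n) (G ⧸ M)).comap (QuotientGroup.mk' M))) : G) :=
            congrArg (fun z : ↥M => (z : G)) hab
          exact Subtype.ext (Subtype.ext this)
        refine x_SCH _ (M.subgroupOf ((Rad (qp s n) (G ⧸ M)).comap (QuotientGroup.mk' M))) hML' ?_
        refine hL s hs _ fun q => ?_
        obtain ⟨⟨g, hg⟩, rfl⟩ := QuotientGroup.mk_surjective q
        rw [← QuotientGroup.mk_pow, QuotientGroup.eq_one_iff, Subgroup.mem_subgroupOf]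
        have h3 : ((g : G ⧸ M)) ^ qp s n = 1 := hg.1
        rw [← QuotientGroup.mk_pow, QuotientGroup.eq_one_iff] at h3
        exact h3
      obtain ⟨g, rfl⟩ := QuotientGroup.mk_surjective x
      have h4 : g ∈ (Rad (qp s n) (G ⧸ M)).comap (QuotientGroup.mk' M) := hx
      have h5 := hMmax _ hN hNL h4
      rw [Subgroup.mem_bot, QuotientGroup.eq_one_iff]
      exact h5
  intro S
  have : Subsingleton (G ⧸ M) := ⟨fun a b => by rw [h1 a, h1 b]⟩
  infer_instance

theorem lf_trF_u {n : ℕ} (hn : n ≠ 0) (T : TrF n) (hL : ∀ p : ℕ, p.Prime → LocFin (qp p n))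
    (G : Type u) [Group G] (hG : ∀ x : G, x ^ n = 1)
    (h2 : ∀ x y : G, PP y → Finite (Subgroup.closure {x, y}))
    (hs : n.primeFactors.card ≤ 2 ∨ ∀ x y : G, PP y → Group.IsSolvable (Subgroup.closure {x, y}))
    (hN : GdP n G) (S : Set G) (hS : S.Finite) : Finite (Subgroup.closure S) :=
  finite_closure_u S hS fun Q _ f hf => lf_trF hn T hL Q
    (fun x => hf (by rw [map_pow, map_one]; exact hG _)) (fin_transferF f hf h2)
    (hs.imp id fun h => sol_transferF f hf h) (hN.of_injective f hf dvd_rfl)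

/-- triviality of groups with trivial radicals, all universes -/
theorem trF_u {n : ℕ} (T : TrF n) (G : Type u) [Group G] (hG : ∀ x : G, x ^ n = 1)
    (h2 : ∀ x y : G, PP y → Finite (Subgroup.closure {x, y}))
    (hs : n.primeFactors.card ≤ 2 ∨ ∀ x y : G, PP y → Group.IsSolvable (Subgroup.closure {x, y}))
    (hN : GdP n G) (hR : ∀ s : ℕ, s.Prime → Rad (qp s n) G = ⊥) (g : G) : g = 1 := by
  classical
  have hex : ∀ (s : ℕ) (e : G), ∃ z : G, s.Prime → e ≠ 1 → e ^ qp s n = 1 →
      z ^ qp s n = 1 ∧ (e * z) ^ qp s n ≠ 1 := by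
    intro s e
    by_contra hcon
    push Not at hcon
    obtain ⟨hs, he1, he, -⟩ := hcon 1
    apply he1
    have h3 : e ∈ Rad (qp s n) G := ⟨he, fun z hz => (hcon z).2.2.2 hz⟩
    rw [hR s hs] at h3
    exact h3
  choose f hf using hex
  obtain ⟨C, hC, hgC, hfC⟩ := exists_closed f g
  have hsm : Small.{0} C := inferInstance
  let e : Shrink.{0} C ≃* C := Shrink.mulEquiv
  let φ : Shrink.{0} C →* G := C.subtype.comp e.toMonoidHom
  have hφ : Function.Injective φ := fun x y hxy => e.injective (Subtype.ext hxy)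
  have hmem : ∀ x, φ x ∈ C := fun x => (e x).2
  have h3 := T (Shrink.{0} C)
    (fun x => hφ (by rw [map_pow, map_one]; exact hG _)) (fin_transferF φ hφ h2)
    (hs.imp id fun h => sol_transferF φ hφ h) (hN.of_injective φ hφ dvd_rfl) (by
      intro s hs
      rw [Subgroup.eq_bot_iff_forall]
      rintro x ⟨hx, hx'⟩
      by_contra hne
      obtain ⟨h4, h5⟩ := hf s (φ x) hs (fun h => hne (hφ (by rw [h, map_one])))
        (by rw [← map_pow, hx, map_one])
      obtain ⟨z, hz⟩ : ∃ z, φ z = f s (φ x) := by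
        refine ⟨e.symm ⟨f s (φ x), hfC s _ (hmem x)⟩, ?_⟩
        change ((e (e.symm _) : C) : G) = _
        rw [MulEquiv.apply_symm_apply]
      have h6 := hx' z (hφ (by rw [map_pow, hz, h4, map_one]))
      apply h5
      rw [← hz, ← map_mul, ← map_pow, h6, map_one]) (e.symm ⟨g, hgC⟩)
  have h4 := congrArg φ h3
  rw [map_one] at h4
  have h5 : φ (e.symm ⟨g, hgC⟩) = g := by
    change ((e (e.symm _) : C) : G) = _
    rw [MulEquiv.apply_symm_apply]
  rw [← h5, h4]

/-- normal subgroups of prime power exponent -/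
theorem exists_normalF {n : ℕ} (T : TrF n) (G : Type u) [Group G] (hG : ∀ x : G, x ^ n = 1)
    (h2 : ∀ x y : G, PP y → Finite (Subgroup.closure {x, y}))
    (hs : n.primeFactors.card ≤ 2 ∨ ∀ x y : G, PP y → Group.IsSolvable (Subgroup.closure {x, y}))
    (hN : GdP n G) (hnt : Nontrivial G) :
    ∃ p k : ℕ, p.Prime ∧ p ^ k ∣ n ∧ ∃ N : Subgroup G, N.Normal ∧ N ≠ ⊥ ∧ ∀ x ∈ N, x ^ p ^ k = 1 := by
  by_contra hcon
  push Not at hcon
  obtain ⟨g, hg⟩ := exists_ne (1 : G)
  apply hg
  refine trF_u T G hG h2 hs hN (fun s hs => ?_) g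
  by_contra hne
  obtain ⟨x, hx, hx'⟩ := hcon s (n.factorization s) hs (Nat.ordProj_dvd n s)
    (Rad (qp s n) G) inferInstance hne
  exact hx' hx.1

/-- quotient of `B_{2,n}` in which the second generator has order dividing `s` -/
abbrev Bq (n s : ℕ) : Type :=
  FreeGroup (Fin 2) ⧸ Subgroup.normalClosure
    ((Set.range fun w : FreeGroup (Fin 2) => w ^ n) ∪ {FreeGroup.of 1 ^ s})

/-- homomorphism onto the two-generator subgroups -/
theorem bq2 {n s : ℕ} {G : Type} [Group G] (hG : ∀ x : G, x ^ n = 1) (a b : G) (hb : b ^ s = 1) :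
    ∃ f : Bq n s →* G, f.range = Subgroup.closure {a, b} := by
  let f0 : FreeGroup (Fin 2) →* G := FreeGroup.lift ![a, b]
  have hker : Subgroup.normalClosure
      ((Set.range fun w : FreeGroup (Fin 2) => w ^ n) ∪ {FreeGroup.of 1 ^ s}) ≤ f0.ker := by
    apply Subgroup.normalClosure_le_normal
    rintro _ (⟨w, rfl⟩ | h)
    · rw [SetLike.mem_coe, MonoidHom.mem_ker, map_pow, hG]
    · rw [Set.mem_singleton_iff.1 h, SetLike.mem_coe, MonoidHom.mem_ker, map_pow]
      have : f0 (FreeGroup.of 1) = b := by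
        simp [f0]
      rw [this, hb]
  refine ⟨QuotientGroup.lift _ f0 (fun w hw => hker hw), ?_⟩
  have e1 : (QuotientGroup.lift _ f0 (fun w hw => hker hw) : Bq n s →* G).range = f0.range := by
    ext g
    constructor
    · rintro ⟨w, rfl⟩
      obtain ⟨w, rfl⟩ := QuotientGroup.mk_surjective w
      exact ⟨w, rfl⟩
    · rintro ⟨w, rfl⟩
      exact ⟨(w : Bq n s), rfl⟩
  rw [e1]
  have e2 : f0.range = Subgroup.closure (Set.range ![a, b]) := FreeGroup.range_lift_eq_closure
  rw [e2]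
  congr 1
  ext g
  simp only [Set.mem_range, Fin.exists_fin_succ, Set.mem_insert_iff, Set.mem_singleton_iff]
  simp [eq_comm]

theorem bq_finite {n : ℕ} (h : LocFin n) (s : ℕ) : Finite (Bq n s) := by
  have h1 : Finite (Bu 2 n) := x_LFD.2.1 n 2 h
  have hle : Subgroup.normalClosure (Set.range fun w : FreeGroup (Fin 2) => w ^ n) ≤
      (QuotientGroup.mk' (Subgroup.normalClosure
        ((Set.range fun w : FreeGroup (Fin 2) => w ^ n) ∪ {FreeGroup.of 1 ^ s}))).ker := by
    rw [QuotientGroup.ker_mk']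
    exact Subgroup.normalClosure_mono Set.subset_union_left
  refine Finite.of_surjective (QuotientGroup.lift _ (QuotientGroup.mk' (Subgroup.normalClosure
    ((Set.range fun w : FreeGroup (Fin 2) => w ^ n) ∪ {FreeGroup.of 1 ^ s})))
    (fun w hw => hle hw) : Bu 2 n →* Bq n s) ?_
  intro x
  obtain ⟨w, rfl⟩ := QuotientGroup.mk_surjective x
  exact ⟨(w : Bu 2 n), rfl⟩

/-- elements of prime power order have order dividing `p ^ k` with `p ^ k ∣ n` -/
theorem pp_dvd {n : ℕ} {G : Type u} [Group G] {y : G} (hy1 : y ^ n = 1) (hy : PP y) :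
    ∃ p k : ℕ, p.Prime ∧ p ^ k ∣ n ∧ y ^ p ^ k = 1 := by
  obtain ⟨r, k, hr, h⟩ := hy
  obtain ⟨i, hi, hi2⟩ := (Nat.dvd_prime_pow hr).1 (orderOf_dvd_of_pow_eq_one h)
  refine ⟨r, i, hr, ?_, ?_⟩
  · rw [← hi2]
    exact orderOf_dvd_of_pow_eq_one hy1
  · rw [← hi2]
    exact pow_orderOf_eq_one y

/-- exponents with finite quotients of the two-generator group -/
theorem locfin_trF {n : ℕ} (hn : n ≠ 0) (T : TrF n)
    (hE : ∀ m : ℕ, 2 ≤ m → (2 ^ m - 1).Prime → ¬ 2 ^ m * (2 ^ m - 1) ^ 2 ∣ n)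
    (hL : ∀ p : ℕ, p.Prime → LocFin (qp p n))
    (hs : n.primeFactors.card ≤ 2 ∨
      ∀ p k : ℕ, p.Prime → p ^ k ∣ n → Group.IsSolvable (Bq n (p ^ k)))
    (hf : ∀ p k : ℕ, p.Prime → p ^ k ∣ n → Finite (Bq n (p ^ k))) : LocFin n := by
  intro G _ hG
  refine lf_trF hn T hL G hG (fun x y hy => ?_) (hs.imp id fun h x y hy => ?_)
    (Or.inl fun m h1 h2 h3 => absurd h3 (hE m h1 h2))
  · obtain ⟨p, k, hp, hk, hy2⟩ := pp_dvd (hG y) hy
    obtain ⟨f, hfr⟩ := bq2 hG x y hy2
    have := hf p k hp hk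
    unfold c2
    rw [← hfr]
    exact Finite.of_surjective f.rangeRestrict f.rangeRestrict_surjective
  · obtain ⟨p, k, hp, hk, hy2⟩ := pp_dvd (hG y) hy
    obtain ⟨f, hfr⟩ := bq2 hG x y hy2
    have := h p k hp hk
    unfold c2
    rw [← hfr]
    exact Group.isSolvable_of_surjective f.rangeRestrict_surjective

/-- odd parts smaller than `665` -/
theorem sqP_small {m : ℕ} (hm : Odd m) (hm2 : m < 665) (h225 : m ≠ 225) (a : ℕ) :
    SqP (2 ^ a * m) := by
  intro p q hp hq h2 hpq h3 h4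
  have h5 : Nat.Coprime (p ^ 2) (2 ^ a) := Nat.Coprime.pow _ _
    ((Nat.coprime_primes hp Nat.prime_two).2 (by omega))
  have h6 : Nat.Coprime (q ^ 2) (2 ^ a) := Nat.Coprime.pow _ _
    ((Nat.coprime_primes hq Nat.prime_two).2 (by omega))
  have h7 : p ^ 2 ∣ m := h5.dvd_of_dvd_mul_left h3
  have h8 : q ^ 2 ∣ m := h6.dvd_of_dvd_mul_left h4
  have h9 : p ^ 2 * q ^ 2 ∣ m := Nat.Coprime.mul_dvd_of_dvd_of_dvd
    (Nat.Coprime.pow _ _ ((Nat.coprime_primes hp hq).2 (by omega))) h7 h8
  have hm0 : 0 < m := hm.pos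
  have h10 := Nat.le_of_dvd hm0 h9
  have hq9 : q < 9 := by
    by_contra h
    push Not at h
    have h11 : 3 ^ 2 * 9 ^ 2 ≤ p ^ 2 * q ^ 2 :=
      Nat.mul_le_mul (Nat.pow_le_pow_left (by omega) 2) (Nat.pow_le_pow_left h 2)
    omega
  have hp8 : p < 8 := by omega
  have hq' : q = 5 ∨ q = 7 := by
    have h12 : 4 ≤ q := by omega
    interval_cases q
    · exact absurd hq (by norm_num)
    · exact Or.inl rfl
    · exact absurd hq (by norm_num)
    · exact Or.inr rfl
    · exact absurd hq (by norm_num)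
  have hp' : p = 3 ∨ p = 5 ∨ p = 7 := by
    interval_cases p
    · exact Or.inl rfl
    · exact absurd hp (by norm_num)
    · exact Or.inr (Or.inl rfl)
    · exact absurd hp (by norm_num)
    · exact Or.inr (Or.inr rfl)
  rcases hq' with rfl | rfl
  · rcases hp' with rfl | rfl | rfl
    · exfalso
      obtain ⟨c, hc⟩ := h9
      obtain ⟨d, hd⟩ := hm
      omega
    · omega
    · omega
  · rcases hp' with rfl | rfl | rfl
    · norm_num
    · omega
    · omega

end Pool.Agent.N6.Pf
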