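import Mathlib
import Pool.Agent.N6.PfF
import Pool.Agent.N6.PfL

set_option autoImplicit false

/-!
# One generator a `2`-element or of prime order, part A: centralisers and minimal subgroups
-/

namespace Pool.Agent.N6.Pg

open Pool.Agent.H32BU Pool.Agent.W629 Pool.Agent.TH69.Mtn Pool.Agent.TH69.Od Pool.Agent.TH69.Og
open Pool.Agent.TH69.Oh Pool.Agent.TH69.Ok Pool.Agent.TH69.Pq Pool.Agent.N6.Pf

universe u v

/-- `2`-elements and elements of order dividing `s` -/
def PQ (s : ℕ) {G : Type u} [Group G] (y : G) : Prop := (∃ k : ℕ, y ^ 2 ^ k = 1) ∨ y ^ s = 1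

theorem PQ.pp {s : ℕ} (hs : s.Prime) {G : Type u} [Group G] {y : G} (h : PQ s y) : PP y := by
  rcases h with ⟨k, h⟩ | h
  · exact ⟨2, k, Nat.prime_two, h⟩
  · exact PP.of1 hs h

theorem PQ.map {s : ℕ} {G : Type u} {H : Type v} [Group G] [Group H] {y : G} (h : PQ s y)
    (f : G →* H) : PQ s (f y) := by
  rcases h with ⟨k, h⟩ | h
  · exact Or.inl ⟨k, by rw [← map_pow, h, map_one]⟩
  · exact Or.inr (by rw [← map_pow, h, map_one])

/-- the hypotheses on the group -/
structure Sh (n s α β : ℕ) (G : Type) [Group G] : Prop where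
  hs : s.Prime
  hs2 : s ≠ 2
  hn : s ^ β * 2 ^ α = n
  exp : ∀ x : G, x ^ n = 1
  fin : ∀ x y : G, PQ s y → Finite (c2 x y)

variable {G : Type} [Group G] {n s α β : ℕ}

theorem Sh.sol (S : Sh n s α β G) (x y : G) (h : PQ s y) : Group.IsSolvable (c2 x y) := by
  have := S.fin x y h
  refine solv_of_exp s 2 β α S.hs Nat.prime_two fun z => ?_
  rw [S.hn]
  exact exp_sub S.exp _ z

theorem Sh.fin' (S : Sh n s α β G) (x y : G) (h : PQ s x) : Finite (c2 x y) := by
  rw [c2_comm]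
  exact S.fin y x h

theorem Sh.sol' (S : Sh n s α β G) (x y : G) (h : PQ s x) : Group.IsSolvable (c2 x y) := by
  rw [c2_comm]
  exact S.sol y x h

theorem Sh.n0 (S : Sh n s α β G) : n ≠ 0 := by
  rw [← S.hn]
  exact Nat.mul_ne_zero (pow_ne_zero _ S.hs.ne_zero) (pow_ne_zero _ two_ne_zero)

theorem Sh.hM (S : Sh n s α β G) : Nat.Coprime (s ^ β) 2 :=
  Nat.Coprime.pow_left _ ((Nat.coprime_primes S.hs Nat.prime_two).2 S.hs2)

theorem Sh.hMQ (S : Sh n s α β G) : Nat.Coprime (s ^ β) (2 ^ α) := Nat.Coprime.pow_right _ S.hM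

theorem Sh.hexp (S : Sh n s α β G) : ∀ x : G, x ^ (s ^ β * 2 ^ α) = 1 := by
  rw [S.hn]
  exact S.exp

/-- `O_{2'}` of the centraliser of a `2`-element, elements of order `s` -/
theorem t3s (S : Sh n s α β G) {g e : G} (hes : e ^ s = 1)
    (hg : g ^ 2 ^ α = 1) (he : e ∈ Tw.RK (s ^ β) (Subgroup.centralizer {g})) :
    e ∈ Rad (s ^ β) G := by
  have hMQ := S.hMQ
  have heM := Tw.RK_pow he
  have hge : Commute g e := (Tw.mem_cent.1 (Tw.RK_le he)).symm
  have hexp := S.hexp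
  -- with `2`-elements
  have key : ∀ z : G, z ^ 2 ^ α = 1 → (e⁻¹ * (z⁻¹ * e * z)) ^ s ^ β = 1 := by
    intro z hz
    have hK := S.fin (g * e) z (Or.inl ⟨α, hz⟩)
    have hs := S.sol (g * e) z (Or.inl ⟨α, hz⟩)
    obtain ⟨K, hKd⟩ : ∃ K, K = c2 (g * e) z := ⟨_, rfl⟩
    have h1 : g * e ∈ K := by rw [hKd]; exact Subgroup.subset_closure (by simp)
    have hzK : z ∈ K := by rw [hKd]; exact Subgroup.subset_closure (by simp)
    rw [← hKd] at hK hs
    obtain ⟨hgK, heK⟩ := mem_of_mul hge.eq hg heM hMQ.symm K h1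
    have h2 : (⟨e, heK⟩ : K) ∈ Rad (s ^ β) K := by
      refine t3q_fin Nat.prime_two S.hM (exp_sub hexp K) hs (g := ⟨g, hgK⟩)
        (Subtype.ext hg) (Subtype.ext (by simpa using heM)) (Subtype.ext hge.eq) ?_
      rintro ⟨x, hx⟩ hxg
      have hxg' : Commute x g := congrArg Subtype.val hxg
      exact Subtype.ext (by simpa using Tw.cent_comm he hxg')
    have h3 : (⟨e, heK⟩ : K)⁻¹ * ((⟨z, hzK⟩ : K)⁻¹ * ⟨e, heK⟩ * ⟨z, hzK⟩) ∈ Rad (s ^ β) K :=
      mul_mem (inv_mem h2) (Tw.conj_mem_rad' h2 _)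
    exact congrArg Subtype.val (rad_pow h3)
  refine ⟨heM, fun t ht => ?_⟩
  have hE := S.fin' e t (Or.inr hes)
  have hEs := S.sol' e t (Or.inr hes)
  have heE : e ∈ c2 e t := Subgroup.subset_closure (by simp)
  have htE : t ∈ c2 e t := Subgroup.subset_closure (by simp)
  have h1 := det_fin (F := c2 e t) S.hM (exp_sub hexp _) hEs (e := ⟨e, heE⟩) (Subtype.ext heM)
    (fun z hz => Subtype.ext (by simpa using key z (congrArg Subtype.val hz)))
  have h2 := rad_mul h1 (z := ⟨t, htE⟩) (Subtype.ext ht)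
  exact congrArg Subtype.val h2

/-- `O_{2'}` of the centraliser of a `2`-element is trivial -/
theorem t3 (S : Sh n s α β G) (rM : Rad (s ^ β) G = ⊥) {g : G} (hg : g ^ 2 ^ α = 1) :
    ∀ (j : ℕ) (e : G), e ^ s ^ j = 1 → e ∈ Tw.RK (s ^ β) (Subgroup.centralizer {g}) → e = 1 := by
  intro j
  induction j with
  | zero =>
    intro e he _
    rwa [pow_zero, pow_one] at he
  | succ j ih =>
    intro e he he2
    have h1 := ih (e ^ s) (by rw [← pow_mul, ← pow_succ', he]) (pow_mem he2 s)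
    have h2 := t3s S h1 hg he2
    rwa [rM, Subgroup.mem_bot] at h2

/-- an `s`-element commuting with `g` which lies in `O_{2'}` of all finite subgroups containing
`g` and `y` -/
theorem t4 (S : Sh n s α β G) (rM : Rad (s ^ β) G = ⊥) {g y τ : G} (hy : PQ s y)
    (hg : g ^ 2 ^ α = 1) (hτ : Commute τ g)
    (hall : ∀ K : Subgroup G, Finite K → Group.IsSolvable K → g ∈ K → y ∈ K →
      τ ∈ Tw.RK (s ^ β) K) : τ = 1 := by
  have hMQ := S.hMQ
  have hτM : τ ^ s ^ β = 1 := by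
    have := Tw.RK_pow (hall (c2 g y) (S.fin _ _ hy) (S.sol _ _ hy)
      (Subgroup.subset_closure (by simp)) (Subgroup.subset_closure (by simp)))
    simpa using this
  refine t3 S rM hg β τ hτM ?_
  refine Tw.mem_RK.2 ⟨Tw.mem_cent.2 hτ, ?_, ?_⟩
  · exact Subtype.ext (by simpa using hτM)
  · rintro ⟨z, hz⟩ hzM
    have hzM' : z ^ s ^ β = 1 := by simpa using congrArg Subtype.val hzM
    have hzs : Commute g z := (Tw.mem_cent.1 hz).symm
    have h1 : g * z ∈ c2 (g * z) y := Subgroup.subset_closure (by simp)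
    have hyK : y ∈ c2 (g * z) y := Subgroup.subset_closure (by simp)
    obtain ⟨hsK, hzK⟩ := mem_of_mul hzs.eq hg hzM' hMQ.symm _ h1
    have := Tw.RK_mul (hall _ (S.fin _ _ hy) (S.sol _ _ hy) hsK hyK) hzK hzM'
    exact Subtype.ext (by simpa using this)

end Pool.Agent.N6.Pg
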