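import Mathlib
import Pool.Agent.N6.PgA

set_option autoImplicit false

/-!
# One generator a `2`-element or of prime order, part B: minimal subgroups
-/

namespace Pool.Agent.N6.Pg

open Pool.Agent.H32BU Pool.Agent.W629 Pool.Agent.TH69.Mtn Pool.Agent.TH69.Od Pool.Agent.TH69.Og
open Pool.Agent.TH69.Oh Pool.Agent.TH69.Ok Pool.Agent.TH69.Pq Pool.Agent.N6.Pf

variable {G : Type} [Group G] {n s α β : ℕ}

theorem Sh.hs' (S : Sh n s α β G) : qp s n ∣ s ^ β :=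
  qp_dvd_M Nat.prime_two S.hs S.hs2 (by rw [mul_comm]; exact S.hn)

/-- no nontrivial element of a minimal subgroup commutes with `w` -/
theorem c1 (S : Sh n s α β G) (rM : Rad (s ^ β) G = ⊥) {w : G} (hw : SG (2 ^ α) (s ^ β) w)
    {U : Subgroup G} (A : Arr n s w U) {e : G} (he : e ∈ U) (he1 : e ≠ 1) (hew : e * w = w * e) :
    False := by
  have hs := S.hs'
  obtain ⟨u, hu, huw⟩ := A.nc
  obtain ⟨hcU, hcw⟩ := A.comm_nc hw.1 (Nat.Coprime.coprime_dvd_right hs S.hMQ.symm) hu huw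
  refine he1 (t4 S rM (y := u * w * u⁻¹) (Or.inl ⟨α, conj_pow_one hw.1⟩) hw.1 hew
    fun K hK hKs hwK huK => ?_)
  have hcK : w * u * w⁻¹ * u⁻¹ ∈ K := by
    have h1 := mul_mem hwK (inv_mem huK)
    have e : w * (u * w * u⁻¹)⁻¹ = w * u * w⁻¹ * u⁻¹ := by group
    rwa [e] at h1
  have hUK := A.gen _ hwK hcU hcK hcw
  obtain ⟨B, h1, h2, h3⟩ := in_AG S.hMQ.symm hs hw A hK hKs hwK hUK
  have hn1 : (B.subgroupOf K).Normal := ⟨fun x hx g => h1 g g.2 x hx⟩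
  have h7 := le_rad (G := K) S.hMQ (exp_sub S.hexp K)
    (B.subgroupOf K) (fun x hx => Subtype.ext (h2 x hx))
  exact Tw.mem_RK.2 ⟨hUK he, h7 (h3 he)⟩

/-- structure of the minimal subgroups -/
theorem arr_struct (S : Sh n s α β G) (rM : Rad (s ^ β) G = ⊥) {w : G} (hw : SG (2 ^ α) (s ^ β) w)
    {U : Subgroup G} (A : Arr n s w U) : (∀ u ∈ U, ∀ v ∈ U, u * v = v * u) ∧ (∀ u ∈ U, u ^ s = 1) ∧
      (∀ u ∈ U, u ≠ 1 → w * u ≠ u * w) ∧
      (∀ V : Subgroup G, V ≤ U → (∀ u ∈ V, w * u * w⁻¹ ∈ V) → V ≠ ⊥ → V = U) := by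
  have hsp := S.hs
  have hs := S.hs'
  have hUfin := A.fin
  have hUP : ∀ u ∈ U, u ^ qp s n = 1 := A.pow
  have hUne : (⊤ : Subgroup U) ≠ ⊥ := by
    intro h
    obtain ⟨u, hu, huw⟩ := A.nc
    have h1 : (⟨u, hu⟩ : U) ∈ (⊤ : Subgroup U) := Subgroup.mem_top _
    rw [h, Subgroup.mem_bot] at h1
    have h2 : u = 1 := congrArg Subtype.val h1
    rw [h2, mul_one, one_mul] at huw
    exact huw rfl
  -- the subgroup `Ω_1(Z(U))`
  let V : Subgroup G :=
    { carrier := {v | v ∈ U ∧ (∀ r ∈ U, v * r = r * v) ∧ v ^ s = 1}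
      one_mem' := ⟨one_mem _, fun r _ => by rw [mul_one, one_mul], one_pow _⟩
      mul_mem' := by
        rintro a b ⟨ha, ha2, ha3⟩ ⟨hb, hb2, hb3⟩
        refine ⟨mul_mem ha hb, fun r hr => ?_, ?_⟩
        · rw [mul_assoc, hb2 r hr, ← mul_assoc, ha2 r hr, mul_assoc]
        · have : Commute a b := ha2 b hb
          rw [this.mul_pow, ha3, hb3, one_mul]
      inv_mem' := by
        rintro a ⟨ha, ha2, ha3⟩
        refine ⟨inv_mem ha, fun r hr => ?_, by rw [inv_pow, ha3, inv_one]⟩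
        have h1 := ha2 r hr
        rw [inv_mul_eq_iff_eq_mul, ← mul_assoc, h1]
        group }
  have hwinv := inv_conj (Nat.pow_pos (by norm_num)) hw.1 A.inv
  have hVinv : ∀ v ∈ V, w * v * w⁻¹ ∈ V := by
    rintro v ⟨h1, h2, h3⟩
    refine ⟨A.inv v h1, fun r hr => ?_, conj_pow_one h3⟩
    have h5 := h2 _ (hwinv r hr)
    calc w * v * w⁻¹ * r = w * (v * (w⁻¹ * r * w)) * w⁻¹ := by group
      _ = w * ((w⁻¹ * r * w) * v) * w⁻¹ := by rw [h5]
      _ = r * (w * v * w⁻¹) := by group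
  obtain ⟨V', -, hV'1, -, hV'2, hV'3⟩ := exists_omega (α := n.factorization s) hsp
    (⊤ : Subgroup U) inferInstance hUne fun x _ => Subtype.ext (hUP x x.2)
  have hVne : ∃ e ∈ V, e ≠ 1 := by
    obtain ⟨e, he1⟩ := (Subgroup.ne_bot_iff_exists_ne_one).1 hV'1
    refine ⟨((e : U) : G), ⟨(e : U).2, fun r hr => ?_, ?_⟩, fun h => he1 ?_⟩
    · exact congrArg Subtype.val (hV'2 e e.2 ⟨r, hr⟩ (Subgroup.mem_top _))
    · exact congrArg Subtype.val (hV'3 e e.2)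
    · exact Subtype.ext (Subtype.ext h)
  have hVU : V = U := by
    apply A.min V (fun v hv => hv.1) hVinv
    by_contra hcon
    push Not at hcon
    obtain ⟨e, he, he1⟩ := hVne
    exact c1 S rM hw A he.1 he1 (hcon e he).symm
  have hab : ∀ u ∈ U, ∀ v ∈ U, u * v = v * u := by
    intro u hu v hv
    have : u ∈ V := by rw [hVU]; exact hu
    exact this.2.1 v hv
  have hpow : ∀ u ∈ U, u ^ s = 1 := by
    intro u hu
    have : u ∈ V := by rw [hVU]; exact hu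
    exact this.2.2
  have hfpf : ∀ u ∈ U, u ≠ 1 → w * u ≠ u * w := by
    intro u hu hu1 h
    exact c1 S rM hw A hu hu1 h.symm
  refine ⟨hab, hpow, hfpf, fun W hW hWinv hW1 => ?_⟩
  apply A.min W hW hWinv
  obtain ⟨e, he⟩ := (Subgroup.ne_bot_iff_exists_ne_one).1 hW1
  exact ⟨e, e.2, hfpf e (hW e.2) fun h => he (Subtype.ext h)⟩

theorem nice_ex (S : Sh n s α β G) {P Q : ℕ} (hab : Nat.Coprime P Q) (hn : P * Q = n)
    (rp : Rad P G = ⊥) {e : G} (hep : e ^ s = 1) (he : e ^ P = 1) (he1 : e ≠ 1) :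
    ∃ g, Nice P e g := by
  classical
  have hexp : ∀ x : G, x ^ (P * Q) = 1 := by rw [hn]; exact S.exp
  -- subgroups with `e` outside the radical
  have step : ∀ K : Subgroup G, Finite K → Group.IsSolvable K → e ∈ K →
      (∃ t ∈ K, t ^ P = 1 ∧ (e * t) ^ P ≠ 1) →
      ∃ k ∈ K, ¬ ∀ x ∈ c2 e (k * e * k⁻¹), x ^ P = 1 := by
    rintro K hK hKs heK ⟨t, htK, ht, het⟩
    by_contra hcon
    push Not at hcon
    have h1 := bsfG hab (exp_sub hexp K) hKs (e := ⟨e, heK⟩) (Subtype.ext he) (by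
      intro k x hx
      apply Subtype.ext
      rw [Subgroup.coe_pow, Subgroup.coe_one]
      refine hcon k k.2 x ?_
      have h2 : (c2 (⟨e, heK⟩ : K) (k * ⟨e, heK⟩ * k⁻¹)).map K.subtype =
          c2 e ((k : G) * e * (k : G)⁻¹) := by
        unfold c2
        rw [MonoidHom.map_closure, Set.image_pair]
        rfl
      rw [← h2]
      exact ⟨x, hx, rfl⟩)
    have h2 := rad_mul h1 (z := ⟨t, htK⟩) (Subtype.ext ht)
    exact het (congrArg Subtype.val h2)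
  obtain ⟨t, ht, het⟩ : ∃ t : G, t ^ P = 1 ∧ (e * t) ^ P ≠ 1 := by
    by_contra hcon
    push Not at hcon
    have h1 : e ∈ Rad P G := ⟨he, hcon⟩
    rw [rp] at h1
    exact he1 h1
  have hex : ∃ d, ∃ g : G, (¬ ∀ x ∈ c2 e (g * e * g⁻¹), x ^ P = 1) ∧
      Nat.card (c2 e (g * e * g⁻¹)) = d := by
    obtain ⟨k, -, hk⟩ := step (c2 e t) (S.fin' e t (Or.inr hep)) (S.sol' e t (Or.inr hep)) (Subgroup.subset_closure (by simp))
      ⟨t, Subgroup.subset_closure (by simp), ht, het⟩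
    exact ⟨_, k, hk, rfl⟩
  obtain ⟨g, hg, hgd⟩ := Nat.find_spec hex
  have hmin := fun d (hd : d < Nat.find hex) => Nat.find_min hex hd
  have hfin := S.fin' e (g * e * g⁻¹) (Or.inr hep)
  have hsol := S.sol' e (g * e * g⁻¹) (Or.inr hep)
  have heK : e ∈ c2 e (g * e * g⁻¹) := Subgroup.subset_closure (by simp)
  have hgK : g * e * g⁻¹ ∈ c2 e (g * e * g⁻¹) := Subgroup.subset_closure (by simp)
  have h1 : ∃ t ∈ c2 e (g * e * g⁻¹), t ^ P = 1 ∧ (e * t) ^ P ≠ 1 := by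
    by_contra hcon
    push Not at hcon
    -- `e` is in the radical of `K`
    let e' : c2 e (g * e * g⁻¹) := ⟨e, heK⟩
    let y' : c2 e (g * e * g⁻¹) := ⟨g * e * g⁻¹, hgK⟩
    have h2 : e' ∈ Rad P (c2 e (g * e * g⁻¹)) :=
      ⟨Subtype.ext he, fun z hz => Subtype.ext (hcon z z.2 (congrArg Subtype.val hz))⟩
    apply hg
    intro x hx
    have h3 : (⊤ : Subgroup (c2 e (g * e * g⁻¹))) ≤
        (Subgroup.zpowers ((y' : c2 e (g * e * g⁻¹)) : c2 e (g * e * g⁻¹) ⧸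
          Rad P (c2 e (g * e * g⁻¹)))).comap (QuotientGroup.mk' _) := by
      have h4 : (⊤ : Subgroup (c2 e (g * e * g⁻¹))) = Subgroup.closure {e', y'} := by
        apply Subgroup.map_injective (c2 e (g * e * g⁻¹)).subtype_injective
        rw [← MonoidHom.range_eq_map, Subgroup.range_subtype, MonoidHom.map_closure,
          Set.image_pair]
        rfl
      rw [h4, Subgroup.closure_le]
      rintro a (rfl | ha)
      · rw [SetLike.mem_coe, Subgroup.mem_comap, QuotientGroup.mk'_apply,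
          (QuotientGroup.eq_one_iff e').2 h2]
        exact one_mem _
      · rw [Set.mem_singleton_iff.1 ha]
        exact Subgroup.mem_zpowers _
    have h5 := h3 (Subgroup.mem_top (⟨x, hx⟩ : c2 e (g * e * g⁻¹)))
    obtain ⟨i, hi⟩ := Subgroup.mem_zpowers_iff.1 h5
    have hy : y' ^ P = 1 := Subtype.ext (conj_pow_one he)
    have h6 : (((⟨x, hx⟩ : c2 e (g * e * g⁻¹)) : c2 e (g * e * g⁻¹) ⧸
        Rad P (c2 e (g * e * g⁻¹)))) ^ P = 1 := by
      change (QuotientGroup.mk' _ _) ^ P = 1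
      rw [← hi, ← zpow_natCast, ← zpow_mul, mul_comm, zpow_mul, zpow_natCast,
        ← QuotientGroup.mk_pow, hy]
      exact one_zpow i
    have h7 := pow_of_mk hab (exp_sub hexp _) _ (fun x hx => rad_pow hx) h6
    exact congrArg Subtype.val h7
  obtain ⟨k, hkK, hk⟩ := step _ hfin hsol heK h1
  have hle : c2 e (k * e * k⁻¹) ≤ c2 e (g * e * g⁻¹) :=
    c2_le heK (mul_mem (mul_mem hkK heK) (inv_mem hkK))
  have heq : c2 e (k * e * k⁻¹) = c2 e (g * e * g⁻¹) := by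
    refine Subgroup.eq_of_le_of_card_ge hle ?_
    by_contra hlt
    push Not at hlt
    rw [hgd] at hlt
    exact hmin _ hlt ⟨k, hk, rfl⟩
  exact ⟨k, by rw [heq]; exact hkK, hk⟩

/-- no eigenvectors -/
theorem no_eig (S : Sh n s α β G) (rM : Rad (s ^ β) G = ⊥) {w : G} (hw : SG (2 ^ α) (s ^ β) w)
    {U : Subgroup G} (A : Arr n s w U) {v : G} (hv : v ∈ U) (hv1 : v ≠ 1) {l : ℕ} (hl : w * v * w⁻¹ = v ^ l) :
    False := by
  have hsp := S.hs
  have hs := S.hs'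
  obtain ⟨h1, h2, h3, h4⟩ := arr_struct S rM hw A
  have hvp := h2 v hv
  have hvP : v ^ s ^ β = 1 := arr_powM hs A hv
  obtain ⟨g, hg⟩ := nice_ex S S.hMQ S.hn rM hvp hvP hv1
  obtain ⟨m, hm⟩ : ∃ m : ℕ, (w * v * w⁻¹) ^ m = v := by
    rw [hl]
    apply pow_gen hsp hvp
    intro h
    rw [h, mul_inv_eq_one] at hl
    apply hv1
    exact (left_eq_mul.1 hl.symm)
  obtain ⟨m1, m2, m3, m4, m5⟩ := gens S.hMQ (x := v) (k := 1) (g := g) (c := w) hvP
    (one_pow _) (by rw [mul_one, one_mul]) ⟨m, hm⟩ hg.1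
  have hv1p : PQ s (v * 1) := by
    rw [mul_one]
    exact Or.inr hvp
  obtain ⟨B, h5, h6, h7⟩ := (hw.2 _ (S.fin' _ _ hv1p) (S.sol' _ _ hv1p) m4).comm_mem S.hMQ.symm
  have h8 : w * v * w⁻¹ * v⁻¹ ∈ B := by
    apply h7 v m1
    exact arr_powM hs A (U.mul_mem (A.inv v hv) (U.inv_mem hv))
  have h9 : w * v * w⁻¹ * v⁻¹ = v ^ (l + (s - 1)) := by
    rw [hl, pow_add]
    congr 1
    rw [inv_eq_iff_mul_eq_one, ← pow_succ', Nat.sub_add_cancel hsp.one_lt.le, hvp]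
  have h10 : v ^ (l + (s - 1)) ≠ 1 := by
    rw [← h9]
    intro h
    rw [mul_inv_eq_one, mul_inv_eq_iff_eq_mul] at h
    exact h3 v hv hv1 h
  obtain ⟨m', hm'⟩ := pow_gen hsp hvp h10
  have h11 : v ∈ B := by
    rw [← hm', ← h9]
    exact pow_mem h8 m'
  exact nice_false hg h6 (h5 g m3) h11

/-- no minimal `s`-subgroups -/
theorem no_arr (S : Sh n s α β G) (rM : Rad (s ^ β) G = ⊥) {w : G} (hw : SG (2 ^ α) (s ^ β) w)
    (hwq : w ^ 2 = 1)
    {U : Subgroup G} (A : Arr n s w U) : False := by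
  have := A.fin
  have hsp := S.hs
  have hqs : 2 ∣ s - 1 := by
    have h3 := hsp.eq_two_or_odd.resolve_left S.hs2
    have h4 := hsp.two_le
    omega
  obtain ⟨h1, h2, h3, h4⟩ := arr_struct S rM hw A
  have hU : ∃ u ∈ U, u ≠ 1 := by
    obtain ⟨u, hu, huw⟩ := A.nc
    refine ⟨u, hu, ?_⟩
    rintro rfl
    rw [mul_one, one_mul] at huw
    exact huw rfl
  obtain ⟨v, hv, hv1, l, hl⟩ := eig hsp hqs U h1 h2 hwq A.inv hU
  exact no_eig S rM hw A hv hv1 hl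

/-- if `w` acts trivially on the finite `s`-subgroups, then `w` is in the radical -/
theorem rad_of_no_arr (S : Sh n s α β G) (rq : Rad (2 ^ α) G = ⊥) {w : G}
    (hw : SG (2 ^ α) (s ^ β) w)
    (hno : ∀ s : ℕ, s.Prime → s ≠ 2 → ∀ U : Subgroup G, ¬ Arr n s w U) : w = 1 := by
  by_contra hw1
  have hq := Nat.prime_two
  have hqM := S.hM.symm
  have hn : 2 ^ α * s ^ β = n := by rw [mul_comm]; exact S.hn
  have hexp : ∀ x : G, x ^ (2 ^ α * s ^ β) = 1 := by rw [hn]; exact S.exp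
  have hab : Nat.Coprime (2 ^ α) (s ^ β) := Nat.Coprime.pow_left _ hqM
  obtain ⟨t, ht, hwt⟩ : ∃ t : G, t ^ 2 ^ α = 1 ∧ (w * t) ^ 2 ^ α ≠ 1 := by
    by_contra hcon
    push Not at hcon
    have h1 : w ∈ Rad (2 ^ α) G := ⟨hw.1, hcon⟩
    rw [rq] at h1
    exact hw1 h1
  have hwE : w ∈ c2 w t := Subgroup.subset_closure (by simp)
  have htE : t ∈ c2 w t := Subgroup.subset_closure (by simp)
  obtain ⟨E, hE⟩ : ∃ E, E = c2 w t := ⟨_, rfl⟩
  have hfin : Finite E := by rw [hE]; exact S.fin' w t (Or.inl ⟨α, hw.1⟩)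
  have hsol : Group.IsSolvable E := by rw [hE]; exact S.sol' w t (Or.inl ⟨α, hw.1⟩)
  rw [← hE] at hwE htE
  obtain ⟨A, B, h1, h2, h3, h4, h5⟩ := hw.2 E hfin hsol hwE
  have hf' : Finite (A ⊓ E : Subgroup G) :=
    Finite.of_injective (Subgroup.inclusion inf_le_right) (Subgroup.inclusion_injective _)
  have hcA : ∀ a ∈ A, a ∈ E → w * a = a * w := by
    intro a ha haE
    refine cov (g := w) (k := α) hq (L := A ⊓ E) hf' hw.1
      (Pool.Agent.TH69.Og.not_dvd_card hq hqM hf' fun x hx => h3 x hx.1)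
      (fun u hu => ⟨h1 w hwE u hu.1, E.mul_mem (E.mul_mem hwE hu.2) (E.inv_mem hwE)⟩) ?_ a
      ⟨ha, haE⟩
    intro s' hs hsq T hT hTs hwT
    have hTf : Finite T := Finite.of_injective (Subgroup.inclusion hT)
      (Subgroup.inclusion_injective _)
    exact cent_of_no_arr S.n0 S.exp hs (hno s' hs hsq) hTf hTs hwT
  let C : Subgroup E :=
    { carrier := {x | (x : G) ∈ B ∧ ∀ a ∈ A, a ∈ E → (x : G) * a = a * x}
      one_mem' := ⟨one_mem _, fun v _ _ => by rw [Subgroup.coe_one, mul_one, one_mul]⟩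
      mul_mem' := by
        rintro x y ⟨hx, hx2⟩ ⟨hy, hy2⟩
        refine ⟨mul_mem hx hy, fun v hv hvE => ?_⟩
        rw [Subgroup.coe_mul, mul_assoc, hy2 v hv hvE, ← mul_assoc, hx2 v hv hvE, mul_assoc]
      inv_mem' := by
        rintro x ⟨hx, hx2⟩
        refine ⟨inv_mem hx, fun v hv hvE => ?_⟩
        have h1 := hx2 v hv hvE
        rw [Subgroup.coe_inv, inv_mul_eq_iff_eq_mul, ← mul_assoc, h1]
        group }
  have hCn : C.Normal := by
    refine ⟨?_⟩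
    rintro x ⟨hx, hx2⟩ g
    refine ⟨h2 g g.2 x hx, fun v hv hvE => ?_⟩
    have h7 : (g : G)⁻¹ * v * g ∈ A := by
      have := h1 (g : G)⁻¹ (inv_mem g.2) v hv
      rwa [inv_inv] at this
    have h9 : (g : G)⁻¹ * v * g ∈ E := E.mul_mem (E.mul_mem (E.inv_mem g.2) hvE) g.2
    have h8 := hx2 _ h7 h9
    change (g : G) * x * (g : G)⁻¹ * v = v * ((g : G) * x * (g : G)⁻¹)
    calc (g : G) * x * (g : G)⁻¹ * v = g * (x * ((g : G)⁻¹ * v * g)) * (g : G)⁻¹ := by group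
      _ = g * (((g : G)⁻¹ * v * g) * x) * (g : G)⁻¹ := by rw [h8]
      _ = v * (g * x * (g : G)⁻¹) := by group
  have h6 := nilpG hq hab hqM (exp_sub hexp E) C hCn (by
    intro x hx y hy hyp
    have h10 : (y : G) ∈ A := mem_of_pow hab.symm (congrArg Subtype.val hyp) (h4 y hy.1)
    exact Subtype.ext (hx.2 y h10 y.2)) (x := ⟨w, hwE⟩) ⟨h5, hcA⟩ (Subtype.ext hw.1)
  have h7 := rad_mul h6 (z := ⟨t, htE⟩) (Subtype.ext ht)
  exact hwt (congrArg Subtype.val h7)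

/-- powers of elements of maximal order -/
theorem ss_of_max2 (S : Sh n s α β G) {m : ℕ} (hα : 1 ≤ α) (hpm : ¬ 2 ∣ m)
    (hmn : 2 ^ α * m = n) (hNC : ∀ q : ℕ, q.Prime → q ∣ m → NoC G α m q)
    {x : G} (hx : x ^ 2 ^ α = 1) : SG (2 ^ α) m (x ^ 2 ^ (α - 1)) := by
  have hp := Nat.prime_two
  have hpm' : Nat.Coprime 2 m := (Nat.Prime.coprime_iff_not_dvd hp).2 hpm
  have hexp : ∀ x : G, x ^ (2 ^ α * m) = 1 := by rw [hmn]; exact S.exp
  have hz : (x ^ 2 ^ (α - 1)) ^ 2 ^ α = 1 := by rw [← pow_mul, mul_comm, pow_mul, hx, one_pow]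
  refine ⟨hz, fun E hE hEs hzE => ?_⟩
  obtain ⟨z, hzx⟩ : ∃ z, z = x ^ 2 ^ (α - 1) := ⟨_, rfl⟩
  rw [← hzx] at hz hzE ⊢
  have hh : ∀ (K : Subgroup G), Finite K → Group.IsSolvable K → ∀ x : K, x ^ 2 ^ α = 1 →
      TT (2 ^ α) m ⊤ (x ^ 2 ^ (α - 1)) := by
    intro K hK hKs x hx
    refine ind_TTG hp hpm' (fun F _ z => (∃ x : F, x ^ 2 ^ α = 1 ∧ z = x ^ 2 ^ (α - 1)) ∧ Im G F)
      ?_ ?_ (Nat.card K) K le_rfl (exp_sub hexp K) hKs _ ?_ ⟨⟨x, hx, rfl⟩, Im.self K hK hKs⟩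
    · rintro F _ N _ _ ⟨⟨x, hx, rfl⟩, hI⟩
      exact ⟨⟨x, by rw [← QuotientGroup.mk_pow, hx]; rfl, by rw [QuotientGroup.mk_pow]⟩,
        hI.quot N⟩
    · rintro F _ _ hF _ - ⟨⟨x, hx, rfl⟩, hI⟩ V L hV hL hVL hVab hVp hLQ hC s hs _
      exact no_confH hpm hNC hI hF hx V L hV hL hVL hVab hVp hLQ hC hs
    · rw [← pow_mul, mul_comm, pow_mul, hx, one_pow]
  have key : ∀ f : G, TT (2 ^ α) m (c2 z f) z := by
    intro f
    have hfin := S.fin' x f (Or.inl ⟨α, hx⟩)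
    have hxm : x ∈ c2 x f := Subgroup.subset_closure (by simp)
    have hfm : f ∈ c2 x f := Subgroup.subset_closure (by simp)
    have h1 := hh (c2 x f) (S.fin' x f (Or.inl ⟨α, hx⟩)) (S.sol' x f (Or.inl ⟨α, hx⟩)) (⟨x, hxm⟩) (Subtype.ext hx)
    have h2 := h1.map (c2 x f).subtype
    rw [← MonoidHom.range_eq_map, Subgroup.range_subtype] at h2
    have h3 : (c2 x f).subtype ((⟨x, hxm⟩ : c2 x f) ^ 2 ^ (α - 1)) = z := by
      rw [hzx]
      rfl
    rw [h3] at h2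
    refine h2.mono ?_
    unfold c2
    rw [Subgroup.closure_le]
    rintro y (rfl | hy)
    · rw [hzx]
      exact pow_mem hxm _
    · rw [Set.mem_singleton_iff.1 hy]
      exact hfm
  have h4 := bsG hp hpm' (exp_sub hexp E) hEs (z := ⟨z, hzE⟩) (Subtype.ext hz) (by
    intro f
    refine TT.comap E.subtype E.subtype_injective ?_
    have h5 : (c2 (⟨z, hzE⟩ : E) f).map E.subtype = c2 z (f : G) := by
      unfold c2
      rw [MonoidHom.map_closure, Set.image_pair]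
      rfl
    rw [h5]
    exact key f)
  have h5 := h4.map E.subtype
  rw [← MonoidHom.range_eq_map, Subgroup.range_subtype] at h5
  exact h5

end Pool.Agent.N6.Pg
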