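import Mathlib
import Pool.Agent.N6.PgB

set_option autoImplicit false

/-!
# One generator a `2`-element or of prime order, part C: the theorems
-/

namespace Pool.Agent.N6.Pg

open Pool.Agent.H32BU Pool.Agent.W629 Pool.Agent.TH69.Mtn Pool.Agent.TH69.Od Pool.Agent.TH69.Og
open Pool.Agent.TH69.Oh Pool.Agent.TH69.Ok Pool.Agent.TH69.Pq Pool.Agent.N6.Pf

universe u

/-- the condition on the exponent `2 ^ α * s ^ β` -/
def Ne (s α β : ℕ) : Prop := ∀ m : ℕ, 2 ≤ m → m ≤ α → s = 2 ^ m - 1 → β ≤ 1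

/-- elements of prime power order if `s ^ 2` does not divide the exponent -/
theorem pq_of_pp {s α : ℕ} (hs : s.Prime) {G : Type u} [Group G] {y : G}
    (hy1 : y ^ (s * 2 ^ α) = 1) (hy : PP y) : PQ s y := by
  obtain ⟨p, k, hp, hk, hy2⟩ := pp_dvd hy1 hy
  by_cases h : p = 2
  · subst h
    exact Or.inl ⟨k, hy2⟩
  · right
    have h1 : Nat.Coprime (p ^ k) (2 ^ α) := Nat.Coprime.pow _ _
      ((Nat.coprime_primes hp Nat.prime_two).2 h)
    obtain ⟨c, hc⟩ := h1.dvd_of_dvd_mul_right hk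
    rw [hc, pow_mul, hy2, one_pow]

/-- the configurations of the theorem of Hall and Higman do not occur -/
theorem noC {G : Type} [Group G] {n s α β : ℕ} (S : Sh n s α β G) (hα : 1 ≤ α) (hE : Ne s α β)
    (r2 : Rad (2 ^ α) G = ⊥) (q : ℕ) (hq : q.Prime) (hqm : q ∣ s ^ β) :
    NoC G α (s ^ β) q := by
  have hqs : q = s := (Nat.prime_dvd_prime_iff_eq hq S.hs).1 (hq.dvd_of_dvd_pow hqm)
  subst hqs
  have h2m : ¬ 2 ∣ q ^ β := (Nat.Prime.coprime_iff_not_dvd Nat.prime_two).1 S.hM.symm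
  by_cases hex : ∀ μ, 1 ≤ μ → μ ≤ α → ∀ r, 1 ≤ r → q ^ r ≠ 2 ^ μ - 1
  · exact noC_of_hex hq S.hs2 hα h2m hex
  push Not at hex
  obtain ⟨μ, hμ1, hμ2, r, hr, h⟩ := hex
  obtain ⟨h3, h4⟩ := mersenne hq hr h
  have hβ1 := hE μ h4 hμ2 h3
  have hβ : β = 1 := by
    rcases Nat.eq_zero_or_pos β with h0 | h0
    · subst h0
      rw [pow_zero] at hqm
      exact absurd (Nat.dvd_one.1 hqm) hq.one_lt.ne'
    · omega
  subst hβ
  have hMn : 2 ^ α * q = n := by
    rw [mul_comm, ← S.hn, pow_one]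
  have hmn : 2 ^ α * q ^ 1 = n := by rw [pow_one]; exact hMn
  have SF : Sf n G := ⟨S.n0, S.exp, fun x y hy => S.fin x y (pq_of_pp (α := α) hq (by
      rw [mul_comm, hMn]; exact S.exp y) hy), fun x y hy => S.sol x y (pq_of_pp (α := α) hq (by
      rw [mul_comm, hMn]; exact S.exp y) hy)⟩
  have hM : Nat.Coprime (2 ^ α) q := by
    have := S.hMQ.symm
    rwa [pow_one] at this
  by_cases hμ : μ = 2
  · have h8 : q = 3 := by
      rw [h3, hμ]
      norm_num
    subst h8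
    exact noC_threeF SF hM hMn r2 hα h2m hmn
  · refine noC_onceF SF hq S.hs2 hM hMn r2 ?_ hα h2m hmn
    intro t ht htd k hk h8
    obtain ⟨ν, rfl⟩ : ∃ ν, μ = ν + 3 := ⟨μ - 3, by omega⟩
    obtain ⟨j, rfl⟩ : ∃ j, k = j + 1 := ⟨k - 1, by omega⟩
    have h9 : 2 ^ (ν + 3) = 8 * 2 ^ ν := by ring
    have h10 : 0 < 2 ^ ν := Nat.pow_pos (by norm_num)
    have h12 : t = 2 :=
      (Nat.prime_dvd_prime_iff_eq ht Nat.prime_two).1 (ht.dvd_of_dvd_pow htd)
    rw [h12, h3, h9, pow_succ] at h8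
    obtain ⟨i, rfl | rfl⟩ : ∃ i, j = 0 ∨ j = i + 1 := by
      rcases j with _ | j
      · exact ⟨0, Or.inl rfl⟩
      · exact ⟨j, Or.inr rfl⟩
    · omega
    · rw [pow_succ] at h8
      omega

/-- groups without normal subgroups of prime power exponent -/
theorem triv {s β : ℕ} : ∀ (α : ℕ) {n : ℕ} {G : Type} [Group G], Sh n s α β G → Ne s α β →
    Rad (s ^ β) G = ⊥ → Rad (2 ^ α) G = ⊥ → ∀ x : G, x = 1 := by
  intro α
  induction α with
  | zero =>
    intro n G _ S _ rs _ x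
    have h1 : ∀ y : G, y ^ s ^ β = 1 := by
      intro y
      have := S.hexp y
      rwa [pow_zero, mul_one] at this
    have h2 : x ∈ Rad (s ^ β) G := ⟨h1 x, fun z _ => h1 _⟩
    rwa [rs, Subgroup.mem_bot] at h2
  | succ α ih =>
    intro n G _ S hE rs r2
    have hα : 1 ≤ α + 1 := by omega
    have hmn : 2 ^ (α + 1) * s ^ β = n := by rw [mul_comm]; exact S.hn
    have h2m : ¬ 2 ∣ s ^ β := (Nat.Prime.coprime_iff_not_dvd Nat.prime_two).1 S.hM.symm
    have hz : ∀ z : G, SG (2 ^ (α + 1)) (s ^ β) z → z ^ 2 = 1 → z = 1 := by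
      intro z hz hz2
      refine rad_of_no_arr S r2 hz fun s' hs' hs2' U A => ?_
      by_cases h : s' = s
      · subst h
        exact no_arr S rs hz hz2 A
      · obtain ⟨u, hu, huw⟩ := A.nc
        have h1 : qp s' n = 1 := by
          unfold qp
          rw [Nat.factorization_eq_zero_of_not_dvd, pow_zero]
          rw [← hmn]
          intro hd
          rcases hs'.dvd_mul.1 hd with hd | hd
          · exact hs2' ((Nat.prime_dvd_prime_iff_eq hs' Nat.prime_two).1 (hs'.dvd_of_dvd_pow hd))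
          · exact h ((Nat.prime_dvd_prime_iff_eq hs' S.hs).1 (hs'.dvd_of_dvd_pow hd))
        have h3 := A.pow u hu
        rw [h1, pow_one] at h3
        rw [h3, mul_one, one_mul] at huw
        exact huw rfl
    have hexp : ∀ x : G, x ^ (s ^ β * 2 ^ α) = 1 := by
      intro x
      have h3 : (x ^ s ^ β) ^ 2 ^ (α + 1) = 1 := by rw [← pow_mul, S.hn, S.exp]
      have h4 := ss_of_max2 S hα h2m hmn (noC S hα hE r2) h3
      rw [Nat.add_sub_cancel] at h4
      have h5 := hz _ h4 (by rw [← pow_mul, ← pow_succ, h3])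
      rw [pow_mul]
      exact h5
    refine ih (n := s ^ β * 2 ^ α) ⟨S.hs, S.hs2, rfl, hexp, S.fin⟩ (fun m h1 h2 h3 =>
      hE m h1 (by omega) h3) rs ?_
    have h6 := le_rad (G := G) (a := 2 ^ (α + 1)) (b := s ^ β) S.hMQ.symm (by rw [hmn]; exact S.exp)
      (Rad (2 ^ α) G) (fun x hx => by
        rw [pow_succ, pow_mul, rad_pow hx, one_pow])
    rw [r2] at h6
    exact le_bot_iff.1 h6

/-- `2`-elements and elements of order `s` -/
theorem pq_cases {s α β : ℕ} (hs : s.Prime) (hs2 : s ≠ 2) {G : Type u} [Group G] {y : G}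
    (hy1 : y ^ (s ^ β * 2 ^ α) = 1) (hy : PQ s y) : y ^ 2 ^ α = 1 ∨ y ^ s = 1 := by
  rcases hy with ⟨k, h⟩ | h
  · left
    obtain ⟨i, hi, hi2⟩ := (Nat.dvd_prime_pow Nat.prime_two).1 (orderOf_dvd_of_pow_eq_one h)
    have h1 : 2 ^ i ∣ s ^ β * 2 ^ α := by
      rw [← hi2]
      exact orderOf_dvd_of_pow_eq_one hy1
    have h2 : Nat.Coprime (2 ^ i) (s ^ β) := Nat.Coprime.pow _ _
      ((Nat.coprime_primes Nat.prime_two hs).2 hs2.symm)
    rw [← orderOf_dvd_iff_pow_eq_one, hi2]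
    exact h2.dvd_of_dvd_mul_left h1
  · exact Or.inr h

theorem sh_of_bq {s α β : ℕ} (hs : s.Prime) (hs2 : s ≠ 2)
    (hf1 : Finite (Bq (s ^ β * 2 ^ α) (2 ^ α))) (hf2 : Finite (Bq (s ^ β * 2 ^ α) s))
    {G : Type} [Group G] (hG : ∀ x : G, x ^ (s ^ β * 2 ^ α) = 1) :
    Sh (s ^ β * 2 ^ α) s α β G := by
  refine ⟨hs, hs2, rfl, hG, fun x y hy => ?_⟩
  rcases pq_cases hs hs2 (hG y) hy with h | h
  · obtain ⟨f, hfr⟩ := bq2 hG x y h
    unfold c2
    rw [← hfr]
    exact Finite.of_surjective f.rangeRestrict f.rangeRestrict_surjective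
  · obtain ⟨f, hfr⟩ := bq2 hG x y h
    unfold c2
    rw [← hfr]
    exact Finite.of_surjective f.rangeRestrict f.rangeRestrict_surjective

/-- radicals of the quotient by the locally finite radical -/
theorem rad_quot {G : Type} [Group G] {P : ℕ} (hL : LocFin P) (M : Subgroup G) [hM : M.Normal]
    (hML : LF M) (hMmax : ∀ N : Subgroup G, N.Normal → LF N → N ≤ M) : Rad P (G ⧸ M) = ⊥ := by
  rw [eq_bot_iff]
  intro x hx
  have hN : ((Rad P (G ⧸ M)).comap (QuotientGroup.mk' M)).Normal := inferInstance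
  have hNL : LF ((Rad P (G ⧸ M)).comap (QuotientGroup.mk' M)) := by
    have hML' : LF (M.subgroupOf ((Rad P (G ⧸ M)).comap (QuotientGroup.mk' M))) := by
      refine x_LFS.2.1 _ M
        { toFun := fun x => ⟨(x : ↥((Rad P (G ⧸ M)).comap (QuotientGroup.mk' M))), x.2⟩
          map_one' := rfl
          map_mul' := fun _ _ => rfl } ?_ hML
      intro a b hab
      have : ((a : ↥((Rad P (G ⧸ M)).comap (QuotientGroup.mk' M))) : G) =
          ((b : ↥((Rad P (G ⧸ M)).comap (QuotientGroup.mk' M))) : G) :=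
        congrArg (fun z : ↥M => (z : G)) hab
      exact Subtype.ext (Subtype.ext this)
    refine x_SCH _ (M.subgroupOf ((Rad P (G ⧸ M)).comap (QuotientGroup.mk' M))) hML' ?_
    refine hL _ fun q => ?_
    obtain ⟨⟨g, hg⟩, rfl⟩ := QuotientGroup.mk_surjective q
    rw [← QuotientGroup.mk_pow, QuotientGroup.eq_one_iff, Subgroup.mem_subgroupOf]
    have h3 : ((g : G ⧸ M)) ^ P = 1 := hg.1
    rw [← QuotientGroup.mk_pow, QuotientGroup.eq_one_iff] at h3
    exact h3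
  obtain ⟨g, rfl⟩ := QuotientGroup.mk_surjective x
  have h4 : g ∈ (Rad P (G ⧸ M)).comap (QuotientGroup.mk' M) := hx
  have h5 := hMmax _ hN hNL h4
  rw [Subgroup.mem_bot, QuotientGroup.eq_one_iff]
  exact h5

/-- local finiteness -/
theorem locfin_g {s α β : ℕ} (hs : s.Prime) (hs2 : s ≠ 2) (hE : Ne s α β) (h2 : LocFin (2 ^ α))
    (hsb : LocFin (s ^ β)) (hf1 : Finite (Bq (s ^ β * 2 ^ α) (2 ^ α)))
    (hf2 : Finite (Bq (s ^ β * 2 ^ α) s)) : LocFin (s ^ β * 2 ^ α) := by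
  intro G _ hG
  obtain ⟨M, hM, hML, hMmax⟩ := exists_radical G
  refine x_SCH G M hML ?_
  have h1 : ∀ g : G ⧸ M, g = 1 := triv α (sh_of_bq hs hs2 hf1 hf2 (exp_quot hG M)) hE
    (rad_quot hsb M hML hMmax) (rad_quot h2 M hML hMmax)
  intro S
  have : Subsingleton (G ⧸ M) := ⟨fun a b => by rw [h1 a, h1 b]⟩
  infer_instance

theorem fin_transferG {s : ℕ} {Q : Type} {G : Type u} [Group Q] [Group G] (f : Q →* G)
    (hf : Function.Injective f) (h2 : ∀ x y : G, PQ s y → Finite (Subgroup.closure {x, y}))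
    (x y : Q) (hy : PQ s y) : Finite (c2 x y) := by
  have h3 := h2 (f x) (f y) (hy.map f)
  have e : (c2 x y).map f = Subgroup.closure {f x, f y} := by
    unfold c2
    rw [MonoidHom.map_closure, Set.image_pair]
  rw [← e] at h3
  have eq := (c2 x y).equivMapOfInjective f hf
  exact Finite.of_equiv _ eq.symm.toEquiv

/-- triviality of groups with trivial radicals, all universes -/
theorem triv_u {s α β : ℕ} (hs : s.Prime) (hs2 : s ≠ 2) (hE : Ne s α β) (G : Type u) [Group G]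
    (hG : ∀ x : G, x ^ (s ^ β * 2 ^ α) = 1)
    (h2 : ∀ x y : G, PQ s y → Finite (Subgroup.closure {x, y}))
    (rs : Rad (s ^ β) G = ⊥) (r2 : Rad (2 ^ α) G = ⊥) (g : G) : g = 1 := by
  classical
  have hex : ∀ (P : ℕ) (e : G), ∃ z : G, Rad P G = ⊥ → e ≠ 1 → e ^ P = 1 →
      z ^ P = 1 ∧ (e * z) ^ P ≠ 1 := by
    intro P e
    by_contra hcon
    push Not at hcon
    obtain ⟨hR, he1, he, -⟩ := hcon 1
    apply he1
    have h3 : e ∈ Rad P G := ⟨he, fun z hz => (hcon z).2.2.2 hz⟩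
    rw [hR] at h3
    exact h3
  choose f hf using hex
  obtain ⟨C, hC, hgC, hfC⟩ := exists_closed f g
  have hsm : Small.{0} C := inferInstance
  let e : Shrink.{0} C ≃* C := Shrink.mulEquiv
  let φ : Shrink.{0} C →* G := C.subtype.comp e.toMonoidHom
  have hφ : Function.Injective φ := fun x y hxy => e.injective (Subtype.ext hxy)
  have hmem : ∀ x, φ x ∈ C := fun x => (e x).2
  have key : ∀ P : ℕ, Rad P G = ⊥ → Rad P (Shrink.{0} C) = ⊥ := by
    intro P hP
    rw [Subgroup.eq_bot_iff_forall]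
    rintro x ⟨hx, hx'⟩
    by_contra hne
    obtain ⟨h4, h5⟩ := hf P (φ x) hP (fun h => hne (hφ (by rw [h, map_one])))
      (by rw [← map_pow, hx, map_one])
    obtain ⟨z, hz⟩ : ∃ z, φ z = f P (φ x) := by
      refine ⟨e.symm ⟨f P (φ x), hfC P _ (hmem x)⟩, ?_⟩
      change ((e (e.symm _) : C) : G) = _
      rw [MulEquiv.apply_symm_apply]
    have h6 := hx' z (hφ (by rw [map_pow, hz, h4, map_one]))
    apply h5
    rw [← hz, ← map_mul, ← map_pow, h6, map_one]
  have h3 := triv α (n := s ^ β * 2 ^ α) (G := Shrink.{0} C)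
    ⟨hs, hs2, rfl, fun x => hφ (by rw [map_pow, map_one]; exact hG _), fin_transferG φ hφ h2⟩ hE
    (key _ rs) (key _ r2) (e.symm ⟨g, hgC⟩)
  have h4 := congrArg φ h3
  rw [map_one] at h4
  have h5 : φ (e.symm ⟨g, hgC⟩) = g := by
    change ((e (e.symm _) : C) : G) = _
    rw [MulEquiv.apply_symm_apply]
  rw [← h5, h4]

/-- normal subgroups of prime power exponent -/
theorem exists_normal {s α β : ℕ} (hs : s.Prime) (hs2 : s ≠ 2) (hE : Ne s α β) (G : Type u)
    [Group G] (hG : ∀ x : G, x ^ (s ^ β * 2 ^ α) = 1)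
    (h2 : ∀ x y : G, PQ s y → Finite (Subgroup.closure {x, y})) (hnt : Nontrivial G) :
    ∃ N : Subgroup G, N.Normal ∧ N ≠ ⊥ ∧
      ((∀ x ∈ N, x ^ 2 ^ α = 1) ∨ ∀ x ∈ N, x ^ s ^ β = 1) := by
  by_contra hcon
  push Not at hcon
  obtain ⟨g, hg⟩ := exists_ne (1 : G)
  apply hg
  refine triv_u hs hs2 hE G hG h2 ?_ ?_ g
  · by_contra hne
    obtain ⟨x, hx, hx'⟩ := (hcon (Rad (s ^ β) G) inferInstance hne).2
    exact hx' hx.1
  · by_contra hne
    obtain ⟨x, hx, hx'⟩ := (hcon (Rad (2 ^ α) G) inferInstance hne).1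
    exact hx' hx.1

end Pool.Agent.N6.Pg
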