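import Mathlib
import Pool.Agent.N6.PgC
import Pool.Agent.R669.Wreath
import Pool.Agent.Y50.FE.Word

set_option autoImplicit false

/-!
# One generator a `2`-element or of prime order, part D: multiples of five
-/

namespace Pool.Agent.N6.Pg

open Pool.Agent.H32BU Pool.Agent.W629 Pool.Agent.N6.Pf Subgroup Pool.Agent.R669

universe u

/-- the largest group of exponent dividing `n` generated by `x₀, x₁` with `x₀ ^ r = x₁ ^ s = 1` -/
abbrev Cq (n r s : ℕ) : Type :=
  FreeGroup (Fin 2) ⧸ Subgroup.normalClosure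
    ((Set.range fun w : FreeGroup (Fin 2) => w ^ n) ∪ {FreeGroup.of 0 ^ r, FreeGroup.of 1 ^ s})

theorem cq2 {n r s : ℕ} {G : Type} [Group G] (hG : ∀ x : G, x ^ n = 1) (a b : G) (ha : a ^ r = 1)
    (hb : b ^ s = 1) : ∃ f : Cq n r s →* G, f.range = Subgroup.closure {a, b} := by
  let f0 : FreeGroup (Fin 2) →* G := FreeGroup.lift ![a, b]
  have hker : Subgroup.normalClosure
      ((Set.range fun w : FreeGroup (Fin 2) => w ^ n) ∪ {FreeGroup.of 0 ^ r, FreeGroup.of 1 ^ s}) ≤
      f0.ker := by
    apply Subgroup.normalClosure_le_normal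
    rintro _ (⟨w, rfl⟩ | rfl | h)
    · rw [SetLike.mem_coe, MonoidHom.mem_ker, map_pow, hG]
    · rw [SetLike.mem_coe, MonoidHom.mem_ker, map_pow]
      have : f0 (FreeGroup.of 0) = a := by
        simp [f0]
      rw [this, ha]
    · rw [Set.mem_singleton_iff.1 h, SetLike.mem_coe, MonoidHom.mem_ker, map_pow]
      have : f0 (FreeGroup.of 1) = b := by
        simp [f0]
      rw [this, hb]
  refine ⟨QuotientGroup.lift _ f0 (fun w hw => hker hw), ?_⟩
  have e1 : (QuotientGroup.lift _ f0 (fun w hw => hker hw) : Cq n r s →* G).range = f0.range := by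
    ext g
    constructor
    · rintro ⟨w, rfl⟩
      obtain ⟨w, rfl⟩ := QuotientGroup.mk_surjective w
      exact ⟨w, rfl⟩
    · rintro ⟨w, rfl⟩
      exact ⟨(w : Cq n r s), rfl⟩
  rw [e1]
  have e2 : f0.range = Subgroup.closure (Set.range ![a, b]) := FreeGroup.range_lift_eq_closure
  rw [e2]
  congr 1
  ext g
  simp only [Set.mem_range, Fin.exists_fin_succ, Set.mem_insert_iff, Set.mem_singleton_iff]
  simp [eq_comm]

/-- the wreath product with a cyclic group of order `m` -/
theorem wr_aux {d m : ℕ} (hm : 2 ≤ m) {G : Type} [Group G] (hG : ∀ x : G, x ^ d = 1)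
    (F : Multiplicative (ZMod m) → G) (z : G)
    (h : (∀ x : RegularWreathProduct G (Multiplicative (ZMod m)), x ^ (m * d) = 1) →
      (⟨F, 1⟩ : RegularWreathProduct G (Multiplicative (ZMod m))) ^ d = 1 →
      (z = 1 → (vv z (Multiplicative.ofAdd 1) :
        RegularWreathProduct G (Multiplicative (ZMod m))) ^ m = 1) →
      Finite (closure ({vv z (Multiplicative.ofAdd 1), ⟨F, 1⟩} :
        Set (RegularWreathProduct G (Multiplicative (ZMod m)))))) :
    Finite (closure (insert z (Set.range F))) := by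
  classical
  have : NeZero m := ⟨by omega⟩
  let t : Multiplicative (ZMod m) := Multiplicative.ofAdd 1
  have hQ : ∀ q : Multiplicative (ZMod m), q ^ m = 1 := by
    intro q
    have h1 : m • (Multiplicative.toAdd q) = 0 := by
      rw [nsmul_eq_mul, ZMod.natCast_self, zero_mul]
    exact h1
  have ho : orderOf t = m := by
    rw [orderOf_ofAdd_eq_addOrderOf]
    exact ZMod.addOrderOf_one m
  have ht : ∀ q : Multiplicative (ZMod m), q ∈ zpowers t := by
    intro q
    refine ⟨((Multiplicative.toAdd q : ZMod m).val : ℤ), ?_⟩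
    change t ^ ((Multiplicative.toAdd q : ZMod m).val : ℤ) = q
    rw [zpow_natCast]
    change Multiplicative.ofAdd ((Multiplicative.toAdd q : ZMod m).val • (1 : ZMod m)) = q
    rw [nsmul_eq_mul, mul_one, ZMod.natCast_zmod_val]
    rfl
  have hF : (⟨F, 1⟩ : RegularWreathProduct G (Multiplicative (ZMod m))) ^ d = 1 := by
    refine RegularWreathProduct.ext ?_ ?_
    · funext x
      rw [wr_pow_left _ rfl, hG]
      rfl
    · rw [wr_pow_right, one_pow]
      rfl
  have hv : z = 1 → (vv z t : RegularWreathProduct G (Multiplicative (ZMod m))) ^ m = 1 := by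
    rintro rfl
    have h1 : ∀ k : ℕ, ((vv (1 : G) t) ^ k).left = 1 := by
      intro k
      induction k with
      | zero => rfl
      | succ k ih =>
        rw [pow_succ, RegularWreathProduct.mul_left, ih]
        funext x
        simp [vv]
    refine RegularWreathProduct.ext (h1 m) ?_
    rw [wr_pow_right]
    exact hQ _
  have h1 := h (wr_exp hG hQ) hF hv
  rw [Set.pair_comm] at h1
  exact wr_two z F t ht (by omega) h1

/-- three generators from two, the second one of order `d` -/
theorem three_of_bq {d m : ℕ} (hm : 2 ≤ m) (h : Finite (Bq (m * d) d)) (G : Type) [Group G]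
    (hG : ∀ x : G, x ^ d = 1) (a b c : G) : Finite (closure ({a, b, c} : Set G)) := by
  classical
  have ho : (Multiplicative.ofAdd 1 : Multiplicative (ZMod m)) ≠ 1 := by
    intro h3
    have : Fact (1 < m) := ⟨by omega⟩
    have h4 : (1 : ZMod m) = 0 := congrArg Multiplicative.toAdd h3
    exact one_ne_zero h4
  let F : Multiplicative (ZMod m) → G := fun q => if q = 1 then a else b
  have h2 := wr_aux hm hG F c fun hW hF _ => by
    obtain ⟨f, hf⟩ := bq2 hW (vv c (Multiplicative.ofAdd 1)) ⟨F, 1⟩ hF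
    rw [← hf]
    exact Finite.of_surjective f.rangeRestrict f.rangeRestrict_surjective
  have hle : closure ({a, b, c} : Set G) ≤ closure (insert c (Set.range F)) := by
    rw [closure_le]
    rintro x (rfl | rfl | rfl)
    · exact subset_closure (Or.inr ⟨1, if_pos rfl⟩)
    · exact subset_closure (Or.inr ⟨Multiplicative.ofAdd 1, if_neg ho⟩)
    · exact subset_closure (Or.inl rfl)
  exact Finite.of_injective (inclusion hle) (inclusion_injective hle)

/-- three generators from two of orders `m` and `d` -/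
theorem three_of_cq {d m : ℕ} (hm : 3 ≤ m) (h : Finite (Cq (m * d) m d)) (G : Type) [Group G]
    (hG : ∀ x : G, x ^ d = 1) (a b c : G) : Finite (closure ({a, b, c} : Set G)) := by
  classical
  have ho : (Multiplicative.ofAdd 1 : Multiplicative (ZMod m)) ≠ 1 := by
    intro h3
    have : Fact (1 < m) := ⟨by omega⟩
    have h4 : (1 : ZMod m) = 0 := congrArg Multiplicative.toAdd h3
    exact one_ne_zero h4
  have h21 : (Multiplicative.ofAdd 2 : Multiplicative (ZMod m)) ≠ 1 := by
    intro h3
    have h4 : ((2 : ℕ) : ZMod m) = 0 := congrArg Multiplicative.toAdd h3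
    rw [ZMod.natCast_eq_zero_iff] at h4
    have := Nat.le_of_dvd (by norm_num) h4
    omega
  have h22 : (Multiplicative.ofAdd 2 : Multiplicative (ZMod m)) ≠ Multiplicative.ofAdd 1 := by
    intro h3
    have : Fact (1 < m) := ⟨by omega⟩
    have h4 : (2 : ZMod m) = 1 := congrArg Multiplicative.toAdd h3
    have h5 : (1 : ZMod m) = 0 := by
      have h6 : (2 : ZMod m) = 1 + 1 := by norm_num
      rw [h6] at h4
      exact left_eq_add.1 h4.symm
    exact one_ne_zero h5
  let F : Multiplicative (ZMod m) → G := fun q => if q = 1 then a else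
    if q = Multiplicative.ofAdd 1 then b else c
  have h2 := wr_aux (by omega) hG F 1 fun hW hF hv => by
    obtain ⟨f, hf⟩ := cq2 hW (vv 1 (Multiplicative.ofAdd 1)) ⟨F, 1⟩ (hv rfl) hF
    rw [← hf]
    exact Finite.of_surjective f.rangeRestrict f.rangeRestrict_surjective
  have hle : closure ({a, b, c} : Set G) ≤ closure (insert 1 (Set.range F)) := by
    rw [closure_le]
    rintro x (rfl | rfl | rfl)
    · exact subset_closure (Or.inr ⟨1, if_pos rfl⟩)
    · refine subset_closure (Or.inr ⟨Multiplicative.ofAdd 1, ?_⟩)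
      change (if _ then _ else _) = _
      rw [if_neg ho, if_pos rfl]
    · refine subset_closure (Or.inr ⟨Multiplicative.ofAdd 2, ?_⟩)
      change (if _ then _ else (if _ then _ else _)) = _
      rw [if_neg h21, if_neg h22]
  exact Finite.of_injective (inclusion hle) (inclusion_injective hle)

/-- groups of exponent five -/
theorem five_of_bq {m : ℕ} (hm : 2 ≤ m) (h : Finite (Bq (m * 5) 5)) : LocFin 5 := by
  have h3 := three_of_bq (d := 5) hm h (Bu 3 5) (x_LFD.2.2.2 3 5) (Y50.FE.bg 5 0) (Y50.FE.bg 5 1)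
    (Y50.FE.bg 5 2)
  rw [Y50.FE.bg_gen] at h3
  exact (inL_iff x_LFD 5).1
    (Y50.FE.inL_five.{0}.2 (Finite.of_equiv _ (Subgroup.topEquiv (G := Bu 3 5)).toEquiv))

/-- groups of exponent five -/
theorem five_of_cq {m : ℕ} (hm : 3 ≤ m) (h : Finite (Cq (m * 5) m 5)) : LocFin 5 := by
  have h3 := three_of_cq (d := 5) hm h (Bu 3 5) (x_LFD.2.2.2 3 5) (Y50.FE.bg 5 0) (Y50.FE.bg 5 1)
    (Y50.FE.bg 5 2)
  rw [Y50.FE.bg_gen] at h3
  exact (inL_iff x_LFD 5).1
    (Y50.FE.inL_five.{0}.2 (Finite.of_equiv _ (Subgroup.topEquiv (G := Bu 3 5)).toEquiv))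

end Pool.Agent.N6.Pg
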